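import Pool.Agent.Lib.Pa76659.Limit

/-!
Codes, conditions with columns and hidden codes, and their canonical members.
-/

set_option maxHeartbeats 4000000

namespace Pool.Agent.Lib.Pa76659O

open Pool.Agent.Lib.Pa76659

/-- The type of the codes: `d` says whether a code is the exclusive or of the values of two trees,
`h` is the height of the trees. -/
structure Par where
  d : Bool
  h : ℕ

/-- the oracle which gives the content of the codes -/
noncomputable def ZZ (i : NIx) (X : Lang) : Lang := join X (join X (nEval i X))

/-- the content of the codes -/
noncomputable def cnt (P : Par) (i : NIx) (X : Lang) : Lang := J P.h (ZZ i X)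

/-- the value of a code tree -/
noncomputable def cd (P : Par) (j B : ℕ) (X : Lang) (z : Str) : Bool := QQ P.h X (code j B z)

/-- the decoded value -/
noncomputable def val (P : Par) (j B : ℕ) (X : Lang) (z : Str) : Bool :=
  if P.d = true then xor (cd P j B X (false :: z)) (cd P j B X (true :: z)) else cd P j B X z

/-- the argument of the content which is coded by the tree with name `z` in the canonical filling -/
def arg (P : Par) (z : Str) : Option Str :=
  if P.d = true then
    match z with
    | false :: z' => some z'
    | _ => none
  else some z

/-- a name for the argument `z` -/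
def nm (P : Par) (z : Str) : Str := if P.d = true then false :: z else z

theorem arg_length {P : Par} {z z' : Str} (h : arg P z = some z') : z'.length ≤ z.length := by
  unfold arg at h
  split_ifs at h with h1
  · rcases z with _ | ⟨_ | _, z⟩
    · simp at h
    · simp only [Option.some.injEq] at h
      rw [← h]; simp
    · simp at h
  · simp only [Option.some.injEq] at h
    rw [h]

/-- truncation of a sequence of strings of lengths `L`, `2 L`, ..., to lengths `l`, `2 l`, ... -/
def tru : ℕ → ℕ → ℕ → Str → Str
  | 0, _, _, _ => []
  | j + 1, L, l, r => r.take l ++ tru j (2 * L) (2 * l) (r.drop L)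

theorem tru_length : ∀ (j L l : ℕ) (r : Str), l ≤ L → r.length = (2 ^ j - 1) * L →
    (tru j L l r).length = (2 ^ j - 1) * l
  | 0, L, l, r, _, _ => by simp [tru]
  | j + 1, L, l, r, h, hr => by
      have h1 : (2 ^ (j + 1) - 1) * L = L + (2 ^ j - 1) * (2 * L) := by
        have := Nat.one_le_two_pow (n := j)
        obtain ⟨c, hc⟩ : ∃ c, 2 ^ j = c + 1 := ⟨2 ^ j - 1, by omega⟩
        rw [pow_succ, hc]
        have : (c + 1) * 2 - 1 = 2 * c + 1 := by omega
        rw [this, Nat.add_sub_cancel]
        ring
      have h2 : (2 ^ (j + 1) - 1) * l = l + (2 ^ j - 1) * (2 * l) := by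
        obtain ⟨c, hc⟩ : ∃ c, 2 ^ j = c + 1 := ⟨2 ^ j - 1, by
          have := Nat.one_le_two_pow (n := j); omega⟩
        rw [pow_succ, hc]
        have : (c + 1) * 2 - 1 = 2 * c + 1 := by omega
        rw [this, Nat.add_sub_cancel]
        ring
      have h3 := tru_length j (2 * L) (2 * l) (r.drop L) (by omega) (by
        rw [List.length_drop, hr, h1]; omega)
      rw [tru, List.length_append, h3, h2, List.length_take]
      have h4 : l ≤ r.length := by rw [hr, h1]; omega
      omega

theorem iter_tru (A F : Lang) : ∀ (j : ℕ) (c z : Str), z.length ≤ c.length →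
    (∀ r : Str, r.length = (2 ^ j - 1) * c.length →
      A (c ++ r) = F (z ++ tru j c.length z.length r)) → EE^[j] A c = EE^[j] F z
  | 0, c, z, _, h => by
      have := h [] (by simp)
      simpa [tru] using this
  | j + 1, c, z, hcz, h => by
      have key : ∀ y : Str, y.length = c.length →
          EE^[j] A (c ++ y) = EE^[j] F (z ++ y.take z.length) := by
        intro y hy
        have e1 : (c ++ y).length = 2 * c.length := by rw [List.length_append, hy]; ring
        have e2 : (z ++ y.take z.length).length = 2 * z.length := by
          rw [List.length_append, List.length_take, hy]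
          omega
        apply iter_tru A F j
        · rw [e1, e2]; omega
        · intro r hr
          rw [e1] at hr
          have h1 : (2 ^ (j + 1) - 1) * c.length = c.length + (2 ^ j - 1) * (2 * c.length) := by
            obtain ⟨d, hd⟩ : ∃ d, 2 ^ j = d + 1 := ⟨2 ^ j - 1, by
              have := Nat.one_le_two_pow (n := j); omega⟩
            rw [pow_succ, hd]
            have : (d + 1) * 2 - 1 = 2 * d + 1 := by omega
            rw [this, Nat.add_sub_cancel]
            ring
          have h2 := h (y ++ r) (by rw [List.length_append, hy, hr, h1])
          rw [List.append_assoc, h2, e1, e2, tru]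
          rw [← hy, List.drop_left, List.take_append_of_le_length (by omega), hy,
            List.append_assoc]
      rw [Function.iterate_succ_apply', Function.iterate_succ_apply', Bool.eq_iff_iff, EE_true,
        EE_true]
      constructor
      · rintro ⟨y, hy, hy2⟩
        rw [key y hy] at hy2
        exact ⟨y.take z.length, by rw [List.length_take]; omega, hy2⟩
      · rintro ⟨y, hy, hy2⟩
        refine ⟨y ++ List.replicate (c.length - z.length) false, ?_, ?_⟩
        · rw [List.length_append, List.length_replicate]; omega
        · rw [key _ (by rw [List.length_append, List.length_replicate]; omega), ← hy,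
            List.take_left]
          exact hy2

theorem iter_const (A : Lang) (b : Bool) : ∀ (j : ℕ) (c : Str),
    (∀ r : Str, r.length = (2 ^ j - 1) * c.length → A (c ++ r) = b) →
    EE^[j] A c = xor b (decide (j % 2 = 1))
  | 0, c, h => by
      have := h [] (by simp)
      simpa using this
  | j + 1, c, h => by
      have key : ∀ y : Str, y.length = c.length → EE^[j] A (c ++ y) =
          xor b (decide (j % 2 = 1)) := by
        intro y hy
        apply iter_const A b j
        intro r hr
        rw [List.append_assoc]
        apply h
        rw [List.length_append, hy] at hr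
        rw [List.length_append, hy, hr]
        obtain ⟨d, hd⟩ : ∃ d, 2 ^ j = d + 1 := ⟨2 ^ j - 1, by
          have := Nat.one_le_two_pow (n := j); omega⟩
        rw [pow_succ, hd]
        have : (d + 1) * 2 - 1 = 2 * d + 1 := by omega
        rw [this, Nat.add_sub_cancel]
        ring
      rw [Function.iterate_succ_apply']
      have h2 : decide ((j + 1) % 2 = 1) = !(decide (j % 2 = 1)) := by
        by_cases hj : j % 2 = 1
        · have : ¬ (j + 1) % 2 = 1 := by omega
          simp [hj, this]
        · have : (j + 1) % 2 = 1 := by omega
          simp [hj, this]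
      rw [h2, Bool.eq_iff_iff, EE_true]
      cases hv : xor b (decide (j % 2 = 1))
      · have : xor b (!(decide (j % 2 = 1))) = true := by
          rw [Bool.xor_not, hv]; rfl
        rw [this]
        refine ⟨fun _ => rfl, fun _ => ⟨List.replicate c.length false, by simp, ?_⟩⟩
        rw [key _ (by simp), hv]
      · have : xor b (!(decide (j % 2 = 1))) = false := by
          rw [Bool.xor_not, hv]; rfl
        rw [this]
        refine ⟨?_, fun h => by simp at h⟩
        rintro ⟨y, hy, hy2⟩
        rw [key y hy, hv] at hy2
        simp at hy2

/-- the leaf of the canonical tree with name `z` at `r`, where `L` is the length of the code -/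
noncomputable def lf (P : Par) (i : NIx) (X : Lang) (z : Str) (L : ℕ) (r : Str) : Bool :=
  match arg P z with
  | some z' => J0 (ZZ i X) (z' ++ tru P.h L z'.length r)
  | none => decide (P.h % 2 = 1)

/-- the value of the canonical tree with name `z` -/
noncomputable def tgt (P : Par) (i : NIx) (X : Lang) (z : Str) : Bool :=
  match arg P z with
  | some z' => cnt P i X z'
  | none => false

theorem length_le_code (j B : ℕ) (z : Str) : z.length ≤ (code j B z).length := by
  rw [code_length]; omega

theorem mul_pow_sub (L h : ℕ) {r : ℕ} (hr : L + r = L * 2 ^ h) : r = (2 ^ h - 1) * L := by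
  rw [Nat.sub_mul, one_mul, mul_comm (2 ^ h) L]
  omega

theorem cd_canonical (P : Par) (i : NIx) (j B : ℕ) (X : Lang) (z : Str)
    (h : ∀ r : Str, (code j B z ++ r).length = (code j B z).length * 2 ^ P.h →
      X (code j B z ++ r) = lf P i X z (code j B z).length r) :
    cd P j B X z = tgt P i X z := by
  have hr : ∀ r : Str, r.length = (2 ^ P.h - 1) * (code j B z).length →
      X (code j B z ++ r) = lf P i X z (code j B z).length r := by
    intro r hr
    apply h
    rw [List.length_append, hr, Nat.sub_mul, one_mul, mul_comm (2 ^ P.h)]
    have : (code j B z).length * 1 ≤ (code j B z).length * 2 ^ P.h :=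
      Nat.mul_le_mul_left _ Nat.one_le_two_pow
    omega
  unfold cd tgt
  cases ha : arg P z with
  | none =>
      simp only
      unfold QQ
      rw [iter_const X (decide (P.h % 2 = 1)) P.h (code j B z) (by
        intro r hr'
        rw [hr r hr', lf, ha])]
      simp
  | some z' =>
      simp only
      unfold QQ cnt J
      apply iter_tru
      · exact (arg_length ha).trans (length_le_code j B z)
      · intro r hr'
        rw [hr r hr', lf, ha]

theorem val_of_cd {P : Par} {i : NIx} {j B : ℕ} {X : Lang} {z : Str}
    (h : ∀ z' : Str, (z' = z ∨ z' = false :: z ∨ z' = true :: z) → z'.length = (nm P z).length →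
      cd P j B X z' = tgt P i X z') : val P j B X z = cnt P i X z := by
  unfold val
  unfold nm at h
  split_ifs with hd
  · rw [if_pos hd] at h
    rw [h (false :: z) (by simp) (by simp), h (true :: z) (by simp) (by simp)]
    simp [tgt, arg, hd]
  · rw [if_neg hd] at h
    rw [h z (by simp) rfl]
    unfold tgt arg
    rw [if_neg hd]

/-! ### conditions -/

/-- Conditions: the oracle is frozen below `N` (with values `σ`), the tables are given by `τ`, and
`E` lists the columns (`false`) and the hidden columns (`true`). -/
structure QC where
  N : ℕ
  σ : Lang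
  τ : Lang
  E : ℕ → Option (Bool × NIx × ℕ)

/-- string of a column -/
def isP (q : QC) (v : Str) : Prop := ∃ j i B x, q.E j = some (false, i, B) ∧ v = code j B x

/-- leaf of a hidden code -/
def isH (P : Par) (q : QC) (v : Str) : Prop := ∃ j i B z r, q.E j = some (true, i, B) ∧
  v = code j B z ++ r ∧ v.length = (code j B z).length * 2 ^ P.h

/-- the region of the witness -/
def isW (v : Str) : Prop := ∃ u, v = false :: true :: u

/-- length of the leaves of the code of `z` -/
def clen (P : Par) (j B : ℕ) (z : Str) : ℕ := (code j B (nm P z)).length * 2 ^ P.h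

/-- the oracle obeys the condition -/
structure Mem (P : Par) (q : QC) (X : Lang) : Prop where
  low : ∀ v : Str, v.length < q.N → X v = q.σ v
  tab : ∀ v : Str, q.N ≤ v.length → isTab v → X v = q.τ v
  col : ∀ j i B x, q.E j = some (false, i, B) → q.N ≤ (code j B x).length →
    X (code j B x) = nEval i X x
  hid : ∀ j i B z, q.E j = some (true, i, B) → q.N ≤ clen P j B z →
    val P j B X z = cnt P i X z

/-- the literals needed for the content at `z` only depend on strings much shorter than the
code -/
def GoodHid (P : Par) (i : NIx) (B : ℕ) : Prop := ∀ (z u : Str) (O O' : Lang),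
  u.length ≤ 2 ^ P.h * z.length + 1 →
  (∀ v : Str, v.length ^ 2 ≤ (z.length + 2) ^ (2 ^ B) → O v = O' v) →
  join O (nEval i O) u = join O' (nEval i O') u

structure WF (P : Par) (q : QC) : Prop where
  goodP : ∀ j i B, q.E j = some (false, i, B) → GoodCol i B
  goodH : ∀ j i B, q.E j = some (true, i, B) → GoodHid P i B
  fin : ∀ j, q.N + 2 ≤ j → q.E j = none
  odd : ∀ j c, q.E j = some c → j % 2 = 1

theorem exists_goodHid (P : Par) (i : NIx) : ∃ B, GoodHid P i B := by
  obtain ⟨b, hb⟩ := nEval_congr i
  obtain ⟨B, hB⟩ := poly_le ((Polynomial.C (2 ^ P.h) * Polynomial.X + 3) ^ (b + 1) *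
    (Polynomial.C (2 ^ P.h) * Polynomial.X + 3) ^ (b + 1))
  refine ⟨B, fun z u O O' hu h => ?_⟩
  have h1 := hB (z.length + 2) (by omega)
  simp only [Polynomial.eval_add, Polynomial.eval_mul, Polynomial.eval_pow,
    Polynomial.eval_X, Polynomial.eval_C, Polynomial.eval_ofNat] at h1
  have h2 : (z.length + 2) ^ B ≤ (z.length + 2) ^ (2 ^ B) :=
    Nat.pow_le_pow_right (by omega) (Nat.lt_two_pow_self).le
  set m := 2 ^ P.h * (z.length + 2) + 3 with hm
  have hum : u.length + 2 ≤ m := by
    have : 2 ^ P.h * z.length ≤ 2 ^ P.h * (z.length + 2) := Nat.mul_le_mul_left _ (by omega)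
    omega
  have key : ∀ v : Str, v.length ≤ m ^ (b + 1) → O v = O' v := by
    intro v hv
    apply h
    calc v.length ^ 2 ≤ (m ^ (b + 1)) ^ 2 := Nat.pow_le_pow_left hv 2
      _ = m ^ (b + 1) * m ^ (b + 1) := by ring
      _ ≤ _ := h1.trans h2
  rcases u with _ | ⟨_ | _, u⟩
  · rfl
  · show O u = O' u
    apply key
    have h3 : m ^ 1 ≤ m ^ (b + 1) := Nat.pow_le_pow_right (by omega) (by omega)
    rw [pow_one] at h3
    simp only [List.length_cons] at hum
    omega
  · show nEval i O u = nEval i O' u
    apply hb
    intro v hv
    apply key
    refine hv.trans ?_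
    simp only [List.length_cons] at hum
    calc (u.length + 2) ^ b ≤ m ^ b := Nat.pow_le_pow_left (by omega) b
      _ ≤ m ^ (b + 1) := Nat.pow_le_pow_right (by omega) (by omega)

theorem interp_congr2 (Z Z' : Lang) : ∀ (r u : Str),
    (∀ v : Str, v.length ≤ r.length + u.length → Z (true :: v) = Z' (true :: v)) →
    interp Z r u = interp Z' r u
  | true :: false :: b :: r, u, h => by
      rw [interp, interp]
      apply interp_congr2 Z Z' r (b :: u)
      intro v hv
      apply h
      simp only [List.length_cons] at hv ⊢
      omega
  | true :: true :: b :: r, u, h => by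
      rw [interp, interp, h u (by simp only [List.length_cons]; omega),
        interp_congr2 Z Z' r [] (by
          intro v hv
          apply h
          simp only [List.length_cons, List.length_nil] at hv ⊢
          omega)]
  | [], u, _ => by simp [interp]
  | false :: _, u, _ => by simp [interp]
  | [true], u, _ => by simp [interp]
  | [true, true], u, _ => by simp [interp]
  | [true, false], u, _ => by simp [interp]

/-- `J0` of the oracle of the content -/
theorem J0_ZZ_congr {i : NIx} {X X' : Lang} {w : Str}
    (h : ∀ u : Str, u.length ≤ w.length + 1 → join X (nEval i X) u = join X' (nEval i X') u) :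
    J0 (ZZ i X) w = J0 (ZZ i X') w := by
  unfold J0
  have h1 : ZZ i X (false :: w) = ZZ i X' (false :: w) := h (false :: w) (by simp)
  rw [h1, interp_congr2 (ZZ i X) (ZZ i X') w.reverse [] (by
    intro v hv
    simp only [List.length_reverse, List.length_nil] at hv
    exact h v (by omega))]

theorem pow_code_le {j B : ℕ} {z : Str} {v : ℕ} (h : v ^ 2 ≤ (z.length + 2) ^ (2 ^ B)) :
    v < (code j B z).length := by
  rw [code_length]
  have h1 : v ≤ v ^ 2 := Nat.le_self_pow (by norm_num) _
  omega

theorem lf_congr {P : Par} {i : NIx} {B : ℕ} (hB : GoodHid P i B) {j : ℕ} {z r : Str}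
    (hr : (code j B z ++ r).length = (code j B z).length * 2 ^ P.h) {X X' : Lang}
    (h : ∀ v : Str, v.length < (code j B z).length → X v = X' v) :
    lf P i X z (code j B z).length r = lf P i X' z (code j B z).length r := by
  unfold lf
  cases ha : arg P z with
  | none => rfl
  | some z' =>
      simp only
      have hz := arg_length ha
      apply J0_ZZ_congr
      intro u hu
      apply hB z
      · rw [List.length_append, tru_length P.h _ _ r (hz.trans (length_le_code j B z)) (by
          apply mul_pow_sub
          rw [← List.length_append]; exact hr)] at hu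
        have h1 : z'.length + (2 ^ P.h - 1) * z'.length = 2 ^ P.h * z'.length := by
          have := Nat.one_le_two_pow (n := P.h)
          rw [Nat.sub_mul, one_mul]
          have : 1 * z'.length ≤ 2 ^ P.h * z'.length := Nat.mul_le_mul_right _ this
          omega
        have h2 : 2 ^ P.h * z'.length ≤ 2 ^ P.h * z.length := Nat.mul_le_mul_left _ hz
        omega
      · intro v hv
        exact h v (pow_code_le hv)

/-- the content only depends on strings much shorter than the code -/
theorem cnt_congr {P : Par} {i : NIx} {B : ℕ} (hB : GoodHid P i B) {z : Str} {X X' : Lang}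
    (h : ∀ v : Str, v.length ^ 2 ≤ (z.length + 2) ^ (2 ^ B) → X v = X' v) :
    cnt P i X z = cnt P i X' z := by
  unfold cnt J
  apply iter_tru
  · exact le_rfl
  · intro r hr
    have hlen : (tru P.h z.length z.length r).length = (2 ^ P.h - 1) * z.length :=
      tru_length _ _ _ r le_rfl hr
    have e : ∀ (j L : ℕ) (r : Str), r.length = (2 ^ j - 1) * L → tru j L L r = r := by
      intro j
      induction j with
      | zero =>
          intro L r hr
          have : r = [] := by
            apply List.eq_nil_of_length_eq_zero
            simpa using hr
          simp [tru, this]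
      | succ j ih =>
          intro L r hr
          rw [tru, ih (2 * L) (r.drop L) (by
            rw [List.length_drop, hr]
            obtain ⟨d, hd⟩ : ∃ d, 2 ^ j = d + 1 := ⟨2 ^ j - 1, by
              have := Nat.one_le_two_pow (n := j); omega⟩
            rw [pow_succ, hd]
            have : (d + 1) * 2 - 1 = 2 * d + 1 := by omega
            rw [this, Nat.add_sub_cancel]
            have : (2 * d + 1) * L = d * (2 * L) + L := by ring
            omega), List.take_append_drop]
    rw [e _ _ _ hr]
    apply J0_ZZ_congr
    intro u hu
    apply hB z _ _ _ _ h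
    rw [List.length_append, hr] at hu
    have h1 : z.length + (2 ^ P.h - 1) * z.length = 2 ^ P.h * z.length := by
      have := Nat.one_le_two_pow (n := P.h)
      rw [Nat.sub_mul, one_mul]
      have : 1 * z.length ≤ 2 ^ P.h * z.length := Nat.mul_le_mul_right _ this
      omega
    omega

end Pool.Agent.Lib.Pa76659O
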