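import Pool.Agent.Lib.Pa76659O.Wit

/-!
The computations of the polynomial hierarchy on the canonical members are small circuits over the
free strings; this is preserved when a column or a hidden column is added for a low set.
-/

set_option maxHeartbeats 4000000

namespace Pool.Agent.Lib.Pa76659O

open Pool.Agent.Lib.Pa76659

/-- free strings, canonical filling -/
def FreeC (P : Par) (q : QC) (v : Str) : Prop :=
  ¬ isTab v ∧ ¬ isP q v ∧ ¬ isH P q v ∧ ¬ isW v

open Classical in
/-- `Y0` below `n`, `Y` above, no witnesses above -/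
noncomputable def mixW (n : ℕ) (Y0 Y : Lang) : Lang := mix n Y0 (fun v => if isW v then true else Y v)

/-- canonical from `n` on -/
structure InF (P : Par) (q : QC) (n : ℕ) (Y0 X : Lang) : Prop where
  lt : ∀ v : Str, v.length < n → X v = Y0 v
  tab : ∀ v : Str, n ≤ v.length → isTab v → X v = q.τ v
  col : ∀ j i B x, q.E j = some (false, i, B) → n ≤ (code j B x).length →
    X (code j B x) = nEval i X x
  leaf : ∀ j i B z r, q.E j = some (true, i, B) → n ≤ (code j B z ++ r).length →
    (code j B z ++ r).length = (code j B z).length * 2 ^ P.h →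
    X (code j B z ++ r) = lf P i X z (code j B z).length r
  wit : ∀ v : Str, n ≤ v.length → isW v → X v = true

theorem isW_not {P : Par} {q : QC} {v : Str} (h : isW v) : ¬ isTab v ∧ ¬ isP q v ∧ ¬ isH P q v := by
  obtain ⟨u, rfl⟩ := h
  refine ⟨false_not_tab _, ?_, ?_⟩
  · rintro ⟨j, i, B, x, _, h⟩
    simp [code] at h
  · rintro ⟨j, i, B, z, r, _, h, _⟩
    simp [code] at h

theorem ff_free (P : Par) (q : QC) (v : Str) : FreeC P q (false :: false :: v) := by
  refine ⟨false_not_tab _, ?_, ?_, ?_⟩
  · rintro ⟨j, i, B, x, _, h⟩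
    simp [code] at h
  · rintro ⟨j, i, B, z, r, _, h, _⟩
    simp [code] at h
  · rintro ⟨u, h⟩
    simp at h

section

variable {P : Par} {q : QC}

theorem InF_Phi (hq : WF P q) {n : ℕ} (hN : q.N ≤ n) {Y0 : Lang} (hY0 : Mem P q Y0) (Y : Lang) :
    InF P q n Y0 (Phi P q n (mixW n Y0 Y)) := by
  refine ⟨?_, ?_, ?_, ?_, ?_⟩
  · exact Phi_mix_lt hq hY0 le_rfl _
  · intro v hv ht
    rw [Phi_eq hq, rule_tab (hN.trans hv) ht]; rfl
  · intro j i B x hE hv
    rw [Phi_eq hq, rule_col hq hE (hN.trans hv)]; rfl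
  · intro j i B z r hE hv hl
    rw [Phi_eq hq, rule_leaf hq hE (hN.trans hv) hv hl]; rfl
  · intro v hv hw
    obtain ⟨h1, h2, h3⟩ := isW_not (P := P) (q := q) hw
    rw [Phi_none hq _ (hN.trans hv) h1 h2 (fun h => absurd h h3)]
    unfold mixW
    rw [mix_ge hv, if_pos hw]

theorem InF.rule (hq : WF P q) {n : ℕ} (hN : q.N ≤ n) {Y0 X : Lang} (hY0 : Mem P q Y0)
    (h : InF P q n Y0 X) (v : Str) : X v = (rule P q n X v).getD (X v) := by
  by_cases hv : v.length < n
  · by_cases h1 : v.length < q.N
    · rw [rule_low h1, h.lt v hv, hY0.low v h1]; rfl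
    have h1 : q.N ≤ v.length := by omega
    by_cases ht : isTab v
    · rw [rule_tab h1 ht, h.lt v hv, hY0.tab v h1 ht]; rfl
    by_cases hp : isP q v
    · obtain ⟨j, i, B, x, hE, rfl⟩ := hp
      rw [rule_col hq hE h1, h.lt _ hv, hY0.col j i B x hE h1]
      show _ = nEval i X x
      apply nEval_col_congr (hq.goodP j i B hE) (j := j)
      intro u hu
      exact (h.lt u (by omega)).symm
    · rw [rule_none h1 ht hp (fun _ => hv)]; rfl
  · have hv : n ≤ v.length := by omega
    have h1 : q.N ≤ v.length := by omega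
    by_cases ht : isTab v
    · rw [rule_tab h1 ht, h.tab v hv ht]; rfl
    by_cases hp : isP q v
    · obtain ⟨j, i, B, x, hE, rfl⟩ := hp
      rw [rule_col hq hE h1, h.col j i B x hE hv]; rfl
    by_cases hh : isH P q v
    · obtain ⟨j, i, B, z, r, hE, rfl, hl⟩ := hh
      rw [rule_leaf hq hE h1 hv hl, h.leaf j i B z r hE hv hl]; rfl
    · rw [rule_none h1 ht hp (fun h => absurd h hh)]; rfl

theorem InF.mem (hq : WF P q) {n : ℕ} (hN : q.N ≤ n) {Y0 X : Lang} (hY0 : Mem P q Y0)
    (h : InF P q n Y0 X) : Mem P q X := by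
  apply mem_of_rule hq (h.rule hq hN hY0)
  intro j i B z hE hz hc
  rw [val_congr (X' := Y0) (fun v hv => h.lt v (by omega)), hY0.hid j i B z hE hz]
  apply cnt_congr' (hq.goodH j i B hE) (j := j)
  intro v hv
  exact (h.lt v (by omega)).symm

theorem InF.eq_Phi (hq : WF P q) {n : ℕ} (hN : q.N ≤ n) {Y0 X : Lang} (hY0 : Mem P q Y0)
    (h : InF P q n Y0 X) (Y : Lang) (m : ℕ)
    (hY : ∀ v : Str, n ≤ v.length → v.length ≤ m → FreeC P q v → Y v = X v) :
    ∀ v : Str, v.length ≤ m → Phi P q n (mixW n Y0 Y) v = X v := by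
  apply Phi_unique hq m (h.rule hq hN hY0)
  intro v hv hr
  unfold mixW
  by_cases h1 : v.length < n
  · rw [mix_lt h1, h.lt v h1]
  have h1 : n ≤ v.length := by omega
  have h2 : q.N ≤ v.length := by omega
  rw [mix_ge h1]
  by_cases hw : isW v
  · rw [if_pos hw, h.wit v h1 hw]
  · rw [if_neg hw]
    apply hY v h1 hv
    refine ⟨?_, ?_, ?_, hw⟩
    · intro ht
      rw [rule_tab h2 ht] at hr
      simp at hr
    · rintro ⟨j, i, B, x, hE, rfl⟩
      rw [rule_col hq hE h2] at hr
      simp at hr
    · rintro ⟨j, i, B, z, r, hE, rfl, hl⟩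
      rw [rule_leaf hq hE h2 h1 hl] at hr
      simp at hr

theorem InF.addc {j : ℕ} {b : Bool} {i : NIx} {B : ℕ} (hj : q.E j = none) {n : ℕ} {Y0 X : Lang}
    (h : InF P (addc q j b i B) n Y0 X) : InF P q n Y0 X :=
  ⟨h.lt, h.tab, fun j' i' B' x hE => h.col j' i' B' x (addc_E_of hj hE),
    fun j' i' B' z r hE => h.leaf j' i' B' z r (addc_E_of hj hE), h.wit⟩

end

/-- The computations of the polynomial hierarchy are small circuits over the free strings. -/
def GoodC (P : Par) (K : ℕ) (q : QC) : Prop := ∀ (p : PIx) (l : List NIx) (a : ℕ), ∃ b n0 : ℕ,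
  ∀ n : ℕ, n0 ≤ n → ∀ Y0 : Lang, Mem P q Y0 → ∀ z : Str, z.length ≤ n ^ a →
    IsC {v : Str | n ≤ v.length ∧ v.length ≤ n ^ b ∧ FreeC P q v} (n ^ b) (n ^ b)
      (max l.length K) (fun Y => sEval p l (Phi P q n (mixW n Y0 Y)) z)

theorem GoodC.mono {P : Par} {K K' : ℕ} (h : K ≤ K') {q : QC} (hg : GoodC P K q) :
    GoodC P K' q := by
  intro p l a
  obtain ⟨b, n0, hb⟩ := hg p l a
  exact ⟨b, n0, fun n hn Y0 hY0 z hz => (hb n hn Y0 hY0 z hz).lift_le (max_le_max le_rfl h)⟩

theorem goodC_freeze {P : Par} {K : ℕ} {q : QC} (hq : WF P q) (hg : GoodC P K q) {X : Lang}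
    (hX : Mem P q X) {M : ℕ} (hM : q.N ≤ M) : GoodC P K (freeze q X M) := by
  intro p l a
  obtain ⟨b, n0, h⟩ := hg p l a
  refine ⟨b, max n0 M, fun n hn Y0 hY0 z hz => ?_⟩
  have hY0' : Mem P q Y0 := freeze_mem hq hX hM hY0
  have h1 := h n (le_trans (le_max_left _ _) hn) Y0 hY0' z hz
  have hnM : M ≤ n := le_trans (le_max_right _ _) hn
  refine IsC.congr h1 (fun Y => ?_)
  congr 1
  have hq' := freeze_wf hq X hM
  have hin := InF_Phi hq' (show (freeze q X M).N ≤ n from hnM) hY0 Y
  have hin' : InF P q n Y0 (Phi P (freeze q X M) n (mixW n Y0 Y)) :=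
    ⟨hin.lt, hin.tab, hin.col, hin.leaf, hin.wit⟩
  funext v
  refine hin'.eq_Phi hq (hM.trans hnM) hY0' Y v.length ?_ v le_rfl
  intro u hu _ hf
  rw [Phi_none hq' _ (show M ≤ u.length by omega) hf.1 hf.2.1 (fun h => absurd h hf.2.2.1)]
  unfold mixW
  rw [mix_ge hu, if_neg hf.2.2.2]

/-- no columns -/
theorem goodC_init (P : Par) (K : ℕ) {q : QC} (hq : WF P q) (hE : ∀ j, q.E j = none) :
    GoodC P K q := by
  classical
  intro p l a
  obtain ⟨b, hb⟩ := sEval_isC p l
  refine ⟨(a + 1) * b, max 2 q.N, fun n hn Y0 hY0 z hz => ?_⟩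
  have hn2 : 2 ≤ n := le_trans (le_max_left _ _) hn
  have hnN : q.N ≤ n := le_trans (le_max_right _ _) hn
  have h0 : 2 ≤ n ^ (a + 1) := by
    calc 2 ≤ n := hn2
      _ = n ^ 1 := by ring
      _ ≤ n ^ (a + 1) := Nat.pow_le_pow_right (by omega) (by omega)
  have h1 := hb (n ^ (a + 1)) h0 z
    (hz.trans (Nat.pow_le_pow_right (by omega) (by omega)))
  rw [← pow_mul] at h1
  have hp : ∀ v, ¬ isP q v := by
    rintro v ⟨j, i, B, x, h, _⟩
    rw [hE] at h
    simp at h
  have hh : ∀ v, ¬ isH P q v := by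
    rintro v ⟨j, i, B, z, r, h, _⟩
    rw [hE] at h
    simp at h
  have h2 := (h1.lift_le (le_max_left l.length K)).rename
    (S' := {v : Str | n ≤ v.length ∧ v.length ≤ n ^ ((a + 1) * b) ∧ FreeC P q v})
    (fun v => if isTab v then Sum.inr (if v.length < n then Y0 v else q.τ v) else
      if v.length < n then Sum.inr (Y0 v) else if isW v then Sum.inr true else Sum.inl v) (by
      intro v hv v' hvv'
      split_ifs at hvv' with h3 h4 h5
      simp only [Sum.inl.injEq] at hvv'
      subst hvv'
      exact ⟨by omega, hv, h3, hp _, hh _, h5⟩)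
  refine h2.congr (fun Y => ?_)
  congr 1
  have hin := InF_Phi hq hnN hY0 Y
  funext v
  by_cases ht : isTab v
  · rw [if_pos ht]
    by_cases hv : v.length < n
    · rw [hin.lt v hv, if_pos hv]; rfl
    · rw [hin.tab v (by omega) ht, if_neg hv]; rfl
  · rw [if_neg ht]
    by_cases hv : v.length < n
    · rw [hin.lt v hv, if_pos hv]; rfl
    · rw [if_neg hv]
      by_cases hw : isW v
      · rw [if_pos hw, hin.wit v (by omega) hw]; rfl
      · rw [if_neg hw, Phi_none hq _ (by omega) ht (hp v) (fun h => absurd h (hh v))]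
        unfold mixW
        rw [mix_ge (by omega), if_neg hw]; rfl

/-! ### literals -/

/-- string of the new column -/
def isC (P : Par) (j : ℕ) (b : Bool) (B : ℕ) (v : Str) : Prop :=
  if b = true then ∃ z r, v = code j B z ++ r ∧ v.length = (code j B z).length * 2 ^ P.h
  else ∃ x, v = code j B x

/-- strings which may still be asked -/
def SSC (P : Par) (q : QC) (j : ℕ) (b : Bool) (B n L c : ℕ) : Set Str :=
  {v | n ≤ v.length ∧ v.length ≤ n ^ c ∧ FreeC P q v ∧ (isC P j b B v → v.length ≤ L)}

theorem SSC_mono {P : Par} {q : QC} {j : ℕ} {b : Bool} {B n L L' c c' : ℕ} (hn : 1 ≤ n)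
    (hL : L ≤ L') (hc : c ≤ c') : SSC P q j b B n L c ⊆ SSC P q j b B n L' c' :=
  fun _ ⟨h1, h2, h3, h4⟩ =>
    ⟨h1, h2.trans (Nat.pow_le_pow_right hn hc), h3, fun h => (h4 h).trans hL⟩

/-- the literal only depends on the strings of length at most `L` -/
def LitOK (i : NIx) (L : ℕ) (u : Str) : Prop := ∀ O O' : Lang,
  (∀ v : Str, v.length ≤ L → O v = O' v) → join O (nEval i O) u = join O' (nEval i O') u

/-- strings and literals -/
def VV (P : Par) (q : QC) (j : ℕ) (b : Bool) (i : NIx) (B n L c : ℕ) : Set (Str ⊕ Str) :=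
  {w | (∀ v, w = Sum.inl v → v ∈ SSC P q j b B n L c) ∧
    ∀ u, w = Sum.inr u → LitOK i L u ∧ u.length ≤ n ^ c}

/-- literals can be eliminated -/
def LitE (P : Par) (K : ℕ) (q : QC) (j : ℕ) (b : Bool) (i : NIx) (B : ℕ) : Prop :=
  ∀ c : ℕ, ∃ c' n0 : ℕ, ∀ n : ℕ, n0 ≤ n → ∀ L' : ℕ, L' ≤ n ^ c → ∀ Y0 : Lang, Mem P q Y0 →
    ∀ κ : ℕ, K ≤ κ → ∀ C : (Str ⊕ Str → Bool) → Bool,
    IsC (VV P q j b i B n L' c) (n ^ c) (n ^ c) κ C →
    ∃ C' : (Str → Bool) → Bool, IsC (SSC P q j b B n L' c') (n ^ c') (n ^ c') κ C' ∧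
      ∀ X, InF P q n Y0 X → C' X = C (Sum.elim X (join X (nEval i X)))

/-- a variable -/
def vr {V : Type} (v : V) : DT V Bool := DT.node v (DT.leaf false) (DT.leaf true)

theorem vr_eval {V : Type} (x : V → Bool) (v : V) : (vr v).eval x = x v := by
  unfold vr DT.eval
  cases x v <;> simp [DT.eval]

theorem vr_depth {V : Type} (v : V) : (vr v).depth = 1 := by simp [vr, DT.depth]

theorem vr_qin {V : Type} {S : Set V} {v : V} (h : v ∈ S) : (vr v).QIn S := ⟨h, trivial, trivial⟩

theorem litE_of_low {P : Par} {K : ℕ} {q : QC} (hq : WF P q) (hg : GoodC P (K + 1) q) {i : NIx}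
    {p0 : PIx} {l0 : List NIx} (hl : l0.length = K + 1) (hlow : LOW P (K + 1) q i p0 l0)
    (j : ℕ) (b : Bool) (B : ℕ) : LitE P (K + 1) q j b i B := by
  classical
  intro c
  obtain ⟨e, he⟩ := poly_le (Polynomial.X ^ c + Polynomial.X ^ c + 1 +
    Polynomial.X ^ c * (3 * Polynomial.X ^ c + 3))
  obtain ⟨b1, n1, h1⟩ := hg p0 l0 e
  refine ⟨b1 + c, max (max n1 2) q.N, fun n hn L' hL' Y0 hY0 κ hκ => ?_⟩
  have hn2 : 2 ≤ n := le_trans (le_trans (le_max_right _ _) (le_max_left _ _)) hn
  have hn1 : n1 ≤ n := le_trans (le_trans (le_max_left _ _) (le_max_left _ _)) hn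
  have hnN : q.N ≤ n := le_trans (le_max_right _ _) hn
  have hbpos : 1 ≤ n ^ c := Nat.one_le_pow _ _ (by omega)
  have hb1 : n ^ b1 ≤ n ^ (b1 + c) := Nat.pow_le_pow_right (by omega) (by omega)
  induction κ, hκ using Nat.le_induction with
  | base =>
      intro C hC
      have he' := he n hn2
      simp only [Polynomial.eval_add, Polynomial.eval_mul, Polynomial.eval_pow,
        Polynomial.eval_X, Polynomial.eval_ofNat, Polynomial.eval_one] at he'
      set s : Str := List.replicate (n ^ e) false with hs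
      have hsl : s.length = n ^ e := by simp [hs]
      let cx : Str ⊕ Str → Option Str := Sum.elim (fun _ => none) some
      obtain ⟨Tab, ht1, ht2, ht3⟩ := univG cx (VV P q j b i B n L' c) (n ^ c) (n ^ c) (n ^ c)
        (by
          rintro (v | u) hv x hx
          · simp [cx] at hx
          · simp only [cx, Sum.elim_inr, Option.some.injEq] at hx
            rw [← hx]
            exact (hv.2 u rfl).2) K C hC s (by rw [hsl]; exact he')
      have h2 := h1 n hn1 Y0 hY0 s (by rw [hsl])
      rw [hl, max_self] at h2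
      -- the substitution
      let isT : Str → Prop := fun v => ∃ r : Str, v = s ++ r ∧
        r.length + s.length = 2 ^ (K + 1) * s.length
      let toS : Str ⊕ Str → DT Str Bool := Sum.elim vr (fun _ => DT.leaf false)
      let sub : Str → DT Str Bool := fun v =>
        if v.length ≤ L' then vr v
        else if isT v then (Tab v).subst toS else DT.leaf false
      have hTd : ∀ v, ((Tab v).subst toS).depth ≤ n ^ c := by
        intro v
        have h4 := DT.depth_subst toS _ 1 (by
          rintro (v | u) _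
          · exact (vr_depth v).le
          · simp [toS, DT.depth]) (Tab v) (ht2 v)
        rw [mul_one] at h4
        exact h4.trans (ht1 v)
      have hTq : ∀ v, ((Tab v).subst toS).QIn (SSC P q j b B n L' c) := by
        intro v
        refine DT.QIn.subst ?_ (ht2 v)
        rintro (v | u) ⟨hv, hc⟩
        · exact vr_qin (hv.1 v rfl)
        · trivial
      have h3 := h2.subst (S' := SSC P q j b B n L' (b1 + c)) (d := n ^ c) sub (by
          intro v _
          simp only [sub]
          split_ifs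
          · rw [vr_depth]; exact hbpos
          · exact hTd v
          · simp [DT.depth]) (by
          intro v hv
          simp only [sub]
          split_ifs with c1 c2
          · exact vr_qin ⟨hv.1, hv.2.1.trans hb1, hv.2.2, fun _ => c1⟩
          · exact (hTq v).mono (SSC_mono (by omega) le_rfl (by omega))
          · trivial)
      refine ⟨_, h3.mono (subset_refl _) hb1 (by rw [← pow_add]), ?_⟩
      intro X hX
      set Zx : Lang := fun v => (sub v).eval X with hZx
      set X' := Phi P q n (mixW n Y0 Zx) with hX'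
      have hX'in : InF P q n Y0 X' := InF_Phi hq hnN hY0 _
      have hX'm : Mem P q X' := hX'in.mem hq hnN hY0
      have hsL : L' < s.length := by
        rw [hsl]; omega
      have hspos : 2 ≤ s.length := by
        rw [hsl]; omega
      have hsn : n ≤ 2 ^ (K + 1) * s.length := by
        have h5 : n ^ 1 ≤ n ^ e := by
          apply Nat.pow_le_pow_right (by omega)
          by_contra h6
          have h7 : e = 0 := by omega
          rw [h7] at he'
          simp only [pow_zero] at he'
          omega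
        rw [pow_one, ← hsl] at h5
        have h6 : 1 * s.length ≤ 2 ^ (K + 1) * s.length :=
          Nat.mul_le_mul_right _ Nat.one_le_two_pow
        omega
      have hXX : ∀ v : Str, v.length ≤ L' → X' v = X v := by
        apply hX.eq_Phi hq hnN hY0
        intro u _ hu _
        simp only [hZx, sub, hu, if_true]
        exact vr_eval X u
      -- apply lowness
      have h5 := hlow X' hX'm s
      show sEval p0 l0 X' s = C _
      rw [← h5]
      apply ht3
      · intro r hr
        show X' (s ++ r) = _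
        have hlen : n ≤ (s ++ r).length := by
          rw [List.length_append]; omega
        have hfree : FreeC P q (s ++ r) := by
          have : s ++ r = false :: false :: (List.replicate (n ^ e - 2) false ++ r) := by
            rw [hs]
            obtain ⟨d, hd⟩ : ∃ d, n ^ e = d + 2 := ⟨n ^ e - 2, by omega⟩
            rw [hd, List.replicate_succ, List.replicate_succ]; simp
          rw [this]
          exact ff_free _ _ _
        rw [hX', Phi_none hq _ (hnN.trans hlen) hfree.1 hfree.2.1
          (fun h => absurd h hfree.2.2.1)]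
        unfold mixW
        rw [mix_ge hlen, if_neg hfree.2.2.2]
        simp only [hZx, sub]
        rw [if_neg (by rw [List.length_append]; omega), if_pos ⟨r, rfl, hr⟩, DT.eval_subst]
        apply DT.eval_congr _ (ht2 _)
        rintro (v | u) ⟨_, hc⟩
        · exact vr_eval X v
        · simp [cx] at hc
      · rintro (v | u) hu x hx
        · simp [cx] at hx
        · simp only [cx, Sum.elim_inr, Option.some.injEq] at hx
          subst hx
          exact (hu.2 u rfl).1 X' X hXX
  | succ κ hκ ih =>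
      intro C ⟨g, hg1, hg2⟩
      choose g' hg'1 hg'2 using fun jj => ih (g jj) (hg1 jj)
      have hw : n ^ c ≤ n ^ (b1 + c) := Nat.pow_le_pow_right (by omega) (by omega)
      refine ⟨fun X => decide (∃ jj, g' jj X = false), ?_, ?_⟩
      · refine IsC.of_exists (ι := Fin (2 ^ (n ^ c))) ?_ g' hg'1 (fun x => by simp)
        simpa using Nat.pow_le_pow_right (by norm_num) hw
      · intro X hX
        have h3 : ∀ jj, g' jj X = g jj (Sum.elim X (join X (nEval i X))) :=
          fun jj => hg'2 jj X hX
        have h4 := hg2 (Sum.elim X (join X (nEval i X)))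
        simp only [h3]
        cases h5 : C (Sum.elim X (join X (nEval i X)))
        · rw [decide_eq_false_iff_not, ← h4, h5]; simp
        · rw [decide_eq_true_eq, ← h4, h5]

end Pool.Agent.Lib.Pa76659O
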