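import Pool.Agent.Lib.Pa76659O.Can

/-!
Adding a column or a hidden column: canonical members.
-/

set_option maxHeartbeats 4000000

namespace Pool.Agent.Lib.Pa76659O

open Pool.Agent.Lib.Pa76659

open Classical in
/-- the value of a string of the new column, as a decision tree over the literals -/
noncomputable def colT (P : Par) (j : ℕ) (b : Bool) (B : ℕ) (v : Str) : DT (Str ⊕ Str) Bool :=
  if b = true then
    if h : ∃ t : Str × Str, v = code j B t.1 ++ t.2 ∧ v.length = (code j B t.1).length * 2 ^ P.h then
      match arg P h.choose.1 with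
      | some z' => (J0T (z' ++ tru P.h (code j B h.choose.1).length z'.length h.choose.2)).subst
          (fun u => vr (Sum.inr u))
      | none => DT.leaf (decide (P.h % 2 = 1))
    else vr (Sum.inl v)
  else if h : ∃ x, v = code j B x then vr (Sum.inr (true :: h.choose)) else vr (Sum.inl v)

/-- the right constant for the column -/
def GoodB (P : Par) (b : Bool) (i : NIx) (B : ℕ) : Prop :=
  if b = true then GoodHid P i B else GoodCol i B

theorem colT_not {P : Par} {j : ℕ} {b : Bool} {B : ℕ} {v : Str} (h : ¬ isC P j b B v) :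
    colT P j b B v = vr (Sum.inl v) := by
  unfold colT
  unfold isC at h
  split_ifs at h with hb
  · rw [if_pos hb, dif_neg]
    rintro ⟨t, h1, h2⟩
    exact h ⟨t.1, t.2, h1, h2⟩
  · rw [if_neg hb, dif_neg h]

theorem tru_le {P : Par} {j B : ℕ} {z z' r : Str}
    (hl : (code j B z ++ r).length = (code j B z).length * 2 ^ P.h) (ha : arg P z = some z') :
    (z' ++ tru P.h (code j B z).length z'.length r).length ≤ 2 ^ P.h * z.length := by
  have hz := arg_length ha
  rw [List.length_append, tru_length P.h _ _ r (hz.trans (length_le_code j B z)) (by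
    apply mul_pow_sub
    rw [← List.length_append]; exact hl)]
  have h1 : z'.length + (2 ^ P.h - 1) * z'.length = 2 ^ P.h * z'.length := by
    have := Nat.one_le_two_pow (n := P.h)
    rw [Nat.sub_mul, one_mul]
    have : 1 * z'.length ≤ 2 ^ P.h * z'.length := Nat.mul_le_mul_right _ this
    omega
  have h2 : 2 ^ P.h * z'.length ≤ 2 ^ P.h * z.length := Nat.mul_le_mul_left _ hz
  omega

theorem colT_eval {P : Par} {q : QC} {j : ℕ} {b : Bool} {i : NIx} {B : ℕ} {n : ℕ} {Y0 X : Lang}
    (hX : InF P (addc q j b i B) n Y0 X) {v : Str} (hn : n ≤ v.length) :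
    (colT P j b B v).eval (Sum.elim X (join X (nEval i X))) = X v := by
  by_cases hc : isC P j b B v
  · unfold colT
    unfold isC at hc
    cases b with
    | true =>
        rw [if_pos rfl] at hc ⊢
        have h : ∃ t : Str × Str, v = code j B t.1 ++ t.2 ∧
            v.length = (code j B t.1).length * 2 ^ P.h := by
          obtain ⟨z, r, h1, h2⟩ := hc
          exact ⟨(z, r), h1, h2⟩
        rw [dif_pos h]
        obtain ⟨h1, h2⟩ := h.choose_spec
        set t := h.choose
        have h3 := hX.leaf j i B t.1 t.2 addc_E_self (by rw [← h1]; exact hn) (by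
          rw [← h1]; exact h2)
        rw [← h1] at h3
        rw [h3, lf]
        cases ha : arg P t.1 with
        | none => simp [DT.eval]
        | some z' =>
            simp only
            rw [DT.eval_subst]
            have e : (fun u => (vr (V := Str ⊕ Str) (Sum.inr u)).eval
                (Sum.elim X (join X (nEval i X)))) = join X (nEval i X) := by
              funext u
              rw [vr_eval, Sum.elim_inr]
            rw [e, J0T_eval]
    | false =>
        rw [if_neg (by simp)] at hc ⊢
        rw [dif_pos hc, vr_eval, Sum.elim_inr]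
        have h1 := hc.choose_spec
        set x := hc.choose
        rw [h1] at hn ⊢
        rw [hX.col j i B x addc_E_self hn]
        rfl
  · rw [colT_not hc, vr_eval, Sum.elim_inl]

theorem colT_depth (P : Par) (j : ℕ) (b : Bool) (B : ℕ) (v : Str) :
    (colT P j b B v).depth ≤ v.length + 2 := by
  by_cases hc : isC P j b B v
  · unfold colT
    unfold isC at hc
    cases b with
    | true =>
        rw [if_pos rfl] at hc ⊢
        have h : ∃ t : Str × Str, v = code j B t.1 ++ t.2 ∧
            v.length = (code j B t.1).length * 2 ^ P.h := by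
          obtain ⟨z, r, h1, h2⟩ := hc
          exact ⟨(z, r), h1, h2⟩
        rw [dif_pos h]
        obtain ⟨h1, h2⟩ := h.choose_spec
        set t := h.choose
        cases ha : arg P t.1 with
        | none => simp [DT.depth]
        | some z' =>
            simp only
            have h4 := DT.depth_subst (fun u => vr (V := Str ⊕ Str) (Sum.inr u)) _ 1
              (fun u _ => (vr_depth _).le)
              (J0T (z' ++ tru P.h (code j B t.1).length z'.length t.2)) (J0T_qin _)
            have h5 := J0T_depth (z' ++ tru P.h (code j B t.1).length z'.length t.2)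
            have h6 := tru_le (r := t.2) (by rw [← h1]; exact h2) ha
            have h7 : 2 ^ P.h * t.1.length ≤ v.length := by
              rw [h2, mul_comm]
              exact Nat.mul_le_mul_right _ (length_le_code j B t.1)
            omega
    | false =>
        rw [if_neg (by simp)] at hc ⊢
        rw [dif_pos hc, vr_depth]; omega
  · rw [colT_not hc, vr_depth]; omega

theorem colT_qin {P : Par} {q : QC} {j : ℕ} {b : Bool} {i : NIx} {B : ℕ} (hB : GoodB P b i B)
    {n L L' c c' : ℕ} (hn : 2 ≤ n) (hL : ∀ u : ℕ, u ^ 2 ≤ L → u ≤ L') (hc : c + 1 ≤ c') {v : Str}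
    (hv : v ∈ SSC P q j b B n L c) :
    (if v.length ≤ L' then vr (Sum.inl v) else colT P j b B v).QIn (VV P q j b i B n L' c') := by
  have hnc : n ^ c + 1 ≤ n ^ c' := by
    have h1 : n ^ (c + 1) ≤ n ^ c' := Nat.pow_le_pow_right (by omega) hc
    have h2 : 1 ≤ n ^ c := Nat.one_le_pow _ _ (by omega)
    rw [pow_succ] at h1
    nlinarith
  have hvc : v.length ≤ n ^ c' := by
    have := hv.2.1
    omega
  have hinl : (v.length ≤ L' ∨ ¬ isC P j b B v) →
      (vr (V := Str ⊕ Str) (Sum.inl v)).QIn (VV P q j b i B n L' c') := by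
    intro h
    apply vr_qin
    refine ⟨?_, fun u hu => by simp at hu⟩
    intro w hw
    simp only [Sum.inl.injEq] at hw
    subst hw
    refine ⟨hv.1, hvc, hv.2.2.1, fun h2 => ?_⟩
    rcases h with h | h
    · exact h
    · exact absurd h2 h
  by_cases hvL : v.length ≤ L'
  · rw [if_pos hvL]
    exact hinl (Or.inl hvL)
  rw [if_neg hvL]
  by_cases hcc : isC P j b B v
  · have hvL2 := hv.2.2.2 hcc
    unfold colT
    unfold isC at hcc
    cases b with
    | true =>
        rw [if_pos rfl] at hcc ⊢
        have h : ∃ t : Str × Str, v = code j B t.1 ++ t.2 ∧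
            v.length = (code j B t.1).length * 2 ^ P.h := by
          obtain ⟨z, r, h1, h2⟩ := hcc
          exact ⟨(z, r), h1, h2⟩
        rw [dif_pos h]
        obtain ⟨h1, h2⟩ := h.choose_spec
        set t := h.choose
        cases ha : arg P t.1 with
        | none => trivial
        | some z' =>
            simp only
            refine DT.QIn.subst ?_ (J0T_qin _)
            intro u hu
            have hu' : u.length ≤ (z' ++ tru P.h (code j B t.1).length z'.length t.2).length + 1 :=
              hu
            have h6 := tru_le (r := t.2) (by rw [← h1]; exact h2) ha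
            have h7 : 2 ^ P.h * t.1.length + 1 ≤ n ^ c' := by
              have h8 : 2 ^ P.h * t.1.length ≤ v.length := by
                rw [h2, mul_comm]
                exact Nat.mul_le_mul_right _ (length_le_code j B t.1)
              have := hv.2.1
              omega
            apply vr_qin
            refine ⟨fun w hw => by simp at hw, fun w hw => ?_⟩
            simp only [Sum.inr.injEq] at hw
            subst hw
            refine ⟨?_, by omega⟩
            intro O O' hO
            unfold GoodB at hB
            rw [if_pos rfl] at hB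
            apply hB t.1 u O O' (by omega)
            intro w hw
            apply hO
            apply hL
            have h9 : (code j B t.1).length ≤ v.length := by
              rw [h1, List.length_append]; omega
            rw [code_length] at h9
            omega
    | false =>
        rw [if_neg (by simp)] at hcc ⊢
        rw [dif_pos hcc]
        have h1 := hcc.choose_spec
        set x := hcc.choose
        apply vr_qin
        refine ⟨fun w hw => by simp at hw, fun w hw => ?_⟩
        simp only [Sum.inr.injEq] at hw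
        subst hw
        have h9 : v.length = j + 3 + (x.length + 2) ^ (2 ^ B) + x.length := by
          rw [h1, code_length]
        refine ⟨?_, ?_⟩
        · intro O O' hO
          unfold GoodB at hB
          rw [if_neg (by simp)] at hB
          show nEval i O x = nEval i O' x
          apply hB
          intro w hw
          apply hO
          apply hL
          omega
        · simp only [List.length_cons]
          have := hv.2.1
          omega
  · rw [colT_not hcc]
    exact hinl (Or.inr hcc)

section

variable {P : Par} {K : ℕ} {q : QC} (hq : WF P q) {j : ℕ} {b : Bool} {i : NIx} {B : ℕ}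
  (hlit : LitE P K q j b i B) (hB : GoodB P b i B) (hj : q.E j = none)

include hlit hB hj

theorem step_can (c : ℕ) : ∃ c' n0 : ℕ, ∀ n : ℕ, n0 ≤ n → ∀ L L' : ℕ,
    (∀ u : ℕ, u ^ 2 ≤ L → u ≤ L') → L' ≤ n ^ c → ∀ Y0 : Lang, Mem P q Y0 → ∀ κ : ℕ, K ≤ κ →
    ∀ C : (Str → Bool) → Bool, IsC (SSC P q j b B n L c) (n ^ c) (n ^ c) κ C →
    ∃ C' : (Str → Bool) → Bool, IsC (SSC P q j b B n L' c') (n ^ c') (n ^ c') κ C' ∧
      ∀ X, InF P (addc q j b i B) n Y0 X → C' X = C X := by
  classical
  obtain ⟨e, he⟩ := poly_le (Polynomial.X ^ c * (Polynomial.X ^ c + 2))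
  obtain ⟨c', n1, h1⟩ := hlit (max e (c + 1))
  refine ⟨c', max n1 2, fun n hn L L' hLL hL' Y0 hY0 κ hκ C hC => ?_⟩
  have hn1 : n1 ≤ n := le_trans (le_max_left _ _) hn
  have hn2 : 2 ≤ n := le_trans (le_max_right _ _) hn
  have he' := he n hn2
  simp only [Polynomial.eval_add, Polynomial.eval_mul, Polynomial.eval_pow,
    Polynomial.eval_X, Polynomial.eval_ofNat] at he'
  have hm1 : n ^ e ≤ n ^ max e (c + 1) := Nat.pow_le_pow_right (by omega) (le_max_left _ _)
  have hm2 : n ^ c ≤ n ^ max e (c + 1) := Nat.pow_le_pow_right (by omega)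
    (le_trans (by omega) (le_max_right _ _))
  have h2 := hC.subst (S' := VV P q j b i B n L' (max e (c + 1))) (d := n ^ c + 2)
    (fun v => if v.length ≤ L' then vr (Sum.inl v) else colT P j b B v) (by
      intro v hv
      split_ifs
      · rw [vr_depth]; omega
      · have h3 := colT_depth P j b B v
        have h4 := hv.2.1
        omega) (fun v hv => colT_qin hB hn2 hLL (le_max_right _ _) hv)
  have h3 := h2.mono (subset_refl _) hm2 (he'.trans hm1)
  obtain ⟨C', hC', hC''⟩ := h1 n hn1 L' (hL'.trans hm2) Y0 hY0 κ hκ _ h3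
  refine ⟨C', hC', fun X hX => ?_⟩
  rw [hC'' X (hX.addc hj)]
  apply IsC.eval_congr _ hC
  intro v hv
  split_ifs
  · rw [vr_eval, Sum.elim_inl]
  · exact colT_eval hX hv.1

theorem iter_can : ∀ (M c : ℕ), ∃ c' n0 : ℕ, ∀ n : ℕ, n0 ≤ n → ∀ Y0 : Lang, Mem P q Y0 →
    ∀ κ : ℕ, K ≤ κ →
    ∀ C : (Str → Bool) → Bool, IsC (SSC P q j b B n (n ^ (2 ^ M)) c) (n ^ c) (n ^ c) κ C →
    ∃ C' : (Str → Bool) → Bool, IsC (SSC P q j b B n (n - 1) c') (n ^ c') (n ^ c') κ C' ∧
      ∀ X, InF P (addc q j b i B) n Y0 X → C' X = C X
  | 0, c => by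
      obtain ⟨c', n0, h⟩ := step_can hlit hB hj (c + 1)
      refine ⟨c', max n0 2, fun n hn Y0 hY0 κ hκ C hC => ?_⟩
      have hn2 : 2 ≤ n := le_trans (le_max_right _ _) hn
      have hbb : n ^ c ≤ n ^ (c + 1) := Nat.pow_le_pow_right (by omega) (by omega)
      refine h n (le_trans (le_max_left _ _) hn) (n ^ (2 ^ 0)) (n - 1) ?_ ?_ Y0 hY0 κ hκ C
        (hC.mono (SSC_mono (by omega) le_rfl (by omega)) hbb hbb)
      · intro u hu
        by_contra hcon
        have h1 : n ≤ u := by omega
        have h2 : n ^ 2 ≤ u ^ 2 := Nat.pow_le_pow_left h1 2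
        simp only [pow_zero, pow_one] at hu
        nlinarith
      · have h1 : n ^ 1 ≤ n ^ (c + 1) := Nat.pow_le_pow_right (by omega) (by omega)
        rw [pow_one] at h1
        omega
  | M + 1, c => by
      obtain ⟨b1, n1, h1⟩ := step_can hlit hB hj (c + 2 ^ M)
      obtain ⟨b2, n2, h2⟩ := iter_can M b1
      refine ⟨b2, max (max n1 n2) 2, fun n hn Y0 hY0 κ hκ C hC => ?_⟩
      have hn2 : 2 ≤ n := le_trans (le_max_right _ _) hn
      have hbb : n ^ c ≤ n ^ (c + 2 ^ M) := Nat.pow_le_pow_right (by omega) (Nat.le_add_right _ _)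
      obtain ⟨C1, hC1, hC1'⟩ := h1 n
        (le_trans (le_trans (le_max_left _ _) (le_max_left _ _)) hn) (n ^ (2 ^ (M + 1)))
        (n ^ (2 ^ M)) (by
          intro u hu
          have h3 : n ^ (2 ^ (M + 1)) = (n ^ (2 ^ M)) ^ 2 := by
            rw [← pow_mul]; congr 1
          rw [h3] at hu
          exact (Nat.pow_le_pow_iff_left (by norm_num)).1 hu)
        (Nat.pow_le_pow_right (by omega) (Nat.le_add_left _ _)) Y0 hY0 κ hκ C
        (hC.mono (SSC_mono (by omega) le_rfl (Nat.le_add_right _ _)) hbb hbb)
      obtain ⟨C2, hC2, hC2'⟩ := h2 n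
        (le_trans (le_trans (le_max_right _ _) (le_max_left _ _)) hn) Y0 hY0 κ hκ C1 hC1
      exact ⟨C2, hC2, fun X hX => (hC2' X hX).trans (hC1' X hX)⟩

include hq in
theorem goodC_addc (hg : GoodC P K q) (hjN : j < q.N + 2) (hodd : j % 2 = 1)
    : GoodC P K (addc q j b i B) := by
  intro p l a
  have hq' : WF P (addc q j b i B) := addc_wf hq (by
    rintro rfl; simpa [GoodB] using hB) (by rintro rfl; simpa [GoodB] using hB) hjN hodd
  obtain ⟨c, n1, h1⟩ := hg p l a
  obtain ⟨c', n2, h2⟩ := iter_can hlit hB hj c c
  refine ⟨c', max (max n1 n2) (max q.N 2), fun n hn Y0 hY0 z hz => ?_⟩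
  have hn1 : n1 ≤ n := le_trans (le_trans (le_max_left _ _) (le_max_left _ _)) hn
  have hn2 : n2 ≤ n := le_trans (le_trans (le_max_right _ _) (le_max_left _ _)) hn
  have hnN : q.N ≤ n := le_trans (le_trans (le_max_left _ _) (le_max_right _ _)) hn
  have hn3 : 2 ≤ n := le_trans (le_trans (le_max_right _ _) (le_max_right _ _)) hn
  have hY0' : Mem P q Y0 := addc_mem hj hY0
  have h3 := h1 n hn1 Y0 hY0' z hz
  obtain ⟨C', hC', hC''⟩ := h2 n hn2 Y0 hY0' (max l.length K) (le_max_right _ _) _
    (h3.mono (S' := SSC P q j b B n (n ^ (2 ^ c)) c) (by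
      rintro v ⟨c1, c2, c3⟩
      refine ⟨c1, c2, c3, fun _ => c2.trans (Nat.pow_le_pow_right (by omega) ?_)⟩
      exact (Nat.lt_two_pow_self).le) le_rfl le_rfl)
  have hsub : SSC P q j b B n (n - 1) c' ⊆ {v : Str | n ≤ v.length ∧ v.length ≤ n ^ c' ∧
      FreeC P (addc q j b i B) v} := by
    rintro v ⟨c1, c2, c3, c4⟩
    have hnc : ¬ isC P j b B v := by
      intro h
      have := c4 h
      omega
    refine ⟨c1, c2, c3.1, ?_, ?_, c3.2.2.2⟩
    · rintro ⟨j', i', B', x, hE, hv⟩
      by_cases hjj : j' = j
      · subst hjj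
        rw [addc_E_self] at hE
        simp only [Option.some.injEq, Prod.mk.injEq] at hE
        apply hnc
        unfold isC
        rw [if_neg (by rw [hE.1]; simp)]
        exact ⟨x, by rw [hE.2.2]; exact hv⟩
      · rw [addc_E_ne hjj] at hE
        exact c3.2.1 ⟨j', i', B', x, hE, hv⟩
    · rintro ⟨j', i', B', z', r, hE, hv, hl⟩
      by_cases hjj : j' = j
      · subst hjj
        rw [addc_E_self] at hE
        simp only [Option.some.injEq, Prod.mk.injEq] at hE
        apply hnc
        unfold isC
        rw [if_pos hE.1]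
        exact ⟨z', r, by rw [hE.2.2]; exact hv, by rw [hE.2.2]; exact hl⟩
      · rw [addc_E_ne hjj] at hE
        exact c3.2.2.1 ⟨j', i', B', z', r, hE, hv, hl⟩
  refine (hC'.mono hsub le_rfl le_rfl).congr (fun Y => ?_)
  set X := Phi P (addc q j b i B) n (mixW n Y0 Y) with hX
  have hXin : InF P (addc q j b i B) n Y0 X := InF_Phi hq' hnN hY0 Y
  have e1 : C' Y = C' X := by
    refine IsC.eval_congr ?_ hC'
    intro v hv
    have hv' := hsub hv
    rw [hX, Phi_none hq' _ (hnN.trans hv'.1) hv'.2.2.1 hv'.2.2.2.1
      (fun h => absurd h hv'.2.2.2.2.1)]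
    unfold mixW
    rw [mix_ge hv'.1, if_neg hv'.2.2.2.2.2]
  rw [e1, hC'' X hXin]
  congr 1
  funext v
  exact (hXin.addc hj).eq_Phi hq hnN hY0' X v.length (fun _ _ _ _ => rfl) v le_rfl

end

/-- the literals of the witness are easy in the canonical members, if there are no columns yet -/
theorem litE_witness (P : Par) (K : ℕ) {q : QC} (hE : ∀ j, q.E j = none)
    (j : ℕ) (b : Bool) (B : ℕ) : LitE P K q j b iW B := by
  classical
  have hp : ∀ v, ¬ isP q v := by
    rintro v ⟨j, i, B, x, h, _⟩
    rw [hE] at h
    simp at h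
  have hh : ∀ v, ¬ isH P q v := by
    rintro v ⟨j, i, B, z, r, h, _⟩
    rw [hE] at h
    simp at h
  intro c
  refine ⟨c, max 2 q.N, fun n hn L' hL' Y0 hY0 κ hκ C hC => ?_⟩
  have hn2 : 2 ≤ n := le_trans (le_max_left _ _) hn
  have hnN : q.N ≤ n := le_trans (le_max_right _ _) hn
  let φ : Str ⊕ Str → Str ⊕ Bool := fun w => match w with
    | Sum.inl v => Sum.inl v
    | Sum.inr [] => Sum.inr false
    | Sum.inr (false :: v) => if v.length < n then Sum.inr (Y0 v) else
        if isTab v then Sum.inr (q.τ v) else if isW v then Sum.inr true else Sum.inl v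
    | Sum.inr (true :: x) => if 2 + 2 * x.length < n then Sum.inr (nEval iW Y0 x) else
        Sum.inr false
  have h2 := hC.rename (S' := SSC P q j b B n L' c) φ (by
    rintro (v | u) hv v' hvv'
    · simp only [φ, Sum.inl.injEq] at hvv'
      subst hvv'
      exact hv.1 v rfl
    · rcases u with _ | ⟨_ | _, u⟩
      · simp [φ] at hvv'
      · simp only [φ] at hvv'
        split_ifs at hvv' with h3 h4 h5
        simp only [Sum.inl.injEq] at hvv'
        subst hvv'
        obtain ⟨h6, h7⟩ := hv.2 _ rfl
        refine ⟨by omega, ?_, ⟨h4, hp _, hh _, h5⟩, fun _ => ?_⟩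
        · simp only [List.length_cons] at h7
          omega
        · by_contra h8
          have h9 := h6 (fun _ => false) (fun v => decide (v = u)) (by
            intro v hv
            symm
            rw [decide_eq_false_iff_not]
            rintro rfl
            omega)
          simp [join] at h9
      · simp only [φ] at hvv'
        split_ifs at hvv')
  refine ⟨_, h2, fun X hX => ?_⟩
  congr 1
  funext w
  rcases w with v | u
  · simp [φ]
  · rcases u with _ | ⟨_ | _, u⟩
    · simp [φ, join]
    · simp only [φ, Sum.elim_inr]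
      show _ = X u
      split_ifs with h3 h4 h5
      · rw [hX.lt u h3]; rfl
      · rw [hX.tab u (by omega) h4]; rfl
      · rw [hX.wit u (by omega) h5]; rfl
      · rfl
    · simp only [φ, Sum.elim_inr]
      show _ = nEval iW X u
      split_ifs with h3
      · simp only [Sum.elim_inr, id_eq]
        rw [nEval_iW, nEval_iW, Bool.eq_iff_iff, EE_true, EE_true]
        have key : ∀ y : Str, y.length = u.length → regW Y0 (u ++ y) = regW X (u ++ y) := by
          intro y hy
          unfold regW
          rw [hX.lt]
          simp only [List.length_cons, List.length_append]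
          omega
        constructor
        · rintro ⟨y, hy, hy2⟩; exact ⟨y, hy, by rw [← key y hy]; exact hy2⟩
        · rintro ⟨y, hy, hy2⟩; exact ⟨y, hy, by rw [key y hy]; exact hy2⟩
      · simp only [Sum.elim_inr, id_eq]
        rw [nEval_iW]
        symm
        rw [← Bool.not_eq_true, EE_true]
        rintro ⟨y, hy, hy2⟩
        unfold regW at hy2
        rw [hX.wit _ (by simp only [List.length_cons, List.length_append]; omega)
          ⟨u ++ y, rfl⟩] at hy2
        simp at hy2

end Pool.Agent.Lib.Pa76659O
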