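import Pool.Agent.Lib.Pa76659.Defs

/-!
The chain of the low classes.
-/

namespace Pool.Agent.Lib.Pa76659O

open Pool.Agent.Lib.Pa76659

/-- The low classes in their order: `\hat L_1`, `L_1`, `\hat L_2`, `L_2`, ... (relative to `X`). Here
`RLowSucc X k` is `\hat L_{k+1}` and `Low X k` is `L_k`. -/
def chn (X : Lang) (m : ℕ) : Set Lang :=
  if m % 2 = 0 then RLowSucc X (m / 2) else Low X (m / 2 + 1)

end Pool.Agent.Lib.Pa76659O
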