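import Pool.Agent.Lib.Pa76659O.RepCol

/-!
Diagonalisation of the iterated witness against the machines.
-/

set_option maxHeartbeats 4000000

namespace Pool.Agent.Lib.Pa76659O

open Pool.Agent.Lib.Pa76659 Pool.Agent.Lib.Pa76659P Pool.Agent.Lib.Pa76659.Hier

/-- height of the main tree -/
def kp (P : Par) : ℕ := if P.d = true then P.h + 1 else P.h

theorem gl_large (P : Par) (d : ℕ) : ∃ n0 : ℕ, ∀ n : ℕ, n0 ≤ n → n ^ d ≤ 2 ^ gl P n := by
  obtain ⟨g0, hg0⟩ := pow_le_two_pow (3 * d)
  set H := 2 ^ P.h with hH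
  have hHpos : 0 < H := by positivity
  refine ⟨H * (g0 + H + 2), fun n hn => ?_⟩
  set g := gl P n with hg
  have h1 : g0 + H + 2 ≤ g := by
    rw [hg, gl, ← hH]
    rw [Nat.le_div_iff_mul_le hHpos, Nat.mul_comm]
    exact hn
  have h2 : n < H * (g + 1) := by
    rw [hg, gl, ← hH]
    exact Nat.lt_mul_div_succ n hHpos
  have h3 : H * (g + 1) ≤ g * (g + 1) := Nat.mul_le_mul_right _ (by omega)
  have h4 : g * (g + 1) ≤ g ^ 3 := by
    have : g + 1 ≤ g * g := by nlinarith
    calc g * (g + 1) ≤ g * (g * g) := Nat.mul_le_mul_left _ this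
      _ = g ^ 3 := by ring
  calc n ^ d ≤ (g ^ 3) ^ d := Nat.pow_le_pow_left (by omega) d
    _ = g ^ (3 * d) := by rw [pow_mul]
    _ ≤ 2 ^ g := hg0 g (by omega)

theorem exists_diffW {P : Par} {q : QC} (hq : WF P q) (hg : GoodA P q) (hh : 1 ≤ P.h)
    (p' p : PIx) (l : List NIx) (hl : l.length = gg P) :
    ∃ X, Mem P q X ∧ ∃ s : Str, mach P p' p l X s ≠ QQ (kp P) (regW X) s := by
  classical
  obtain ⟨X0, hX0⟩ := exists_mem hq
  obtain ⟨b, n0, hb⟩ := hg p' p l 1 hl
  obtain ⟨b', hb'⟩ := poly_le (Polynomial.X ^ b + Polynomial.X + 3)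
  obtain ⟨d1, hd1⟩ := MS_poly (P.h - 1) b'
  obtain ⟨d2, hd2⟩ := MD_poly (P.h - 1) b'
  obtain ⟨n1, hn1⟩ := gl_large P (max d1 d2)
  set n : ℕ := max (max n0 n1) (max q.N 2) with hn
  have hnn0 : n0 ≤ n := le_trans (le_max_left _ _) (le_max_left _ _)
  have hnn1 : n1 ≤ n := le_trans (le_max_right _ _) (le_max_left _ _)
  have hnN : q.N ≤ n := le_trans (le_max_left _ _) (le_max_right _ _)
  have hn2 : 2 ≤ n := le_trans (le_max_right _ _) (le_max_right _ _)
  have hb'' := hb' n hn2
  simp only [Polynomial.eval_add, Polynomial.eval_pow, Polynomial.eval_X,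
    Polynomial.eval_ofNat] at hb''
  obtain ⟨m, hm, cont, hcont, M, hM, Q, hQ, T, hT, hmain⟩ := hb n hnn0 X0 hX0
  set g := gl P n with hgdef
  set κ := kp P with hκ
  have hgn : g ≤ n := Nat.div_le_self _ _
  have hggl : g * 2 ^ P.h ≤ n - 1 + 1 := by
    have := Nat.div_mul_le_self n (2 ^ P.h)
    rw [hgdef, gl]
    omega
  set s : Str := List.replicate n false with hs
  have hsl : s.length = n := by simp [hs]
  let G : (List ℕ → Bool) → Lang := fun x v => x (dec g κ n (v.drop (n + 2)) [0])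
  set R0 : ℕ := 2 ^ (n ^ b + n) with hR0
  have hR0p : 1 ≤ R0 := Nat.one_le_two_pow
  have hhi : n - 1 ≤ n ^ b + n := by omega
  -- use a larger upper end
  let Xw' : (List ℕ → Bool) → Lang := fun x => World P q g (n - 1) (n ^ b + n) X0 (G x) x
  set hi : ℕ := n ^ b + n with hhidef
  let ct : ℕ → (List ℕ → Bool) → Bool := fun r x =>
    if r = 0 then false else if r < 2 * R0 then contH P q (n - 1) hi (Xw' x) r
    else cont (r - 2 * R0) (Xw' x) (fun p => x (shift (rtt P (2 * R0)) p))
  have hrt1 : ∀ r, 1 ≤ r → 0 < rtt P r := by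
    intro r hr
    unfold rtt
    split_ifs <;> omega
  have hGag : ∀ (r : ℕ) (x x' : List ℕ → Bool), 1 ≤ r → AgreeBelow (rtt P r) x x' →
      G x = G x' := by
    intro r x x' hr hxx
    funext v
    exact hxx _ 0 (dec_getLast g κ n _ [0] 0 (by simp)) (hrt1 r hr)
  have hrnk : ∀ (j B : ℕ) (z : Str), (code j B z).length ≤ hi → rnk (code j B z) < 2 * R0 := by
    intro j B z hz
    refine lt_of_lt_of_le (rnk_lt _) ?_
    rw [hR0, ← pow_succ']
    exact Nat.pow_le_pow_right (by norm_num) (by omega)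
  have hctag : ∀ r x x', AgreeBelow (rtt P r) x x' → ct r x = ct r x' := by
    intro r x x' hxx
    simp only [ct]
    by_cases h3 : r = 0
    · rw [if_pos h3, if_pos h3]
    rw [if_neg h3, if_neg h3]
    have hG : G x = G x' := hGag r x x' (by omega) hxx
    by_cases h4 : r < 2 * R0
    · rw [if_pos h4, if_pos h4]
      apply contH_congr hq (fun _ _ => rfl)
      · intro v _ _
        rw [hG]
      · exact hxx
    · rw [if_neg h4, if_neg h4]
      have hX1 : Xw' x = Xw' x' := by
        funext v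
        refine World_congr hq v.length (fun _ _ => rfl) ?_ ?_ v le_rfl
        · intro u _ _ _
          rw [hG]
        · intro u _ _ h5 hh
          obtain ⟨r', h6, h7⟩ := pos_last_lt (g := g) hh
          apply hxx _ r' h6
          have h8 : rtt P (2 ^ (u.length + 1)) ≤ rtt P r := rtt_mono P (by
            have h9 : 2 ^ (u.length + 1) ≤ 2 * R0 := by
              rw [hR0, ← pow_succ']
              exact Nat.pow_le_pow_right (by norm_num) (by omega)
            omega)
          omega
      rw [hX1]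
      apply hcont
      apply agree_shift
      rw [← rtt_add, Nat.add_sub_cancel' (by omega)]
      exact hxx
  -- the circuits
  let φ : Str ⊕ List ℕ → List ℕ ⊕ Bool := fun u => match u with
    | Sum.inl v => if isH P q v then Sum.inl (pos P q g v) else
        Sum.inl (dec g κ n (v.drop (n + 2)) [0])
    | Sum.inr p => Sum.inl (shift (rtt P (2 * R0)) p)
  have hφ : ∀ x, ∀ u ∈ SV P (SA q n b) m, Sum.elim x id (φ u) =
      Sum.elim (Xw' x) (fun p => x (shift (rtt P (2 * R0)) p)) u := by
    intro x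
    rintro (v | p) hu
    · have hv := hu.1 v rfl
      have hv1 := hv.1
      have hv2 := hv.2.1
      simp only [φ, Sum.elim_inl]
      by_cases h3 : isH P q v
      · rw [if_pos h3]
        symm
        exact World_hid hq (by omega) (by omega) (by omega) h3
      · rw [if_neg h3]
        symm
        exact World_free hq (by omega) (by omega) hv.2.2.1 hv.2.2.2 h3
    · rfl
  have hQ' : ∀ ν, IsC Set.univ (n ^ b) (n ^ b) (gg P) (fun x => Q ν
      (Sum.elim (Xw' x) (fun p => x (shift (rtt P (2 * R0)) p)))) := by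
    intro ν
    refine ((hQ ν).rename (S' := Set.univ) φ (fun _ _ _ _ => Set.mem_univ _)).congr (fun x => ?_)
    exact IsC.eval_congr (hφ x) (hQ ν)
  -- the main tree
  have hmt : ∀ x, QQ κ (regW (Xw' x)) s = tr (fun _ => 2 ^ g) κ x [0] := by
    intro x
    apply QQ_trN g
    · rw [hsl]; exact hgn
    · intro r _
      unfold regW
      obtain ⟨h3, h4, h5⟩ := isW_not (P := P) (q := q) (v := false :: true :: (s ++ r)) ⟨_, rfl⟩
      have h6 : Xw' x (false :: true :: (s ++ r)) = G x (false :: true :: (s ++ r)) :=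
        World_free hq (by omega) (by
          simp only [List.length_cons, List.length_append, hsl]; omega) h3 h4 h5
      rw [h6]
      simp only [G]
      have h7 : (false :: true :: (s ++ r)).drop (n + 2) = r := by
        show (s ++ r).drop n = r
        rw [← hsl, List.drop_left]
      rw [h7, hsl]
  -- conclusion from the choice of the forest
  have hfin : ∀ x, (∀ r, 1 ≤ r → r < 2 * R0 + m → tval P g x r = ct r x) →
      Xw' x ∈ VA P q n X0 ∧
      mach P p' p l (Xw' x) s = (T ⟨s, by rw [hsl, pow_one]⟩).eval (fun ν => Q ν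
        (Sum.elim (Xw' x) (fun p => x (shift (rtt P (2 * R0)) p)))) := by
    intro x hx
    have h3 : Xw' x ∈ VA P q n X0 := by
      refine ⟨?_, fun v hv => World_le hq hX0 hhi (by omega)⟩
      apply World_mem hq hX0 hhi (by omega) hggl
      intro j i B z hE h4 h5
      have h6 : (code j B (nm P z)).length ≤ clen P j B z := by
        unfold clen
        have : (code j B (nm P z)).length * 1 ≤ (code j B (nm P z)).length * 2 ^ P.h :=
          Nat.mul_le_mul_left _ Nat.one_le_two_pow
        omega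
      have h7 := hrnk j B (nm P z) (by omega)
      have h8 := rnk_pos (code j B (nm P z))
      rw [hx _ h8 (by omega)]
      simp only [ct]
      rw [if_neg (by omega), if_pos h7]
      exact contH_code hE h4 h5
    refine ⟨h3, ?_⟩
    have h4 := hmain (Xw' x) h3 (fun p => x (shift (rtt P (2 * R0)) p)) (by
      intro r hr
      rw [tval_shift, hx _ (by omega) (by omega)]
      simp only [ct]
      rw [if_neg (by omega), if_neg (by omega), Nat.add_sub_cancel_left]) ⟨s, by rw [hsl, pow_one]⟩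
    exact h4.symm
  -- bounds
  have hW : 2 * (2 * R0 + m) ≤ 2 ^ (n ^ b') := by
    have h3 : 2 ^ (n ^ b) ≤ R0 := Nat.pow_le_pow_right (by norm_num) (by omega)
    have h4 : 2 ^ (n ^ b + n + 3) ≤ 2 ^ (n ^ b') := Nat.pow_le_pow_right (by norm_num) (by omega)
    rw [pow_add, ← hhidef, ← hR0] at h4
    omega
  have hgW : 2 ^ g ≤ 2 ^ (n ^ b') := Nat.pow_le_pow_right (by norm_num) (by omega)
  have hlarge := hn1 n hnn1
  have hbb : n ^ b ≤ n ^ b' := by omega
  have hTT := hT ⟨s, by rw [hsl, pow_one]⟩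
  unfold TOK at hTT
  by_cases hd : P.d = true
  · rw [if_pos hd] at hTT
    obtain ⟨ν, hν⟩ := hTT
    have hgg : gg P = P.h - 1 + 1 := by
      unfold gg
      rw [if_pos hd]; omega
    have hkp : κ = P.h - 1 + 2 := by
      rw [hκ]
      unfold kp
      rw [if_pos hd]; omega
    have hQν := hQ' ν
    rw [hgg] at hQν
    have hreq : ∀ i ≤ P.h - 1 + 1, MD (P.h - 1) (n ^ b) (n ^ b) (n ^ b') ≤ (fun _ => 2 ^ g) i ∧
        (fun _ => 2 ^ g) i ≤ 2 ^ (n ^ b') := by
      intro i _
      refine ⟨?_, hgW⟩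
      have h3 := hd2 n hn2 (n ^ b) (n ^ b) (n ^ b') hbb hbb le_rfl
      have h4 : n ^ d2 ≤ n ^ max d1 d2 := Nat.pow_le_pow_right (by omega) (le_max_right _ _)
      exact h3.trans (h4.trans hlarge)
    obtain ⟨x, hx1, hx2⟩ := advDelta (P.h - 1) (n ^ b) (n ^ b) (n ^ b') (2 ^ (n ^ b'))
      (2 * R0 + m) le_rfl hW (fun _ => 2 ^ g) hreq _ hQν ct (by
        intro c x x' hxx
        apply hctag
        unfold rtt
        rw [if_pos hd]
        exact hxx)
    have hP1 : P.h - 1 + 1 = P.h := by omega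
    obtain ⟨h3, h4⟩ := hfin x (by
      intro r hr1 hr2
      have h5 := hx1 r hr1 hr2
      unfold tval
      rw [if_pos hd]
      rw [hP1] at h5
      exact h5)
    refine ⟨Xw' x, h3.1, s, ?_⟩
    rw [h4, hν, vr_eval, hmt, hkp]
    exact hx2
  · rw [if_neg hd] at hTT
    have hgg : gg P = P.h - 1 := by
      unfold gg
      rw [if_neg hd]
    have hkp : κ = P.h - 1 + 1 := by
      rw [hκ]
      unfold kp
      rw [if_neg hd]; omega
    have hreq : ∀ i ≤ P.h - 1, MS (P.h - 1) (n ^ b) (n ^ b) (n ^ b) (n ^ b) (n ^ b') ≤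
        (fun _ => 2 ^ g) i ∧ (fun _ => 2 ^ g) i ≤ 2 ^ (n ^ b') := by
      intro i _
      refine ⟨?_, hgW⟩
      have h3 := hd1 n hn2 (n ^ b) (n ^ b) (n ^ b) (n ^ b) (n ^ b') hbb hbb hbb hbb le_rfl
      have h4 : n ^ d1 ≤ n ^ max d1 d2 := Nat.pow_le_pow_right (by omega) (le_max_left _ _)
      exact h3.trans (h4.trans hlarge)
    obtain ⟨x, hx1, hx2⟩ := advSigma (P.h - 1) (n ^ b) (n ^ b) (n ^ b) (n ^ b) (n ^ b')
      (2 ^ (n ^ b')) (2 * R0 + m) le_rfl (by omega) (fun _ => 2 ^ g) hreq (ι := Fin M)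
      (by simpa using hM) (fun ν x => Q ν
        (Sum.elim (Xw' x) (fun p => x (shift (rtt P (2 * R0)) p)))) (by
        intro ν
        have h5 := hQ' ν
        rw [hgg] at h5
        exact h5) (T ⟨s, by rw [hsl, pow_one]⟩) hTT ct (by
        intro c x x' hxx
        apply hctag
        unfold rtt
        rw [if_neg hd]
        exact hxx)
    have hP1 : P.h - 1 + 1 = P.h := by omega
    obtain ⟨h3, h4⟩ := hfin x (by
      intro r hr1 hr2
      have h5 := hx1 r hr1 hr2
      unfold tval
      rw [if_neg hd]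
      rw [hP1] at h5
      exact h5)
    refine ⟨Xw' x, h3.1, s, ?_⟩
    rw [h4, hmt, hkp]
    exact hx2

end Pool.Agent.Lib.Pa76659O
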