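import Pool.Agent.Lib.Pa76659O.Next
import Pool.Agent.Lib.Pa76659P.Member
import Pool.Agent.Lib.Pa76659O.Chain

/-!
Relative to the oracle exactly one inclusion between the low classes is proper.
-/

set_option maxHeartbeats 4000000

namespace Pool.Agent.Lib.Pa76659O

open Pool.Agent.Lib.Pa76659 Pool.Agent.Lib.Pa76659P Pool.Agent.Lib.Pa76659.Hier

theorem regW_mem (X : Lang) : regW X ∈ PO X :=
  PO_subset (cons_mem false X) (cons_mem true (fun x => X (false :: x)))

theorem wit_mem (X : Lang) : nEval iW X ∈ NPO X := by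
  rw [nEval_iW]
  exact NPO_subset (regW_mem X) (EE_mem (regW X))

theorem ZZ_mem (i : NIx) (X : Lang) : ZZ i X ∈ PO (join X (nEval i X)) :=
  join_mem2 (cons_mem false (join X (nEval i X))) (query_mem _)

/-- the decoded codes compute the content -/
theorem code_mem {P : Par} {X : Lang} {i : NIx} (hh : 1 ≤ P.h) {j B : ℕ}
    (h : ∀ z, val P j B X z = cnt P i X z) : ∃ C ∈ Sig X P.h,
      (P.d = false → ∀ z, cnt P i X z = C z) ∧ cnt P i X ∈ PO C := by
  obtain ⟨k, hk⟩ : ∃ k, P.h = k + 1 := ⟨P.h - 1, by omega⟩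
  have h1 : (fun z => QQ P.h X (code j B z)) ∈ Sig X P.h := by
    rw [hk]
    exact Sig_code (QQ_mem X (k + 1)) j B
  refine ⟨_, h1, ?_, ?_⟩
  · intro hd z
    rw [← h z]
    unfold val cd
    rw [if_neg (by rw [hd]; simp)]
  · by_cases hd : P.d = true
    · have e : cnt P i X = fun z => xor ((fun z => QQ P.h X (code j B z)) (false :: z))
          ((fun z => QQ P.h X (code j B z)) (true :: z)) := by
        funext z
        rw [← h z]
        unfold val cd
        rw [if_pos hd]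
      rw [e]
      exact xor_mem (cons_mem false _) (cons_mem true _)
    · have e : cnt P i X = fun z => QQ P.h X (code j B z) := by
        funext z
        rw [← h z]
        unfold val cd
        rw [if_neg hd]
      rw [e]
      exact query_mem _

/-- with hidden codes the set is low -/
theorem low_of_code {P : Par} {X : Lang} (hU : Univ2 X) (hh : 1 ≤ P.h) {i : NIx}
    (hi : nEval i X ∈ NPO X) {j B : ℕ} (h : ∀ z, val P j B X z = cnt P i X z) :
    (P.d = false → nEval i X ∈ Low X P.h) ∧ nEval i X ∈ RLowSucc X P.h := by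
  obtain ⟨k, hk⟩ : ∃ k, P.h = k + 1 := ⟨P.h - 1, by omega⟩
  obtain ⟨C, hC, hC1, hC2⟩ := code_mem hh h
  have key : ∀ L ∈ Sig (join X (nEval i X)) P.h, ∃ j' B', ∀ x, cnt P i X (code j' B' x) = L x := by
    intro L hL
    rw [hk] at hL
    obtain ⟨j', B', h1⟩ := Sig_univ hU hL
    refine ⟨j', B', fun x => ?_⟩
    rw [← h1 x]
    unfold cnt ZZ
    rw [hk]
  refine ⟨fun hd => ⟨hi, fun L hL => ?_⟩, hi, ?_⟩
  · obtain ⟨j', B', h1⟩ := key L hL
    have e : L = fun x => C (code j' B' x) := by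
      funext x
      rw [← h1 x, hC1 hd]
    rw [e]
    rw [hk] at hC ⊢
    exact Sig_code hC j' B'
  · rintro L ⟨D, hD, hL⟩
    obtain ⟨j', B', h1⟩ := key D hD
    have h2 : D ∈ PO C := PO_subset hC2 (col_mem j' B' h1)
    exact ⟨C, hC, PO_subset h2 hL⟩

theorem inf_of_ok {P : Par} {X : Lang} (hX : ∀ r : Rq, Ok P X r) : ∀ k, Sig X k ≠ Sig X (k + 1) := by
  intro k hk
  have h2 := univ_mem X (k + 1)
  rw [← hk] at h2
  obtain ⟨p, l, hl, h3, h4⟩ := exists_gen h2
  rcases hX (Sum.inl (Sum.inl (p, l))) with h5 | ⟨s, hs⟩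
  · exact h5 h4
  · rw [hl, ← h3] at hs
    exact hs rfl

/-- all low sets have hidden codes -/
theorem low_sub {P : Par} {X : Lang} (hU : Univ2 X) (hh : 1 ≤ P.h) (hX : ∀ r : Rq, Ok P X r)
    (k : ℕ) {A : Lang} (hA : A ∈ Low X k) :
    (P.d = false → A ∈ Low X P.h) ∧ A ∈ RLowSucc X P.h := by
  obtain ⟨h1, h2⟩ := low_succ hA
  obtain ⟨i, hi⟩ := exists_nEval h1
  have h3 : J (k + 1) (ZZ i X) ∈ Sig X (k + 1) := by
    apply h2
    rw [hi]
    exact Sig_subset (ZZ_mem i X) (k + 1) (J_mem _ _)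
  obtain ⟨p, l, hl, h4⟩ := exists_sEval h3
  rcases hX (Sum.inr (Sum.inl (i, p, l))) (by rintro rfl; simp at hl) with ⟨j, B, h5⟩ | ⟨s, hs⟩
  · rw [hi] at h1 ⊢
    exact low_of_code hU hh h1 h5
  · rw [hl, ← h4] at hs
    exact absurd rfl hs

/-- the witness is low -/
theorem wit_low {P : Par} {X : Lang} (hU : Univ2 X) (hh : 1 ≤ P.h)
    (hw : ∃ j B, ∀ z, val P j B X z = cnt P iW X z) :
    (P.d = false → nEval iW X ∈ Low X P.h) ∧ nEval iW X ∈ RLowSucc X P.h := by
  obtain ⟨j, B, h⟩ := hw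
  exact low_of_code hU hh (wit_mem X) h

/-- columns -/
theorem col_of {P : Par} {X : Lang} (hX : ∀ r : Rq, Ok P X r) (hg : gg P ≠ 0) {i : NIx}
    {p' p : PIx} {l : List NIx} (hl : l.length = gg P) (h1 : J (gg P) (ZZ i X) = mach P p' p l X)
    {p0 : PIx} {l0 : List NIx} (hl0 : l0 ≠ []) (h2 : J l0.length (ZZ i X) = sEval p0 l0 X) :
    nEval i X ∈ PO X := by
  rcases hX (Sum.inr (Sum.inr (i, (p', p, l), p0, l0))) hg hl hl0 with ⟨j, B, h⟩ | ⟨s, hs⟩ | ⟨s, hs⟩
  · exact col_mem j B h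
  · exact absurd (congrFun h1 s) hs
  · exact absurd (congrFun h2 s) hs

theorem RLow_zero (X : Lang) : RLowSucc X 0 = PO X := by
  apply Set.Subset.antisymm
  · rintro A ⟨_, h2⟩
    obtain ⟨B, hB, hA⟩ := h2 ⟨join X A, query_mem _, cons_mem true (join X A)⟩
    exact PO_subset hB hA
  · exact PO_low.trans low_rlow

/-- the case of the classes `L_h` -/
theorem sigma_type {P : Par} (hd : P.d = false) (hh : 1 ≤ P.h) {X : Lang} (hU : Univ2 X)
    (hw : ∃ j B, ∀ z, val P j B X z = cnt P iW X z) (hX : ∀ r : Rq, Ok P X r) :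
    RLowSucc X (P.h - 1) = PO X ∧ (∀ k, Low X k ⊆ Low X P.h) ∧ RLowSucc X (P.h - 1) ≠ Low X P.h := by
  obtain ⟨k, hk⟩ : ∃ k, P.h = k + 1 := ⟨P.h - 1, by omega⟩
  have hd' : ¬ P.d = true := by rw [hd]; simp
  have hk1 : P.h - 1 = k := by omega
  have hgg : gg P = k := by unfold gg; rw [if_neg hd', hk1]
  have hkp : kp P = k + 1 := by unfold kp; rw [if_neg hd', hk]
  refine ⟨?_, fun m A hA => (low_sub hU hh hX m hA).1 hd, ?_⟩
  · rw [hk1]
    rcases Nat.eq_zero_or_pos k with rfl | hkpos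
    · exact RLow_zero X
    apply Set.Subset.antisymm _ (PO_low.trans low_rlow)
    rintro A hA
    obtain ⟨i, hi⟩ := exists_nEval hA.1
    have h1 : J k (ZZ i X) ∈ DelSucc X k := by
      apply hA.2
      refine ⟨J k (ZZ i X), ?_, query_mem _⟩
      rw [hi]
      exact Sig_subset (ZZ_mem i X) k (J_mem _ _)
    obtain ⟨C, hC, h2⟩ := h1
    obtain ⟨p, l, hl, h3⟩ := exists_sEval hC
    obtain ⟨p', h4⟩ := exists_pEval h2
    obtain ⟨h5, h6⟩ := rlow_low hA
    have h7 : J (k + 1) (ZZ i X) ∈ Sig X (k + 1) := by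
      apply h6
      rw [hi]
      exact Sig_subset (ZZ_mem i X) (k + 1) (J_mem _ _)
    obtain ⟨p0, l0, hl0, h8⟩ := exists_sEval h7
    rw [hi]
    refine col_of hX (by rw [hgg]; omega) (p' := p') (p := p) (l := l) (by rw [hgg, hl]) ?_
      (p0 := p0) (l0 := l0) (by rintro rfl; simp at hl0) (by rw [hl0, h8])
    unfold mach
    rw [if_neg hd', hgg, ← h3]
    exact h4
  · intro heq
    have h1 : nEval iW X ∈ RLowSucc X (P.h - 1) := by
      rw [heq]
      exact (wit_low hU hh hw).1 hd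
    rw [hk1] at h1
    have h2 : QQ (k + 1) (regW X) ∈ DelSucc X k := by
      apply h1.2
      refine ⟨QQ (k + 1) (regW X), ?_, query_mem _⟩
      unfold QQ
      rw [Function.iterate_succ_apply, ← nEval_iW]
      exact EE_iter_mem _ (cons_mem true (join X (nEval iW X))) k
    obtain ⟨C, hC, h3⟩ := h2
    obtain ⟨p, l, hl, h4⟩ := exists_sEval hC
    obtain ⟨p', h5⟩ := exists_pEval h3
    obtain ⟨s, hs⟩ := hX (Sum.inl (Sum.inr (p', p, l))) (by rw [hl, hgg])
    rw [mach, if_neg hd', hkp, ← h4, ← h5] at hs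
    exact hs rfl

/-- the case of the refined classes -/
theorem delta_type {P : Par} (hd : P.d = true) (hh : 1 ≤ P.h) {X : Lang} (hU : Univ2 X)
    (hw : ∃ j B, ∀ z, val P j B X z = cnt P iW X z) (hX : ∀ r : Rq, Ok P X r) :
    Low X P.h = PO X ∧ (∀ k, Low X k ⊆ RLowSucc X P.h) ∧ Low X P.h ≠ RLowSucc X P.h := by
  have hgg : gg P = P.h := by unfold gg; rw [if_pos hd]
  have hkp : kp P = P.h + 1 := by unfold kp; rw [if_pos hd]
  refine ⟨?_, fun m A hA => (low_sub hU hh hX m hA).2, ?_⟩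
  · apply Set.Subset.antisymm _ PO_low
    rintro A ⟨h1, h2⟩
    obtain ⟨i, hi⟩ := exists_nEval h1
    have h3 : J P.h (ZZ i X) ∈ Sig X P.h := by
      apply h2
      rw [hi]
      exact Sig_subset (ZZ_mem i X) P.h (J_mem _ _)
    obtain ⟨p, l, hl, h4⟩ := exists_sEval h3
    rw [hi]
    refine col_of hX (by rw [hgg]; omega) (p' := p) (p := p) (l := l) (by rw [hgg, hl]) ?_
      (p0 := p) (l0 := l) (by rintro rfl; simp at hl; omega) (by rw [hl, h4])
    unfold mach
    rw [if_pos hd, hgg]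
    exact h4
  · intro heq
    have h1 : nEval iW X ∈ Low X P.h := by
      rw [heq]
      exact (wit_low hU hh hw).2
    have h2 : QQ (P.h + 1) (regW X) ∈ Sig X P.h := by
      apply h1.2
      unfold QQ
      rw [Function.iterate_succ_apply, ← nEval_iW]
      exact EE_iter_mem _ (cons_mem true (join X (nEval iW X))) P.h
    obtain ⟨p, l, hl, h4⟩ := exists_sEval h2
    obtain ⟨s, hs⟩ := hX (Sum.inl (Sum.inr (p, p, l))) (by rw [hl, hgg])
    rw [mach, if_pos hd, hkp, ← h4] at hs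
    exact hs rfl

theorem chn_even (X : Lang) (k : ℕ) : chn X (2 * k) = RLowSucc X k := by
  unfold chn
  rw [if_pos (by omega)]
  congr 1
  omega

theorem chn_odd (X : Lang) (k : ℕ) : chn X (2 * k + 1) = Low X (k + 1) := by
  unfold chn
  rw [if_neg (by omega)]
  congr 1
  omega

theorem chn_succ (X : Lang) (m : ℕ) : chn X m ⊆ chn X (m + 1) := by
  rcases Nat.even_or_odd' m with ⟨k, rfl | rfl⟩
  · rw [chn_even, chn_odd]
    exact rlow_low
  · rw [chn_odd, show 2 * k + 1 + 1 = 2 * (k + 1) by ring, chn_even]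
    exact low_rlow

theorem chn_mono (X : Lang) {m m' : ℕ} (h : m ≤ m') : chn X m ⊆ chn X m' := by
  induction m', h using Nat.le_induction with
  | base => exact subset_refl _
  | succ n _ ih => exact ih.trans (chn_succ X n)

theorem PO_chn (X : Lang) (m : ℕ) : PO X ⊆ chn X m := by
  refine Set.Subset.trans ?_ (chn_mono X (Nat.zero_le m))
  have := chn_even X 0
  rw [Nat.mul_zero] at this
  rw [this, RLow_zero]

theorem chn_low (X : Lang) (m : ℕ) : chn X m ⊆ Low X (m + 1) := by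
  rcases Nat.even_or_odd' m with ⟨k, rfl | rfl⟩
  · rw [chn_even]
    exact rlow_low.trans (low_mono (by omega))
  · rw [chn_odd]
    exact low_mono (by omega)

/-- For every `n` there is an oracle relative to which the hierarchy is infinite, the first `n + 1`
classes of the chain are equal to `P`, and the others are all equal to one larger class. -/
theorem exactlyOne (n : ℕ) : ∃ X : Lang, (∀ k, Sig X k ≠ Sig X (k + 1)) ∧
    (∀ m ≤ n, chn X m = PO X) ∧ (∀ m, n < m → chn X m = chn X (n + 1)) ∧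
    chn X n ≠ chn X (n + 1) := by
  have main : ∃ X : Lang, (∀ k, Sig X k ≠ Sig X (k + 1)) ∧ chn X n = PO X ∧
      (∀ k, Low X k ⊆ chn X (n + 1)) ∧ chn X n ≠ chn X (n + 1) := by
    rcases Nat.even_or_odd' n with ⟨k, rfl | rfl⟩
    · obtain ⟨X, h1, h2, h3⟩ := exists_oracleO ⟨false, k + 1⟩ (by show 1 ≤ k + 1; omega)
      obtain ⟨h4, h5, h6⟩ := sigma_type (P := ⟨false, k + 1⟩) rfl (by show 1 ≤ k + 1; omega) h1 h2 h3
      refine ⟨X, inf_of_ok h3, ?_, ?_, ?_⟩
      · rw [chn_even]; exact h4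
      · rw [chn_odd]; exact h5
      · rw [chn_even, chn_odd]; exact h6
    · obtain ⟨X, h1, h2, h3⟩ := exists_oracleO ⟨true, k + 1⟩ (by show 1 ≤ k + 1; omega)
      obtain ⟨h4, h5, h6⟩ := delta_type (P := ⟨true, k + 1⟩) rfl (by show 1 ≤ k + 1; omega) h1 h2 h3
      refine ⟨X, inf_of_ok h3, ?_, ?_, ?_⟩
      · rw [chn_odd]; exact h4
      · rw [show 2 * k + 1 + 1 = 2 * (k + 1) by ring, chn_even]; exact h5
      · rw [chn_odd, show 2 * k + 1 + 1 = 2 * (k + 1) by ring, chn_even]; exact h6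
  obtain ⟨X, h1, h2, h3, h4⟩ := main
  refine ⟨X, h1, fun m hm => ?_, fun m hm => ?_, h4⟩
  · apply Set.Subset.antisymm _ (PO_chn X m)
    rw [← h2]
    exact chn_mono X hm
  · apply Set.Subset.antisymm _ (chn_mono X hm)
    exact (chn_low X m).trans (h3 (m + 1))

end Pool.Agent.Lib.Pa76659O
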