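import Pool.Agent.Lib.Pa76659O.Wit
import Pool.Agent.Lib.Pa76659P.Poly

/-!
Forests of trees which hold the hidden codes.
-/

set_option maxHeartbeats 4000000

namespace Pool.Agent.Lib.Pa76659O

open Pool.Agent.Lib.Pa76659 Pool.Agent.Lib.Pa76659P Pool.Agent.Lib.Pa76659.Hier

/-- numbering of strings -/
def rnk : Str → ℕ
  | [] => 1
  | b :: z => 2 * rnk z + (if b = true then 1 else 0)

theorem rnk_ge : ∀ z : Str, 2 ^ z.length ≤ rnk z
  | [] => by simp [rnk]
  | b :: z => by
      have := rnk_ge z
      rw [rnk, List.length_cons, pow_succ]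
      omega

theorem rnk_lt : ∀ z : Str, rnk z < 2 ^ (z.length + 1)
  | [] => by simp [rnk]
  | b :: z => by
      have := rnk_lt z
      rw [rnk, List.length_cons, pow_succ]
      split_ifs <;> omega

theorem rnk_pos (z : Str) : 1 ≤ rnk z := le_trans Nat.one_le_two_pow (rnk_ge z)

theorem rnk_inj : ∀ z z' : Str, rnk z = rnk z' → z = z'
  | [], [], _ => rfl
  | [], b :: z', h => by
      have := rnk_pos z'
      simp only [rnk] at h
      omega
  | b :: z, [], h => by
      have := rnk_pos z
      simp only [rnk] at h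
      omega
  | b :: z, b' :: z', h => by
      simp only [rnk] at h
      have h1 : rnk z = rnk z' := by
        split_ifs at h <;> omega
      have h2 : b = b' := by
        cases b <;> cases b' <;> simp_all
      rw [rnk_inj z z' h1, h2]

theorem rnk_lt_of_len {z z' : Str} (h : z.length < z'.length) : rnk z < rnk z' := by
  have h1 := rnk_lt z
  have h2 := rnk_ge z'
  have h3 : 2 ^ (z.length + 1) ≤ 2 ^ z'.length := Nat.pow_le_pow_right (by norm_num) h
  omega

/-- index of a string of length `g` -/
noncomputable def bi (g : ℕ) (z : Str) : ℕ := if h : z.length = g then ((bsE g).symm ⟨z, h⟩).1 else 0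

theorem bi_lt {g : ℕ} {z : Str} (h : z.length = g) : bi g z < 2 ^ g := by
  unfold bi
  rw [dif_pos h]
  exact ((bsE g).symm ⟨z, h⟩).2

theorem bi_bs {g y : ℕ} (h : y < 2 ^ g) : bi g (bs g y) = y := by
  unfold bi
  rw [dif_pos (bs_length g y)]
  have h1 : (⟨bs g y, bs_length g y⟩ : List.Vector Bool g) = bsE g ⟨y, h⟩ := by
    apply Subtype.ext
    show bs g y = _
    unfold bs
    rw [dif_pos h]
  rw [h1, Equiv.symm_apply_apply]

/-- positions: the first `g` bits of each string -/
noncomputable def dec (g : ℕ) : ℕ → ℕ → Str → List ℕ → List ℕ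
  | 0, _, _, u => u
  | k + 1, L, r, u => dec g k (2 * L) (r.drop L) (bi g (r.take g) :: u)

theorem dec_getLast (g : ℕ) : ∀ (k L : ℕ) (r : Str) (u : List ℕ) (c : ℕ), u.getLast? = some c →
    (dec g k L r u).getLast? = some c
  | 0, _, _, u, c, h => h
  | k + 1, L, r, u, c, h => by
      rw [dec]
      apply dec_getLast
      rcases u with _ | ⟨a, u⟩
      · simp at h
      · rw [List.getLast?_cons_cons]; exact h

theorem QQ_trN (g : ℕ) (X : Lang) (x : List ℕ → Bool) : ∀ (κ : ℕ) (s : Str) (u : List ℕ),
    g ≤ s.length →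
    (∀ r : Str, r.length = (2 ^ κ - 1) * s.length → X (s ++ r) = x (dec g κ s.length r u)) →
    QQ κ X s = tr (fun _ => 2 ^ g) κ x u
  | 0, s, u, _, h => by
      have := h [] (by simp)
      rw [List.append_nil] at this
      exact this
  | κ + 1, s, u, hg, h => by
      have key : ∀ y : Str, y.length = s.length →
          QQ κ X (s ++ y) = tr (fun _ => 2 ^ g) κ x (bi g (y.take g) :: u) := by
        intro y hy
        have e2 : (s ++ y).length = 2 * s.length := by rw [List.length_append, hy]; ring
        apply QQ_trN g X x κ (s ++ y)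
        · rw [e2]; omega
        · intro r hr
          rw [e2] at hr
          have h1 : (2 ^ (κ + 1) - 1) * s.length = s.length + (2 ^ κ - 1) * (2 * s.length) := by
            obtain ⟨d, hd⟩ : ∃ d, 2 ^ κ = d + 1 := ⟨2 ^ κ - 1, by
              have := Nat.one_le_two_pow (n := κ); omega⟩
            rw [pow_succ, hd]
            have : (d + 1) * 2 - 1 = 2 * d + 1 := by omega
            rw [this, Nat.add_sub_cancel]
            ring
          have h2 := h (y ++ r) (by rw [List.length_append, hy, hr, h1])
          rw [List.append_assoc, h2, e2, dec]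
          rw [← hy, List.drop_left, List.take_append_of_le_length (by omega)]
      rw [QQ_succ, tr, Bool.eq_iff_iff, EE_true, decide_eq_true_iff]
      constructor
      · rintro ⟨y, hy, hy2⟩
        rw [key y hy] at hy2
        exact ⟨bi g (y.take g), bi_lt (by rw [List.length_take]; omega), hy2⟩
      · rintro ⟨b, hb, hb2⟩
        refine ⟨bs g b ++ List.replicate (s.length - g) false, ?_, ?_⟩
        · rw [List.length_append, bs_length, List.length_replicate]; omega
        · rw [key _ (by rw [List.length_append, bs_length, List.length_replicate]; omega)]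
          have : (bs g b ++ List.replicate (s.length - g) false).take g = bs g b := by
            have := bs_length g b
            rw [List.take_append_of_le_length (by omega), List.take_of_length_le (by omega)]
          rw [this, bi_bs hb]
          exact hb2

/-! ### shifts -/

/-- shift the index of the tree -/
def shift (k : ℕ) : List ℕ → List ℕ
  | [] => []
  | [r] => [r + k]
  | y :: z :: u => y :: shift k (z :: u)

theorem shift_cons (k y : ℕ) {u : List ℕ} (h : u ≠ []) : shift k (y :: u) = y :: shift k u := by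
  rcases u with _ | ⟨z, u⟩
  · exact absurd rfl h
  · rfl

theorem shift_ne_nil (k : ℕ) : ∀ {u : List ℕ}, u ≠ [] → shift k u ≠ []
  | [], h => absurd rfl h
  | [r], _ => by simp [shift]
  | y :: z :: u, _ => by simp [shift]

theorem shift_getLast (k : ℕ) : ∀ (u : List ℕ), (shift k u).getLast? = u.getLast?.map (· + k)
  | [] => by simp [shift]
  | [r] => by simp [shift]
  | y :: z :: u => by
      have h := shift_getLast k (z :: u)
      rw [shift, List.getLast?_cons_cons, ← h]
      have h1 := shift_ne_nil k (u := z :: u) (by simp)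
      rcases h2 : shift k (z :: u) with _ | ⟨a, v⟩
      · exact absurd h2 h1
      · rw [List.getLast?_cons_cons]

theorem tr_shift' (m : ℕ → ℕ) (k : ℕ) (x : List ℕ → Bool) : ∀ (j : ℕ) (u : List ℕ), u ≠ [] →
    tr m j (fun p => x (shift k p)) u = tr m j x (shift k u)
  | 0, u, _ => rfl
  | j + 1, u, h => by
      have ih : ∀ y, tr m j (fun p => x (shift k p)) (y :: u) = tr m j x (y :: shift k u) := by
        intro y
        rw [tr_shift' m k x j (y :: u) (by simp), shift_cons k y h]
      rw [tr, tr]
      simp only [ih]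

/-- number of trees for the first `m` contents -/
def rtt (P : Par) (m : ℕ) : ℕ := if P.d = true then 2 * m else m

theorem rtt_add (P : Par) (a b : ℕ) : rtt P (a + b) = rtt P b + rtt P a := by
  unfold rtt; split_ifs <;> ring

theorem rtt_mono (P : Par) {a b : ℕ} (h : a ≤ b) : rtt P a ≤ rtt P b := by
  unfold rtt; split_ifs <;> omega

theorem rtt_le (P : Par) (a : ℕ) : rtt P a ≤ 2 * a := by
  unfold rtt; split_ifs <;> omega

/-- the content with number `c` -/
noncomputable def tval (P : Par) (g : ℕ) (y : List ℕ → Bool) (c : ℕ) : Bool :=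
  if P.d = true then
    xor (tr (fun _ => 2 ^ g) P.h y [2 * c]) (tr (fun _ => 2 ^ g) P.h y [2 * c + 1])
  else tr (fun _ => 2 ^ g) P.h y [c]

theorem tval_shift (P : Par) (g k : ℕ) (x : List ℕ → Bool) (c : ℕ) :
    tval P g (fun p => x (shift (rtt P k) p)) c = tval P g x (k + c) := by
  unfold tval rtt
  split_ifs with h
  · rw [tr_shift' _ _ _ _ _ (by simp), tr_shift' _ _ _ _ _ (by simp)]
    simp only [shift]
    have e1 : 2 * c + 2 * k = 2 * (k + c) := by ring
    have e2 : 2 * c + 1 + 2 * k = 2 * (k + c) + 1 := by ring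
    rw [e1, e2]
  · rw [tr_shift' _ _ _ _ _ (by simp)]
    simp only [shift]
    rw [Nat.add_comm]

theorem agree_shift {r k : ℕ} {x x' : List ℕ → Bool} (h : AgreeBelow (r + k) x x') :
    AgreeBelow r (fun p => x (shift k p)) (fun p => x' (shift k p)) := by
  intro v r' hv hr
  apply h (shift k v) (r' + k)
  · rw [shift_getLast, hv]; rfl
  · omega

theorem agree_mono {r r' : ℕ} {x x' : List ℕ → Bool} (h : AgreeBelow r x x') (hr : r' ≤ r) :
    AgreeBelow r' x x' := fun v r'' hv hr' => h v r'' hv (by omega)

/-! ### positions of the hidden codes -/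

/-- index of the tree of the code with name `z` -/
def rot (P : Par) (j B : ℕ) (z : Str) : ℕ :=
  if P.d = true then
    match z with
    | [] => 1
    | b :: z => 2 * rnk (code j B (false :: z)) + (if b = true then 1 else 0)
  else rnk (code j B z)

theorem rot_lt {P : Par} {j B : ℕ} {z : Str} : rot P j B z < rtt P (2 ^ ((code j B z).length + 1)) := by
  unfold rot rtt
  split_ifs with hd
  · rcases z with _ | ⟨b, z⟩
    · have : 1 ≤ 2 ^ ((code j B []).length + 1) := Nat.one_le_two_pow
      simp only
      omega
    · simp only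
      have h1 := rnk_lt (code j B (false :: z))
      have h2 : (code j B (false :: z)).length = (code j B (b :: z)).length := by
        rw [code_length, code_length]; simp
      rw [h2] at h1
      split_ifs <;> omega
  · exact rnk_lt _

/-- the trees of shorter codes come before -/
theorem rot_lt_of_len {P : Par} {j B j' B' : ℕ} {z z' : Str}
    (h : (code j B z).length < (code j' B' (nm P z')).length) :
    rot P j B z < rtt P (rnk (code j' B' (nm P z'))) := by
  unfold rot rtt
  split_ifs with hd
  · rcases z with _ | ⟨b, z⟩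
    · have := rnk_pos (code j' B' (nm P z'))
      simp only
      omega
    · simp only
      have h2 : (code j B (false :: z)).length = (code j B (b :: z)).length := by
        rw [code_length, code_length]; simp
      have h1 := rnk_lt_of_len (z := code j B (false :: z)) (z' := code j' B' (nm P z')) (by
        rw [h2]; exact h)
      split_ifs <;> omega
  · exact rnk_lt_of_len h

open Classical in
/-- position of a hidden string -/
noncomputable def pos (P : Par) (q : QC) (g : ℕ) (v : Str) : List ℕ :=
  if h : ∃ t : ℕ × NIx × ℕ × Str × Str,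
      q.E t.1 = some (true, t.2.1, t.2.2.1) ∧ v = code t.1 t.2.2.1 t.2.2.2.1 ++ t.2.2.2.2 ∧
      v.length = (code t.1 t.2.2.1 t.2.2.2.1).length * 2 ^ P.h then
    dec g P.h (code h.choose.1 h.choose.2.2.1 h.choose.2.2.2.1).length h.choose.2.2.2.2
      [rot P h.choose.1 h.choose.2.2.1 h.choose.2.2.2.1]
  else [0]

theorem pos_code {P : Par} {q : QC} {g : ℕ} {j : ℕ} {i : NIx} {B : ℕ} {z r : Str}
    (hE : q.E j = some (true, i, B))
    (hl : (code j B z ++ r).length = (code j B z).length * 2 ^ P.h) :
    pos P q g (code j B z ++ r) = dec g P.h (code j B z).length r [rot P j B z] := by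
  have h1 : ∃ t : ℕ × NIx × ℕ × Str × Str,
      q.E t.1 = some (true, t.2.1, t.2.2.1) ∧
      code j B z ++ r = code t.1 t.2.2.1 t.2.2.2.1 ++ t.2.2.2.2 ∧
      (code j B z ++ r).length = (code t.1 t.2.2.1 t.2.2.2.1).length * 2 ^ P.h :=
    ⟨(j, i, B, z, r), hE, rfl, hl⟩
  unfold pos
  rw [dif_pos h1]
  obtain ⟨h2, h3, _⟩ := h1.choose_spec
  have e1 := code_append_j h3
  rw [← e1, hE] at h2
  simp only [Option.some.injEq, Prod.mk.injEq, true_and] at h2
  rw [← e1, ← h2.2] at h3
  have e2 := (code_append_inj h3).2
  have h5 := append_right_cancel_len h3 (by rw [← e2])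
  rw [← e1, ← h5, ← h2.2, ← e2]

/-- the last entry of the position is the index of the tree -/
theorem pos_last {P : Par} {q : QC} {g : ℕ} {v : Str} (h : isH P q v) :
    ∃ j i B z r, q.E j = some (true, i, B) ∧ v = code j B z ++ r ∧
      v.length = (code j B z).length * 2 ^ P.h ∧
      (pos P q g v).getLast? = some (rot P j B z) := by
  obtain ⟨j, i, B, z, r, hE, rfl, hl⟩ := h
  refine ⟨j, i, B, z, r, hE, rfl, hl, ?_⟩
  rw [pos_code hE hl]
  apply dec_getLast
  simp

theorem pos_last_lt {P : Par} {q : QC} {g : ℕ} {v : Str} (h : isH P q v) :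
    ∃ r, (pos P q g v).getLast? = some r ∧ r < rtt P (2 ^ (v.length + 1)) := by
  obtain ⟨j, i, B, z, r, hE, hv, hl, h1⟩ := pos_last (g := g) h
  refine ⟨_, h1, lt_of_lt_of_le rot_lt (rtt_mono P ?_)⟩
  apply Nat.pow_le_pow_right (by norm_num)
  rw [hv, List.length_append]
  omega

/-! ### worlds -/

open Classical in
/-- The oracle which is `X` up to length `lo`, above that `G` on the free strings and `y` on the
hidden strings up to length `hi`. -/
noncomputable def World (P : Par) (q : QC) (g lo hi : ℕ) (X G : Lang) (y : List ℕ → Bool) : Lang :=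
  Phi P q (hi + 1) (mix (lo + 1) X (fun v => if isH P q v then y (pos P q g v) else G v))

section

variable {P : Par} {q : QC} {g lo hi : ℕ} {X G : Lang} {y : List ℕ → Bool}

theorem World_le (hq : WF P q) (hX : Mem P q X) (hlh : lo ≤ hi) {v : Str} (hv : v.length ≤ lo) :
    World P q g lo hi X G y v = X v :=
  Phi_mix_lt hq hX (by omega) _ v (by omega)

theorem World_free (hq : WF P q) (hN : q.N ≤ lo + 1) {v : Str} (hv : lo < v.length)
    (ht : ¬ isTab v) (hp : ¬ isP q v) (hh : ¬ isH P q v) :
    World P q g lo hi X G y v = G v := by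
  unfold World
  rw [Phi_none hq _ (by omega) ht hp (fun h => absurd h hh), mix_ge (by omega), if_neg hh]

theorem World_hid (hq : WF P q) (hN : q.N ≤ lo + 1) {v : Str} (hv : lo < v.length)
    (hv' : v.length ≤ hi) (hh : isH P q v) :
    World P q g lo hi X G y v = y (pos P q g v) := by
  unfold World
  rw [Phi_none hq _ (by omega) (not_isTab_of_isH hq hh) (not_isP_of_isH hh) (fun _ => by omega),
    mix_ge (by omega), if_pos hh]

theorem World_tval (hq : WF P q) (hN : q.N ≤ lo + 1) (hg : g * 2 ^ P.h ≤ lo + 1)
    {j : ℕ} {i : NIx} {B : ℕ} {z : Str} (hE : q.E j = some (true, i, B))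
    (h1 : lo < clen P j B z) (h2 : clen P j B z ≤ hi) :
    val P j B (World P q g lo hi X G y) z = tval P g y (rnk (code j B (nm P z))) := by
  have key : ∀ z' : Str, z'.length = (nm P z).length →
      cd P j B (World P q g lo hi X G y) z' = tr (fun _ => 2 ^ g) P.h y [rot P j B z'] := by
    intro z' hz'
    have hl := clen_eq (P := P) (j := j) (B := B) hz'
    unfold cd
    apply QQ_trN
    · by_contra hcon
      have h3 : (code j B z').length * 2 ^ P.h + 2 ^ P.h ≤ g * 2 ^ P.h := by
        calc (code j B z').length * 2 ^ P.h + 2 ^ P.h = ((code j B z').length + 1) * 2 ^ P.h := by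
              ring
          _ ≤ g * 2 ^ P.h := Nat.mul_le_mul_right _ (by omega)
      have h4 : 1 ≤ 2 ^ P.h := Nat.one_le_two_pow
      omega
    · intro r hr
      have hlen : (code j B z' ++ r).length = (code j B z').length * 2 ^ P.h := by
        rw [List.length_append, hr, Nat.sub_mul, one_mul, mul_comm (2 ^ P.h)]
        have : (code j B z').length * 1 ≤ (code j B z').length * 2 ^ P.h :=
          Nat.mul_le_mul_left _ Nat.one_le_two_pow
        omega
      rw [World_hid hq hN (by omega) (by omega) ⟨j, i, B, z', r, hE, rfl, hlen⟩, pos_code hE hlen]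
  unfold val tval
  split_ifs with hd
  · rw [key (false :: z) (by simp [nm, hd]), key (true :: z) (by simp [nm, hd])]
    simp [rot, hd, nm]
  · rw [key z (by simp [nm, hd])]
    simp [rot, hd, nm]

theorem World_mem (hq : WF P q) (hX : Mem P q X) (hlh : lo ≤ hi) (hN : q.N ≤ lo + 1)
    (hg : g * 2 ^ P.h ≤ lo + 1)
    (h : ∀ j i B z, q.E j = some (true, i, B) → lo < clen P j B z → clen P j B z ≤ hi →
      tval P g y (rnk (code j B (nm P z))) = cnt P i (World P q g lo hi X G y) z) :
    Mem P q (World P q g lo hi X G y) := by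
  apply Phi_mem hq
  intro j i B z hE hN' hc
  show val P j B (World P q g lo hi X G y) z = cnt P i (World P q g lo hi X G y) z
  by_cases hlo : clen P j B z ≤ lo
  · have h1 : ∀ v : Str, v.length ≤ clen P j B z → World P q g lo hi X G y v = X v :=
      fun v hv => World_le hq hX hlh (by omega)
    rw [val_congr (X' := X) (fun v hv => h1 v (by omega)), hX.hid j i B z hE hN',
      cnt_congr' (hq.goodH j i B hE) (j := j) (X := X) (X' := World P q g lo hi X G y)
        (fun v hv => (h1 v (by omega)).symm)]
  · rw [World_tval hq hN hg hE (by omega) (by omega)]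
    exact h j i B z hE (by omega) (by omega)

theorem World_congr (hq : WF P q) {X' G' : Lang} {y' : List ℕ → Bool} (k : ℕ)
    (h1 : ∀ v : Str, v.length ≤ lo → X v = X' v)
    (h2 : ∀ v : Str, lo < v.length → v.length ≤ k → ¬ isH P q v → G v = G' v)
    (h3 : ∀ v : Str, lo < v.length → v.length ≤ k → v.length ≤ hi → isH P q v →
      y (pos P q g v) = y' (pos P q g v)) :
    ∀ v : Str, v.length ≤ k →
      World P q g lo hi X G y v = World P q g lo hi X' G' y' v := by
  unfold World
  apply Phi_unique hq k (Phi_eq hq _)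
  intro v hv hr
  by_cases hlo : v.length ≤ lo
  · rw [mix_lt (by omega), mix_lt (by omega), h1 v hlo]
  · rw [mix_ge (by omega), mix_ge (by omega)]
    by_cases hh : isH P q v
    · rw [if_pos hh, if_pos hh]
      apply h3 v (by omega) hv _ hh
      by_contra hcon
      obtain ⟨j, i, B, z, r, hE, rfl, hl⟩ := hh
      by_cases hNN : q.N ≤ (code j B z ++ r).length
      · rw [rule_leaf hq hE hNN (by omega) hl] at hr
        simp at hr
      · rw [rule_low (by omega)] at hr
        simp at hr
    · rw [if_neg hh, if_neg hh]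
      exact h2 v (by omega) hv hh

/-- the contents which the trees must have -/
noncomputable def contH (P : Par) (q : QC) (lo hi : ℕ) (X : Lang) (c : ℕ) : Bool := by
  classical
  exact if h : ∃ t : ℕ × NIx × ℕ × Str, q.E t.1 = some (true, t.2.1, t.2.2.1) ∧
      c = rnk (code t.1 t.2.2.1 (nm P t.2.2.2)) ∧ lo < clen P t.1 t.2.2.1 t.2.2.2 ∧
      clen P t.1 t.2.2.1 t.2.2.2 ≤ hi then
    cnt P h.choose.2.1 X h.choose.2.2.2 else false

theorem nm_inj {z z' : Str} (h : nm P z = nm P z') : z = z' := by
  unfold nm at h
  split_ifs at h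
  · simpa using h
  · exact h

theorem contH_code {j : ℕ} {i : NIx} {B : ℕ} {z : Str} (hE : q.E j = some (true, i, B))
    (h1 : lo < clen P j B z) (h2 : clen P j B z ≤ hi) :
    contH P q lo hi X (rnk (code j B (nm P z))) = cnt P i X z := by
  have h : ∃ t : ℕ × NIx × ℕ × Str, q.E t.1 = some (true, t.2.1, t.2.2.1) ∧
      rnk (code j B (nm P z)) = rnk (code t.1 t.2.2.1 (nm P t.2.2.2)) ∧
      lo < clen P t.1 t.2.2.1 t.2.2.2 ∧ clen P t.1 t.2.2.1 t.2.2.2 ≤ hi :=
    ⟨(j, i, B, z), hE, rfl, h1, h2⟩
  unfold contH
  rw [dif_pos h]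
  obtain ⟨h3, h4, _, _⟩ := h.choose_spec
  obtain ⟨e1, e2⟩ := code_inj (rnk_inj _ _ h4)
  rw [← e1, hE] at h3
  simp only [Option.some.injEq, Prod.mk.injEq, true_and] at h3
  rw [← h3.1, ← nm_inj e2]

/-- the content `c` only depends on the trees before -/
theorem contH_congr (hq : WF P q) {X' G' : Lang}
    {y' : List ℕ → Bool} {c : ℕ}
    (h1 : ∀ v : Str, v.length ≤ lo → X v = X' v)
    (h2 : ∀ v : Str, lo < v.length → ¬ isH P q v → G v = G' v)
    (h3 : AgreeBelow (rtt P c) y y') :
    contH P q lo hi (World P q g lo hi X G y) c = contH P q lo hi (World P q g lo hi X' G' y') c := by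
  unfold contH
  split_ifs with h
  · obtain ⟨h4, h5, h6, h7⟩ := h.choose_spec
    apply cnt_congr' (hq.goodH _ _ _ h4) (j := h.choose.1)
    intro v hv
    apply World_congr hq (clen P h.choose.1 h.choose.2.2.1 h.choose.2.2.2 - 1) h1
      (fun v hv1 hv2 hv3 => h2 v hv1 hv3) _ v (by omega)
    intro u hu1 hu2 hu3 hh
    obtain ⟨j', i', B', z', r', hE', hu, hl, hlast⟩ := pos_last (g := g) hh
    apply h3 _ _ hlast
    rw [h5]
    apply rot_lt_of_len
    have h8 : u.length < clen P h.choose.1 h.choose.2.2.1 h.choose.2.2.2 := by omega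
    unfold clen at h8
    rw [hl] at h8
    exact lt_of_mul_lt_mul_right h8 (Nat.zero_le _)
  · rfl

end

end Pool.Agent.Lib.Pa76659O
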