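import Pool.Agent.Lib.Pa76659O.Can2

/-!
The limit of a sequence of conditions; members with an infinite polynomial hierarchy.
-/

set_option maxHeartbeats 4000000

namespace Pool.Agent.Lib.Pa76659O

open Pool.Agent.Lib.Pa76659 Pool.Agent.Lib.Pa76659.Hier

theorem exists_diff {P : Par} {K : ℕ} {q : QC} (hq : WF P q) (hg : GoodC P K q) (p : PIx)
    (l : List NIx) : ∃ X, Mem P q X ∧ ∃ s : Str, sEval p l X s ≠ QQ (max l.length K + 1) X s := by
  classical
  by_contra hcon
  push Not at hcon
  set κ := max l.length K with hκ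
  obtain ⟨b, n0, h⟩ := hg p l 1
  obtain ⟨d, hd⟩ := Mb_poly κ b (2 ^ κ) b
  obtain ⟨n1, hn1⟩ := pow_le_two_pow d
  obtain ⟨Y0, hY0⟩ := exists_mem hq
  set n := max (max n0 n1) (max q.N 2) with hn
  have e0 : n0 ≤ n := le_trans (le_max_left _ _) (le_max_left _ _)
  have e1 : n1 ≤ n := le_trans (le_max_right _ _) (le_max_left _ _)
  have e2 : q.N ≤ n := le_trans (le_max_left _ _) (le_max_right _ _)
  have e3 : 2 ≤ n := le_trans (le_max_right _ _) (le_max_right _ _)
  set s : Str := List.replicate n false with hs
  have hsl : s.length = n := by simp [hs]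
  have h1 := h n e0 Y0 hY0 s (by rw [hsl, pow_one])
  -- rename the variables
  have h2 := h1.rename (V' := List ℕ) (S' := Set.univ)
    (fun v => if h : ∃ u : List ℕ, u.length = κ + 1 ∧ Valid s u ∧ es s u = v then
      Sum.inl h.choose else Sum.inr false) (fun _ _ _ _ => trivial)
  refine LB (n ^ b) (n * 2 ^ κ) (2 ^ (n * 2 ^ κ)) le_rfl κ (n ^ b)
    (fun i => 2 ^ (s.length * 2 ^ (κ + 1 - 1 - i))) ?_ (h2.congr ?_)
  · intro i hi
    have h3 := hd n e3 (n ^ b) le_rfl
    have h4 := hn1 n e1
    rw [hsl, Nat.add_sub_cancel]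
    constructor
    · refine (h3.trans h4).trans (Nat.pow_le_pow_right (by norm_num) ?_)
      exact Nat.le_mul_of_pos_right _ (by positivity)
    · apply Nat.pow_le_pow_right (by norm_num)
      exact Nat.mul_le_mul_left _ (Nat.pow_le_pow_right (by norm_num) (Nat.sub_le _ _))
  · intro x
    set Y : Lang := fun v => Sum.elim x id (if h : ∃ u : List ℕ, u.length = κ + 1 ∧
      Valid s u ∧ es s u = v then Sum.inl h.choose else Sum.inr false) with hY
    have h3 := hcon (Phi P q n (mixW n Y0 Y)) ((InF_Phi hq e2 hY0 Y).mem hq e2 hY0) s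
    show sEval p l (Phi P q n (mixW n Y0 Y)) s = _
    rw [h3]
    have h4 := QQ_tr s (κ + 1) (Phi P q n (mixW n Y0 Y)) x (by
      intro u hu hv
      have hlen : n ≤ (es s u).length := by
        rw [es_length, hsl]
        exact Nat.le_mul_of_pos_right _ (by positivity)
      have hfree : FreeC P q (es s u) := by
        obtain ⟨r, hr⟩ := es_prefix s u
        obtain ⟨c, hc⟩ : ∃ c, n = c + 2 := ⟨n - 2, by omega⟩
        rw [hr, hs, hc, List.replicate_succ, List.replicate_succ, List.cons_append,
          List.cons_append]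
        exact ff_free _ _ _
      rw [Phi_none hq _ (e2.trans hlen) hfree.1 hfree.2.1 (fun h => absurd h hfree.2.2.1)]
      unfold mixW
      rw [mix_ge hlen, if_neg hfree.2.2.2]
      have h5 : ∃ u' : List ℕ, u'.length = κ + 1 ∧ Valid s u' ∧ es s u' = es s u :=
        ⟨u, hu, hv, rfl⟩
      simp only [hY]
      rw [dif_pos h5]
      obtain ⟨h6, h7, h8⟩ := h5.choose_spec
      have h9 := es_inj s _ _ (h6.trans hu.symm) h7 hv h8
      simp only [Sum.elim_inl]
      rw [h9]) (κ + 1) [] (by simp) trivial
    exact h4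

/-- The limit of a sequence of conditions. -/
theorem exists_limit {P : Par} (Q : QC → Prop) (R : ℕ → Lang → Prop) (q0 : QC) (hq0 : WF P q0)
    (hP0 : Q q0) (next : ∀ (n : ℕ) (q : QC), WF P q → Q q → ∃ q', WF P q' ∧ Q q' ∧ q.N < q'.N ∧
      (∀ X, Mem P q' X → Mem P q X) ∧ ∀ X, Mem P q' X → R n X) :
    ∃ X, Mem P q0 X ∧ ∀ n, R n X := by
  classical
  let St := {q : QC // WF P q ∧ Q q}
  choose nx h1 h2 h3 h4 h5 using fun (n : ℕ) (a : St) => next n a.1 a.2.1 a.2.2
  let st : ℕ → St := fun n => Nat.rec (⟨q0, hq0, hP0⟩ : St)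
    (fun n a => ⟨nx n a, h1 n a, h2 n a⟩) n
  have hst : ∀ n, (st (n + 1)).1 = nx n (st n) := fun n => rfl
  have hN : ∀ n, n ≤ (st n).1.N := by
    intro n
    induction n with
    | zero => exact Nat.zero_le _
    | succ n ih =>
        have := h3 n (st n)
        rw [hst]; omega
  have hmem : ∀ n m, n ≤ m → ∀ X, Mem P (st m).1 X → Mem P (st n).1 X := by
    intro n m hnm
    induction m, hnm using Nat.le_induction with
    | base => exact fun X h => h
    | succ m _ ih =>
        intro X hX
        rw [hst] at hX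
        exact ih X (h4 m (st m) X hX)
  choose W hW using fun n => exists_mem (st n).2.1
  have hWW : ∀ n m, n ≤ m → ∀ v : Str, v.length < (st n).1.N → W m v = W n v := by
    intro n m hnm v hv
    rw [(hmem n m hnm (W m) (hW m)).low v hv, (hW n).low v hv]
  let X : Lang := fun v => W (v.length + 1) v
  have hX : ∀ n, ∀ v : Str, v.length < (st n).1.N → X v = W n v := by
    intro n v hv
    show W (v.length + 1) v = W n v
    have h6 : v.length < (st (v.length + 1)).1.N := by
      have := hN (v.length + 1); omega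
    rcases le_total n (v.length + 1) with h | h
    · exact hWW n _ h v hv
    · exact (hWW _ n h v h6).symm
  have key : ∀ n m, n ≤ m → Mem P (st n).1 (W m) := fun n m h => hmem n m h (W m) (hW m)
  have hXm : ∀ n, Mem P (st n).1 X := by
    intro n
    refine ⟨?_, ?_, ?_, ?_⟩
    · intro v hv
      rw [hX n v hv]; exact (hW n).low v hv
    · intro v hv ht
      set m := max n (v.length + 1) with hm
      rw [hX m v (by have := hN m; omega)]
      exact (key n m (le_max_left _ _)).tab v hv ht
    · intro j i B x hE hN'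
      set m := max n ((code j B x).length + 1) with hm
      have hlen : (code j B x).length < (st m).1.N := by have := hN m; omega
      rw [hX m _ hlen, (key n m (le_max_left _ _)).col j i B x hE hN']
      apply nEval_col_congr ((st n).2.1.goodP j i B hE) (j := j)
      intro u hu
      exact (hX m u (by omega)).symm
    · intro j i B z hE hN'
      set m := max n (clen P j B z + 1) with hm
      have hlen : clen P j B z < (st m).1.N := by have := hN m; omega
      rw [val_congr (X' := W m) (fun v hv => hX m v (by omega)),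
        (key n m (le_max_left _ _)).hid j i B z hE hN']
      apply cnt_congr' ((st n).2.1.goodH j i B hE) (j := j)
      intro u hu
      exact (hX m u (by omega)).symm
  refine ⟨X, hXm 0, fun n => ?_⟩
  have h6 := hXm (n + 1)
  rw [hst] at h6
  exact h5 n (st n) X h6

/-- Every condition has a member relative to which the hierarchy is infinite. -/
theorem exists_infinite {P : Par} {K : ℕ} {q : QC} (hq : WF P q) (hg : GoodC P K q) :
    ∃ X, Mem P q X ∧ ∀ k, Sig X k ≠ Sig X (k + 1) := by
  have hne : Nonempty (PIx × List NIx) := ⟨((Prog.skip, 0), [])⟩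
  obtain ⟨req, hreq⟩ := exists_surjective_nat (PIx × List NIx)
  obtain ⟨X, hX, hR⟩ := exists_limit (P := P) (GoodC P K)
    (fun n X => ∃ s : Str, sEval (req n).1 (req n).2 X s ≠
      QQ (max (req n).2.length K + 1) X s) q hq hg (by
      intro n q hq hg
      obtain ⟨X, hX, s, hs⟩ := exists_diff hq hg (req n).1 (req n).2
      obtain ⟨m1, hm1⟩ := loc_sEval (req n).1 (req n).2 s.length
      obtain ⟨m2, hm2⟩ := loc_QQ (max (req n).2.length K + 1) s.length
      set M := max (q.N + 1) (max m1 m2 + 1) with hM
      have hNM : q.N ≤ M := by omega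
      refine ⟨freeze q X M, freeze_wf hq X hNM, goodC_freeze hq hg hX hNM, ?_, ?_, ?_⟩
      · show q.N < M; omega
      · intro X' hX'; exact freeze_mem hq hX hNM hX'
      · intro X' hX'
        have h1 : ∀ v : Str, v.length < M → X' v = X v := fun v hv => hX'.low v hv
        refine ⟨s, ?_⟩
        rw [hm1 X' X (fun v hv => h1 v (by omega)) s le_rfl,
          hm2 X' X (fun v hv => h1 v (by omega)) s le_rfl]
        exact hs)
  refine ⟨X, hX, fun k hk => ?_⟩
  have h1 := sig_collapse hk
  have h2 : QQ (max k K + 1) X ∈ Sig X k := by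
    have h3 := QQ_mem X (max k K + 1)
    rwa [show max k K + 1 = k + (max k K + 1 - k) by omega, h1,
      show k + (max k K + 1 - k) = max k K + 1 by omega] at h3
  obtain ⟨p, l, hl, h4⟩ := exists_sEval h2
  obtain ⟨n, hn⟩ := hreq (p, l)
  obtain ⟨s, hs⟩ := hR n
  rw [hn] at hs
  simp only [hl, ← h4] at hs
  exact hs rfl

end Pool.Agent.Lib.Pa76659O
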