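import Pool.Agent.Lib.Pa76659O.DiffW
import Pool.Agent.Lib.Pa76659O.Inf
import Pool.Agent.Lib.Pa76659.Final
import Pool.Agent.Lib.Pa76659P.Tabs

/-!
The construction of the oracle.
-/

set_option maxHeartbeats 4000000

namespace Pool.Agent.Lib.Pa76659O

open Pool.Agent.Lib.Pa76659 Pool.Agent.Lib.Pa76659P Pool.Agent.Lib.Pa76659.Hier

/-- requirements -/
abbrev Rq := ((PIx × List NIx) ⊕ (PIx × PIx × List NIx)) ⊕
  ((NIx × PIx × List NIx) ⊕ (NIx × (PIx × PIx × List NIx) × PIx × List NIx))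

/-- the requirement is met by the oracle -/
def Ok (P : Par) (X : Lang) : Rq → Prop
  | Sum.inl (Sum.inl (p, l)) => ¬ Gen p l X ∨
      ∃ s : Str, sEval p l X s ≠ J (l.length + 1) (join X X) s
  | Sum.inl (Sum.inr (p', p, l)) => l.length = gg P →
      ∃ s : Str, mach P p' p l X s ≠ QQ (kp P) (regW X) s
  | Sum.inr (Sum.inl (i, p0, l0)) => l0 ≠ [] →
      (∃ j B, ∀ z, val P j B X z = cnt P i X z) ∨
      (∃ s : Str, J l0.length (ZZ i X) s ≠ sEval p0 l0 X s)
  | Sum.inr (Sum.inr (i, (p', p, l), p0, l0)) => gg P ≠ 0 → l.length = gg P → l0 ≠ [] →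
      (∃ j B, ∀ x, X (code j B x) = nEval i X x) ∨
      (∃ s : Str, J (gg P) (ZZ i X) s ≠ mach P p' p l X s) ∨
      (∃ s : Str, J l0.length (ZZ i X) s ≠ sEval p0 l0 X s)

/-- the invariant of the construction -/
structure Inv (P : Par) (q : QC) : Prop where
  can : ∃ K, GoodC P (K + 1) q
  adv : GoodA P q
  univ : ∀ X, Mem P q X → Univ2 X

theorem inv_freeze {P : Par} {q : QC} (hq : WF P q) (h : Inv P q) {X : Lang} (hX : Mem P q X)
    {M : ℕ} (hM : q.N ≤ M) : Inv P (freeze q X M) := by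
  obtain ⟨K, hK⟩ := h.can
  exact ⟨⟨K, goodC_freeze hq hK hX hM⟩, goodA_freeze hq h.adv hX hM,
    fun X' hX' => h.univ X' (freeze_mem hq hX hM hX')⟩

theorem univ_of_univ2 {X : Lang} (h : Univ2 X) : Univ X := by
  intro p l hl
  obtain ⟨j, B, h1⟩ := h p l hl
  exact ⟨j, B, fun x => h1 X x⟩

theorem loc_regW : Loc regW := by
  intro n
  refine ⟨n + 2, fun O O' h x hx => ?_⟩
  unfold regW
  apply h
  simp only [List.length_cons]
  omega

theorem loc_ZZ (i : NIx) : Loc (ZZ i) := loc_join (loc_join (loc_nEval i))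

theorem loc_mach (P : Par) (p' p : PIx) (l : List NIx) : Loc (mach P p' p l) := by
  unfold mach
  split_ifs
  · exact loc_sEval p l
  · exact (loc_sEval p' []).comp (loc_sEval p l)

/-- what a step of the construction has to provide -/
def Step (P : Par) (q : QC) (R : Lang → Prop) : Prop := ∃ q' : QC, WF P q' ∧ Inv P q' ∧
  q.N < q'.N ∧ (∀ X, Mem P q' X → Mem P q X) ∧ ∀ X, Mem P q' X → R X

/-- freeze a property of a member -/
theorem step_freeze {P : Par} {q : QC} (hq : WF P q) (hi : Inv P q) {X : Lang} (hX : Mem P q X)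
    {R : Lang → Prop} (m : ℕ) (h : ∀ X' : Lang, (∀ v : Str, v.length < m → X' v = X v) → R X') :
    Step P q R := by
  have hNM : q.N ≤ max (q.N + 1) m := by omega
  refine ⟨freeze q X (max (q.N + 1) m), freeze_wf hq X hNM, inv_freeze hq hi hX hNM, ?_,
    fun X' hX' => freeze_mem hq hX hNM hX', fun X' hX' => h X' ?_⟩
  · show q.N < max (q.N + 1) m
    omega
  · intro v hv
    apply hX'.low
    show v.length < max (q.N + 1) m
    omega

theorem step_skip {P : Par} {q : QC} (hq : WF P q) (hi : Inv P q) {R : Lang → Prop}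
    (h : ∀ X, R X) : Step P q R := by
  obtain ⟨X, hX⟩ := exists_mem hq
  exact step_freeze hq hi hX 0 (fun X' _ => h X')

theorem step_gen {P : Par} {q : QC} (hq : WF P q) (hi : Inv P q) (p : PIx) (l : List NIx) :
    Step P q (fun X => Ok P X (Sum.inl (Sum.inl (p, l)))) := by
  obtain ⟨K, hK⟩ := hi.can
  by_cases hG : ∃ X, Mem P q X ∧ ¬ Gen p l X
  · obtain ⟨X, hX, hG⟩ := hG
    obtain ⟨m, hm⟩ := gen_local hG
    exact step_freeze hq hi hX (m + 1) (fun X' h => Or.inl (hm X' (fun v hv => h v (by omega))))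
  · push Not at hG
    obtain ⟨X, hX, hinf⟩ := exists_infinite hq hK
    have h1 : sEval p l X ≠ J (l.length + 1) (join X X) := by
      intro h
      apply univ_not_mem (univ_of_univ2 (hi.univ X hX)) hinf l.length
      rw [← h]
      exact sEval_mem (hG X hX)
    obtain ⟨s, hs⟩ := Function.ne_iff.1 h1
    obtain ⟨m1, hm1⟩ := loc_sEval p l s.length
    obtain ⟨m2, hm2⟩ := ((loc_J (l.length + 1)).comp (loc_join loc_id)) s.length
    refine step_freeze hq hi hX (max m1 m2 + 1) (fun X' h => Or.inr ⟨s, ?_⟩)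
    have h2 := hm2 X' X (fun v hv => h v (by omega)) s le_rfl
    beta_reduce at h2
    rw [hm1 X' X (fun v hv => h v (by omega)) s le_rfl, h2]
    exact hs

theorem step_wit {P : Par} {q : QC} (hq : WF P q) (hi : Inv P q) (hh : 1 ≤ P.h) (p' p : PIx)
    (l : List NIx) : Step P q (fun X => Ok P X (Sum.inl (Sum.inr (p', p, l)))) := by
  by_cases hl : l.length = gg P
  · obtain ⟨X, hX, s, hs⟩ := exists_diffW hq hi.adv hh p' p l hl
    obtain ⟨m1, hm1⟩ := loc_mach P p' p l s.length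
    obtain ⟨m2, hm2⟩ := ((loc_QQ (kp P)).comp loc_regW) s.length
    refine step_freeze hq hi hX (max m1 m2 + 1) (fun X' h => ?_)
    intro _
    refine ⟨s, ?_⟩
    have h2 := hm2 X' X (fun v hv => h v (by omega)) s le_rfl
    beta_reduce at h2
    rw [hm1 X' X (fun v hv => h v (by omega)) s le_rfl, h2]
    exact hs
  · exact step_skip hq hi (fun X h => absurd h hl)

/-- the condition after a new column -/
theorem step_col {P : Par} {q : QC} (hq : WF P q) (hi : Inv P q) {b : Bool} {i : NIx}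
    {p0 : PIx} {l0 : List NIx} (hlow : LOW P l0.length q i p0 l0)
    (hm : b = false → gg P ≠ 0 ∧ ∃ p' p l, l.length = gg P ∧ LOWm P q i p' p l)
    {R : Lang → Prop} (hR : ∀ X j B, (b = true → ∀ z, val P j B X z = cnt P i X z) →
      (b = false → ∀ x, X (code j B x) = nEval i X x) → R X) : Step P q R := by
  obtain ⟨K, hK⟩ := hi.can
  obtain ⟨l1, hl1, hlow1⟩ := LOW_add hlow rfl (K + 1)
  have e1 : l0.length + (K + 1) = (K + l0.length) + 1 := by ring
  rw [e1] at hl1 hlow1
  have hg1 := hK.mono (show K + 1 ≤ (K + l0.length) + 1 by omega)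
  obtain ⟨X0, hX0⟩ := exists_mem hq
  have hNM : q.N ≤ 2 * q.N + 2 := by omega
  obtain ⟨B, hB⟩ : ∃ B, GoodB P b i B := by
    unfold GoodB
    cases b
    · obtain ⟨B, hB⟩ := exists_goodCol i
      exact ⟨B, by simpa using hB⟩
    · obtain ⟨B, hB⟩ := exists_goodHid P i
      exact ⟨B, by simpa using hB⟩
  have hq2 := freeze_wf hq X0 hNM
  have hi2 := inv_freeze hq hi hX0 hNM
  have hg2 := goodC_freeze hq hg1 hX0 hNM
  have hlow2 : LOW P ((K + l0.length) + 1) (freeze q X0 (2 * q.N + 2)) i p0 l1 :=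
    fun X hX s => hlow1 X (freeze_mem hq hX0 hNM hX) s
  have hE : (freeze q X0 (2 * q.N + 2)).E (2 * q.N + 3) = none :=
    hq.fin (2 * q.N + 3) (by omega)
  have hN3 : (freeze q X0 (2 * q.N + 2)).N ≤ (2 * q.N + 3) + 3 := by
    show 2 * q.N + 2 ≤ _; omega
  have hjN : 2 * q.N + 3 < (freeze q X0 (2 * q.N + 2)).N + 2 := by
    show _ < 2 * q.N + 2 + 2; omega
  have hodd : (2 * q.N + 3) % 2 = 1 := by omega
  have hlit := litE_of_low hq2 hg2 hl1 hlow2 (2 * q.N + 3) b B
  have hadv : GoodA P (addc (freeze q X0 (2 * q.N + 2)) (2 * q.N + 3) b i B) := by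
    cases b with
    | true => exact goodA_hid hi2.adv hE
    | false =>
        obtain ⟨h0, p', p, l, hl, hlm⟩ := hm rfl
        obtain ⟨K', hK'⟩ : ∃ K', gg P = K' + 1 := ⟨gg P - 1, by omega⟩
        exact goodA_addc hq2 hi2.adv hK' (by simpa [GoodB] using hB) hE hl
          (fun X hX s => hlm X (freeze_mem hq hX0 hNM hX) s)
  have hdown : ∀ X, Mem P (addc (freeze q X0 (2 * q.N + 2)) (2 * q.N + 3) b i B) X →
      Mem P q X := fun X hX => freeze_mem hq hX0 hNM (addc_mem hE hX)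
  refine ⟨addc (freeze q X0 (2 * q.N + 2)) (2 * q.N + 3) b i B,
    addc_wf hq2 (by rintro rfl; simpa [GoodB] using hB) (by rintro rfl; simpa [GoodB] using hB)
      hjN hodd,
    ⟨⟨K + l0.length, goodC_addc hq2 hlit hB hE hg2 hjN hodd⟩, hadv,
      fun X hX => hi.univ X (hdown X hX)⟩, ?_, hdown, ?_⟩
  · show q.N < 2 * q.N + 2; omega
  · intro X hX
    apply hR X (2 * q.N + 3) B
    · rintro rfl z
      exact addc_hid hN3 hX z
    · rintro rfl x
      exact addc_col hN3 hX x

theorem step_hid {P : Par} {q : QC} (hq : WF P q) (hi : Inv P q) (i : NIx) (p0 : PIx)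
    (l0 : List NIx) : Step P q (fun X => Ok P X (Sum.inr (Sum.inl (i, p0, l0)))) := by
  by_cases hl0 : l0 = []
  · exact step_skip hq hi (fun X h => absurd hl0 h)
  by_cases hlow : LOW P l0.length q i p0 l0
  · exact step_col (b := true) hq hi hlow (fun h => by simp at h)
      (fun X j B h1 _ _ => Or.inl ⟨j, B, h1 rfl⟩)
  · unfold LOW at hlow
    push Not at hlow
    obtain ⟨X, hX, s, hs⟩ := hlow
    obtain ⟨m1, hm1⟩ := loc_sEval p0 l0 s.length
    obtain ⟨m2, hm2⟩ := ((loc_J l0.length).comp (loc_ZZ i)) s.length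
    refine step_freeze hq hi hX (max m1 m2 + 1) (fun X' h _ => Or.inr ⟨s, ?_⟩)
    have h2 := hm2 X' X (fun v hv => h v (by omega)) s le_rfl
    beta_reduce at h2
    rw [hm1 X' X (fun v hv => h v (by omega)) s le_rfl, h2]
    exact hs

theorem step_pcol {P : Par} {q : QC} (hq : WF P q) (hi : Inv P q) (i : NIx) (p' p : PIx)
    (l : List NIx) (p0 : PIx) (l0 : List NIx) :
    Step P q (fun X => Ok P X (Sum.inr (Sum.inr (i, (p', p, l), p0, l0)))) := by
  by_cases h0 : gg P = 0
  · exact step_skip hq hi (fun X h => absurd h0 h)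
  by_cases hl : l.length = gg P
  swap
  · exact step_skip hq hi (fun X _ h => absurd h hl)
  by_cases hl0 : l0 = []
  · exact step_skip hq hi (fun X _ _ h => absurd hl0 h)
  by_cases hlow : LOW P l0.length q i p0 l0
  · by_cases hlm : LOWm P q i p' p l
    · exact step_col (b := false) hq hi hlow (fun _ => ⟨h0, p', p, l, hl, hlm⟩)
        (fun X j B _ h2 _ _ _ => Or.inl ⟨j, B, h2 rfl⟩)
    · unfold LOWm at hlm
      push Not at hlm
      obtain ⟨X, hX, s, hs⟩ := hlm
      obtain ⟨m1, hm1⟩ := loc_mach P p' p l s.length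
      obtain ⟨m2, hm2⟩ := ((loc_J (gg P)).comp (loc_ZZ i)) s.length
      refine step_freeze hq hi hX (max m1 m2 + 1) (fun X' h _ _ _ => Or.inr (Or.inl ⟨s, ?_⟩))
      have h2 := hm2 X' X (fun v hv => h v (by omega)) s le_rfl
      beta_reduce at h2
      rw [hm1 X' X (fun v hv => h v (by omega)) s le_rfl, h2]
      exact hs
  · unfold LOW at hlow
    push Not at hlow
    obtain ⟨X, hX, s, hs⟩ := hlow
    obtain ⟨m1, hm1⟩ := loc_sEval p0 l0 s.length
    obtain ⟨m2, hm2⟩ := ((loc_J l0.length).comp (loc_ZZ i)) s.length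
    refine step_freeze hq hi hX (max m1 m2 + 1) (fun X' h _ _ _ => Or.inr (Or.inr ⟨s, ?_⟩))
    have h2 := hm2 X' X (fun v hv => h v (by omega)) s le_rfl
    beta_reduce at h2
    rw [hm1 X' X (fun v hv => h v (by omega)) s le_rfl, h2]
    exact hs

theorem step_all {P : Par} {q : QC} (hq : WF P q) (hi : Inv P q) (hh : 1 ≤ P.h) (r : Rq) :
    Step P q (fun X => Ok P X r) := by
  rcases r with (⟨p, l⟩ | ⟨p', p, l⟩) | (⟨i, p0, l0⟩ | ⟨i, ⟨p', p, l⟩, p0, l0⟩)
  · exact step_gen hq hi p l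
  · exact step_wit hq hi hh p' p l
  · exact step_hid hq hi i p0 l0
  · exact step_pcol hq hi i p' p l p0 l0

/-- the oracle -/
theorem exists_oracleO (P : Par) (hh : 1 ≤ P.h) : ∃ X : Lang, Univ2 X ∧
    (∃ j B, ∀ z, val P j B X z = cnt P iW X z) ∧ ∀ r : Rq, Ok P X r := by
  have hne : Nonempty Rq := ⟨Sum.inl (Sum.inl ((Prog.skip, 0), []))⟩
  obtain ⟨req, hreq⟩ := exists_surjective_nat Rq
  obtain ⟨τ, hτ⟩ := exists_tables2
  set q0 : QC := ⟨0, fun _ => false, τ, fun _ => none⟩ with hq0def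
  have hq0 : WF P q0 :=
    ⟨fun j i B h => by simp [hq0def] at h, fun j i B h => by simp [hq0def] at h,
      fun j _ => rfl, fun j c h => by simp [hq0def] at h⟩
  have hE0 : ∀ j, q0.E j = none := fun j => rfl
  obtain ⟨B, hB⟩ := exists_goodHid P iW
  have hB' : GoodB P true iW B := by simpa [GoodB] using hB
  set q1 : QC := addc q0 1 true iW B with hq1def
  have hq1 : WF P q1 := addc_wf hq0 (by simp) (fun _ => hB) (by show 1 < 0 + 2; omega) (by norm_num)
  have hi1 : Inv P q1 := by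
    refine ⟨⟨0, goodC_addc hq0 (litE_witness P 1 hE0 1 true B) hB' (hE0 1)
      (goodC_init P 1 hq0 hE0) (by show 1 < 0 + 2; omega) (by norm_num)⟩, ?_, ?_⟩
    · apply goodA_init P
      intro j i B' h
      by_cases hj : j = 1
      · subst hj
        rw [hq1def, addc_E_self] at h
        simp at h
      · rw [hq1def, addc_E_ne hj, hE0] at h
        simp at h
    · intro X hX
      exact hτ X fun v hv => (addc_mem (hE0 1) hX).tab v (Nat.zero_le _) hv
  obtain ⟨X, hX0, hX⟩ := exists_limit (P := P) (Inv P) (fun n X => Ok P X (req n)) q1 hq1 hi1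
    (fun n q hq hi => step_all hq hi hh (req n))
  refine ⟨X, hi1.univ X hX0, ⟨1, B, fun z => addc_hid (by show 0 ≤ _; omega) hX0 z⟩, fun r => ?_⟩
  obtain ⟨n, rfl⟩ := hreq r
  exact hX n

end Pool.Agent.Lib.Pa76659O
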