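import Pool.Agent.Lib.Pa76659O.Can
import Pool.Agent.Lib.Pa76659O.Forest

/-!
Representations of the machines by circuits over the strings of the oracle and the positions of a
forest which holds auxiliary contents.
-/

set_option maxHeartbeats 4000000

namespace Pool.Agent.Lib.Pa76659O

open Pool.Agent.Lib.Pa76659 Pool.Agent.Lib.Pa76659P Pool.Agent.Lib.Pa76659.Hier

/-- variables of the representations -/
def SV (P : Par) (S : Set Str) (m : ℕ) : Set (Str ⊕ List ℕ) :=
  {u | (∀ v, u = Sum.inl v → v ∈ S) ∧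
    ∀ p, u = Sum.inr p → ∃ r, p.getLast? = some r ∧ r < rtt P m}

theorem SV_mono {P : Par} {S S' : Set Str} {m m' : ℕ} (h : S ⊆ S') (hm : m ≤ m') :
    SV P S m ⊆ SV P S' m' := by
  rintro u ⟨h1, h2⟩
  refine ⟨fun v hv => h (h1 v hv), fun p hp => ?_⟩
  obtain ⟨r, h3, h4⟩ := h2 p hp
  exact ⟨r, h3, lt_of_lt_of_le h4 (rtt_mono P hm)⟩

/-- gate at the top -/
def TOK (P : Par) (b : ℕ) {M : ℕ} (T : DT (Fin M) Bool) : Prop :=
  if P.d = true then ∃ ν, T = vr ν else T.depth ≤ b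

theorem TOK.mono {P : Par} {b b' M : ℕ} {T : DT (Fin M) Bool} (h : TOK P b T) (hb : b ≤ b') :
    TOK P b' T := by
  unfold TOK at h ⊢
  split_ifs at h ⊢
  · exact h
  · exact h.trans hb

/-- number of bits of the fan-ins -/
def gl (P : Par) (n : ℕ) : ℕ := n / 2 ^ P.h

/-- representation -/
def RepF (P : Par) (n b : ℕ) (S : Set Str) (VX : Set Lang) {ι : Type} (f : ι → Lang → Bool) :
    Prop :=
  ∃ m : ℕ, m ≤ 2 ^ (n ^ b) ∧ ∃ cont : ℕ → Lang → (List ℕ → Bool) → Bool,
    (∀ r X x x', AgreeBelow (rtt P r) x x' → cont r X x = cont r X x') ∧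
    ∃ M : ℕ, M ≤ 2 ^ (n ^ b) ∧ ∃ Q : Fin M → (Str ⊕ List ℕ → Bool) → Bool,
      (∀ ν, IsC (SV P S m) (n ^ b) (n ^ b) (gg P) (Q ν)) ∧
      ∃ T : ι → DT (Fin M) Bool, (∀ i, TOK P (n ^ b) (T i)) ∧
        ∀ X ∈ VX, ∀ x : List ℕ → Bool, (∀ r < m, tval P (gl P n) x r = cont r X x) →
          ∀ i, (T i).eval (fun ν => Q ν (Sum.elim X x)) = f i X

theorem RepF.mono {P : Par} {n b b' : ℕ} (hn : 1 ≤ n) (hb : b ≤ b') {S S' : Set Str} (hS : S ⊆ S')
    {VX VX' : Set Lang} (hV : VX' ⊆ VX) {ι : Type} {f : ι → Lang → Bool}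
    (h : RepF P n b S VX f) : RepF P n b' S' VX' f := by
  obtain ⟨m, hm, cont, hc, M, hM, Q, hQ, T, hT, h1⟩ := h
  have h2 : n ^ b ≤ n ^ b' := Nat.pow_le_pow_right hn hb
  have h3 : 2 ^ (n ^ b) ≤ 2 ^ (n ^ b') := Nat.pow_le_pow_right (by norm_num) h2
  exact ⟨m, hm.trans h3, cont, hc, M, hM.trans h3, Q,
    fun ν => (hQ ν).mono (SV_mono hS le_rfl) h2 h2, T, fun i => (hT i).mono h2,
    fun X hX => h1 X (hV hX)⟩

/-- strings -/
def SA (q : QC) (n b : ℕ) : Set Str := {v | n ≤ v.length ∧ v.length ≤ n ^ b ∧ ¬ isTab v ∧ ¬ isP q v}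

theorem SA_mono {q : QC} {n b b' : ℕ} (hn : 1 ≤ n) (hb : b ≤ b') : SA q n b ⊆ SA q n b' :=
  fun _ ⟨h1, h2, h3⟩ => ⟨h1, h2.trans (Nat.pow_le_pow_right hn hb), h3⟩

/-- members -/
def VA (P : Par) (q : QC) (n : ℕ) (Y0 : Lang) : Set Lang :=
  {X | Mem P q X ∧ ∀ v : Str, v.length < n → X v = Y0 v}

/-- the machines have representations on the members -/
def GoodA (P : Par) (q : QC) : Prop := ∀ (p' p : PIx) (l : List NIx) (a : ℕ), l.length = gg P →
  ∃ b n0 : ℕ, ∀ n : ℕ, n0 ≤ n → ∀ Y0 : Lang, Mem P q Y0 →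
    RepF P n b (SA q n b) (VA P q n Y0)
      (fun (z : {z : Str // z.length ≤ n ^ a}) X => mach P p' p l X z.1)

theorem goodA_freeze {P : Par} {q : QC} (hq : WF P q) (hg : GoodA P q) {X : Lang} (hX : Mem P q X)
    {M : ℕ} (hM : q.N ≤ M) : GoodA P (freeze q X M) := by
  intro p' p l a hl
  obtain ⟨b, n0, h⟩ := hg p' p l a hl
  refine ⟨b, max n0 1, fun n hn Y0 hY0 => ?_⟩
  refine (h n (le_trans (le_max_left _ _) hn) Y0 (freeze_mem hq hX hM hY0)).mono
    (le_trans (le_max_right _ _) hn) le_rfl (subset_refl _) ?_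
  rintro X' ⟨h1, h2⟩
  exact ⟨freeze_mem hq hX hM h1, h2⟩

theorem goodA_hid {P : Par} {q : QC} (hg : GoodA P q) {j : ℕ} {i : NIx} {B : ℕ}
    (hj : q.E j = none) : GoodA P (addc q j true i B) := by
  intro p' p l a hl
  obtain ⟨b, n0, h⟩ := hg p' p l a hl
  refine ⟨b, max n0 1, fun n hn Y0 hY0 => ?_⟩
  refine (h n (le_trans (le_max_left _ _) hn) Y0 (addc_mem hj hY0)).mono
    (le_trans (le_max_right _ _) hn) le_rfl ?_ ?_
  · rintro v ⟨h1, h2, h3, h4⟩
    refine ⟨h1, h2, h3, ?_⟩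
    rintro ⟨j', i', B', x, hE, hv⟩
    by_cases hjj : j' = j
    · subst hjj
      rw [addc_E_self] at hE
      simp at hE
    · rw [addc_E_ne hjj] at hE
      exact h4 ⟨j', i', B', x, hE, hv⟩
  · rintro X' ⟨h1, h2⟩
    exact ⟨addc_mem hj h1, h2⟩

/-- strings as indices -/
noncomputable def enS (M : ℕ) (u : Str) : DT (Fin M) Bool :=
  if h : rnk u < M then vr ⟨rnk u, h⟩ else DT.leaf false

theorem enS_eval {M : ℕ} {u : Str} (h : rnk u < M) (x : Fin M → Bool) :
    (enS M u).eval x = x ⟨rnk u, h⟩ := by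
  unfold enS
  rw [dif_pos h, vr_eval]

theorem enS_depth (M : ℕ) (u : Str) : (enS M u).depth ≤ 1 := by
  unfold enS
  split_ifs
  · exact (vr_depth _).le
  · simp [DT.depth]

/-- no columns -/
theorem goodA_init (P : Par) {q : QC} (hE : ∀ j i B, q.E j ≠ some (false, i, B)) :
    GoodA P q := by
  classical
  intro p' p l a hl
  have hp : ∀ v, ¬ isP q v := by
    rintro v ⟨j, i, B, x, h, _⟩
    exact hE j i B h
  obtain ⟨b, hb⟩ := sEval_isC p l
  -- bound for the questions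
  obtain ⟨c, hc⟩ := poly_le (Polynomial.X ^ a + p'.2.comp (Polynomial.X ^ a))
  obtain ⟨e, he⟩ := poly_le (Polynomial.X ^ ((c + 1) * b) + Polynomial.X ^ c + 1)
  refine ⟨e, max 2 q.N, fun n hn Y0 hY0 => ?_⟩
  have hn2 : 2 ≤ n := le_trans (le_max_left _ _) hn
  have hnN : q.N ≤ n := le_trans (le_max_right _ _) hn
  have hc' := hc n hn2
  have he' := he n hn2
  simp only [Polynomial.eval_add, Polynomial.eval_pow, Polynomial.eval_comp,
    Polynomial.eval_X, Polynomial.eval_one] at hc' he'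
  set M : ℕ := 2 ^ (n ^ c + 1) with hM
  have h0 : 2 ≤ n ^ (c + 1) := by
    calc 2 ≤ n := hn2
      _ = n ^ 1 := by ring
      _ ≤ n ^ (c + 1) := Nat.pow_le_pow_right (by omega) (by omega)
  have hrk : ∀ u : Str, u.length ≤ n ^ c → rnk u < M := by
    intro u hu
    refine lt_of_lt_of_le (rnk_lt u) ?_
    rw [hM]
    exact Nat.pow_le_pow_right (by norm_num) (by omega)
  let φ : Str → (Str ⊕ List ℕ) ⊕ Bool := fun v =>
    if v.length < n then Sum.inr (Y0 v) else if isTab v then Sum.inr (q.τ v)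
    else Sum.inl (Sum.inl v)
  have hφ : ∀ X ∈ VA P q n Y0, ∀ x : List ℕ → Bool, (fun v => Sum.elim (Sum.elim X x) id (φ v)) = X := by
    rintro X ⟨h1, h2⟩ x
    funext v
    simp only [φ]
    split_ifs with h3 h4
    · rw [h2 v h3]; rfl
    · rw [h1.tab v (by omega) h4]; rfl
    · rfl
  have hbe : n ^ ((c + 1) * b) ≤ n ^ e := by omega
  have hcirc : ∀ z : Str, z.length ≤ n ^ c → IsC (SV P (SA q n e) 0) (n ^ e) (n ^ e) (gg P)
      (fun Y => sEval p l (fun v => Sum.elim Y id (φ v)) z) := by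
    intro z hz
    have h1 := hb (n ^ (c + 1)) h0 z
      (hz.trans (Nat.pow_le_pow_right (by omega) (by omega)))
    rw [← pow_mul, hl] at h1
    refine (h1.rename (S' := SV P (SA q n e) 0) φ ?_).mono (subset_refl _) hbe hbe
    intro v hv v' hvv'
    simp only [φ] at hvv'
    split_ifs at hvv' with h3 h4
    simp only [Sum.inl.injEq] at hvv'
    subst hvv'
    refine ⟨fun w hw => ?_, fun p hp => by simp at hp⟩
    simp only [Sum.inl.injEq] at hw
    subst hw
    exact ⟨by omega, le_trans hv hbe, h4, hp _⟩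
  refine ⟨0, Nat.zero_le _, fun _ _ _ => false, fun _ _ _ _ _ => rfl, M, ?_,
    fun ν => if h : ∃ z : Str, z.length ≤ n ^ c ∧ rnk z = ν.1 then
      fun Y => sEval p l (fun v => Sum.elim Y id (φ v)) h.choose else fun _ => false, ?_,
    fun z => if P.d = true then vr ⟨rnk z.1, hrk z.1 (z.2.trans (by omega))⟩ else
      (accTree p'.1 (inp z.1) (p'.2.eval z.1.length)).subst (enS M), ?_, ?_⟩
  · rw [hM]
    exact Nat.pow_le_pow_right (by norm_num) (by omega)
  · intro ν
    beta_reduce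
    split_ifs with h
    · exact hcirc _ h.choose_spec.1
    · exact IsC.const _ _ _ _ _
  · rintro ⟨z, hz⟩
    unfold TOK
    beta_reduce
    by_cases hd : P.d = true
    · rw [if_pos hd, if_pos hd]
      exact ⟨_, rfl⟩
    · rw [if_neg hd, if_neg hd]
      have h1 := DT.depth_subst (enS M) Set.univ 1 (fun u _ => enS_depth M u)
        (accTree p'.1 (inp z) (p'.2.eval z.length)) (qin_univ _)
      have h2 := accTree_depth p'.1 (inp z) (p'.2.eval z.length)
      have h3 := poly_mono p'.2 hz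
      refine h1.trans ?_
      omega
  · intro X hX x _
    rintro ⟨z, hz⟩
    have key : ∀ (u : Str) (hu : u.length ≤ n ^ c),
        (if h : ∃ z : Str, z.length ≤ n ^ c ∧ rnk z = rnk u then
          (fun Y => sEval p l (fun v => Sum.elim Y id (φ v)) h.choose : (Str ⊕ List ℕ → Bool) → Bool)
          else fun _ => false) (Sum.elim X x) = sEval p l X u := by
      intro u hu
      have h : ∃ z : Str, z.length ≤ n ^ c ∧ rnk z = rnk u := ⟨u, hu, rfl⟩
      rw [dif_pos h]
      rw [hφ X hX x, rnk_inj _ _ h.choose_spec.2]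
    unfold mach
    beta_reduce
    by_cases hd : P.d = true
    · rw [if_pos hd, if_pos hd, vr_eval]
      exact key z (hz.trans (by omega))
    · rw [if_neg hd, if_neg hd, DT.eval_subst]
      have h3 := poly_mono p'.2 hz
      have hq : (accTree p'.1 (inp z) (p'.2.eval z.length)).QIn {v : Str | v.length ≤ n ^ c} :=
        (accTree_qin _ _ _ _ (inp_bdd z)).mono (by
          intro v hv
          have hv' : v.length ≤ z.length + p'.2.eval z.length := hv
          show v.length ≤ n ^ c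
          omega)
      rw [DT.eval_congr (y := sEval p l X) _ hq, accTree_eval]
      · rfl
      · intro u hu
        rw [enS_eval (hrk u hu)]
        exact key u hu

end Pool.Agent.Lib.Pa76659O
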