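import Pool.Agent.Lib.Pa76659O.Rep

/-!
Adding a column for a low set: representations of the machines.
-/

set_option maxHeartbeats 4000000

namespace Pool.Agent.Lib.Pa76659O

open Pool.Agent.Lib.Pa76659 Pool.Agent.Lib.Pa76659P Pool.Agent.Lib.Pa76659.Hier

/-- strings which may still be asked -/
def SPL (q : QC) (j B n L c : ℕ) : Set Str :=
  {v | n ≤ v.length ∧ v.length ≤ n ^ c ∧ ¬ isTab v ∧ ¬ isP q v ∧
    ((∃ x, v = code j B x) → v.length ≤ L)}

theorem SPL_mono {q : QC} {j B n L L' c c' : ℕ} (hn : 1 ≤ n) (hL : L ≤ L') (hc : c ≤ c') :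
    SPL q j B n L c ⊆ SPL q j B n L' c' :=
  fun _ ⟨h1, h2, h3, h4, h5⟩ =>
    ⟨h1, h2.trans (Nat.pow_le_pow_right hn hc), h3, h4, fun h => (h5 h).trans hL⟩

theorem step_rep {P : Par} {q : QC} (hq : WF P q) (hg : GoodA P q) {K : ℕ} (hK : gg P = K + 1)
    {j : ℕ} {i : NIx} {B : ℕ} (hB : GoodCol i B) (hj : q.E j = none)
    {p' p : PIx} {l : List NIx} (hl : l.length = gg P) (hlow : LOWm P q i p' p l) (c : ℕ) :
    ∃ c' n0 : ℕ, ∀ n : ℕ, n0 ≤ n → ∀ L L' : ℕ, (∀ u : ℕ, u ^ 2 ≤ L → u ≤ L') → L' ≤ n ^ c →
      n ≤ L' + 1 → ∀ Y0 : Lang, Mem P q Y0 → ∀ {ι : Type} (f : ι → Lang → Bool),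
      RepF P n c (SPL q j B n L c) (VA P (addc q j false i B) n Y0) f →
      RepF P n c' (SPL q j B n L' c') (VA P (addc q j false i B) n Y0) f := by
  classical
  obtain ⟨e, he⟩ := poly_le (Polynomial.X ^ c + Polynomial.X ^ c + 1 +
    Polynomial.X ^ c * (3 * Polynomial.X ^ c + 3) + 2)
  obtain ⟨b20, n2, h20⟩ := hg p' p l e hl
  set b2 : ℕ := max b20 c with hb2
  obtain ⟨c', hc'⟩ := poly_le (Polynomial.X ^ c + Polynomial.X ^ b2 + 3 +
    Polynomial.X ^ b2 * Polynomial.X ^ c)
  refine ⟨c', max (max n2 2) q.N, fun n hn L L' hLL hL' hnL Y0 hY0 ι f hf => ?_⟩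
  have hn2 : 2 ≤ n := le_trans (le_trans (le_max_right _ _) (le_max_left _ _)) hn
  have hnn2 : n2 ≤ n := le_trans (le_trans (le_max_left _ _) (le_max_left _ _)) hn
  have hnN : q.N ≤ n := le_trans (le_max_right _ _) hn
  have hLN : q.N ≤ L' + 1 := hnN.trans hnL
  have he' := he n hn2
  have hc'' := hc' n hn2
  simp only [Polynomial.eval_add, Polynomial.eval_mul, Polynomial.eval_pow,
    Polynomial.eval_X, Polynomial.eval_ofNat, Polynomial.eval_one] at he' hc''
  have hcc' : n ^ c ≤ n ^ c' := by omega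
  have hb2c' : n ^ b2 ≤ n ^ c' := by omega
  have hnc : 1 ≤ n ^ c := Nat.one_le_pow _ _ (by omega)
  have hnb : 1 ≤ n ^ b2 := Nat.one_le_pow _ _ (by omega)
  obtain ⟨m, hm, cont, hcont, M, hM, Q, hQ, T, hT, hmain⟩ := hf
  have hcb : n ^ c ≤ n ^ b2 := Nat.pow_le_pow_right (by omega) (le_max_right _ _)
  have hlh : L' ≤ n ^ b2 := hL'.trans hcb
  obtain ⟨m2, hm2, cont2, hcont2, M2, hM2, Q2, hQ2, T2, hT2, hmain2⟩ :=
    (h20 n hnn2 Y0 hY0).mono (by omega) (show b20 ≤ b2 from le_max_left _ _)
      (SA_mono (by omega) (le_max_left _ _)) (subset_refl _)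
  -- the strings of the gates
  let sg : ℕ → Str := fun ν => false :: false :: bs (n ^ e - 2) ν
  have hsg : ∀ ν, (sg ν).length = n ^ e := by
    intro ν
    simp only [sg, List.length_cons, bs_length]
    omega
  have hsgi : ∀ ν ν' : ℕ, ν < M → ν' < M → ∀ r r' : Str, sg ν ++ r = sg ν' ++ r' → ν = ν' := by
    intro ν ν' hν hν' r r' h
    have h3 := (List.append_inj h (by rw [hsg, hsg])).1
    simp only [sg, List.cons.injEq, true_and] at h3
    have h4 : M ≤ 2 ^ (n ^ e - 2) := hM.trans (Nat.pow_le_pow_right (by norm_num) (by omega))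
    exact bs_inj (by omega) (by omega) h3
  -- literals
  let cx : (Str ⊕ List ℕ) ⊕ Str → Option Str := Sum.elim (fun _ => none) some
  let S1 : Set ((Str ⊕ List ℕ) ⊕ Str) := {u | (∀ w, u = Sum.inl w → w ∈ SV P (SPL q j B n L' c) m) ∧
    ∀ s, u = Sum.inr s → s.length ≤ n ^ c}
  let φ : Str ⊕ List ℕ → ((Str ⊕ List ℕ) ⊕ Str) ⊕ Bool := fun u => match u with
    | Sum.inl v => if v.length ≤ L' then Sum.inl (Sum.inl (Sum.inl v)) else
        if h : ∃ x, v = code j B x then Sum.inl (Sum.inr (true :: h.choose)) else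
          Sum.inl (Sum.inl (Sum.inl v))
    | Sum.inr p => Sum.inl (Sum.inl (Sum.inr p))
  have hf1 : ∀ ν, IsC S1 (n ^ c) (n ^ c) (K + 1)
      (fun Y => Q ν (fun u => Sum.elim Y id (φ u))) := by
    intro ν
    have h3 := hQ ν
    rw [hK] at h3
    refine h3.rename (S' := S1) φ ?_
    rintro (v | p) hu v' hvv'
    · have hv := hu.1 v rfl
      simp only [φ] at hvv'
      have hinl : (v.length ≤ L' ∨ ¬ ∃ x, v = code j B x) →
          (Sum.inl (Sum.inl v) : (Str ⊕ List ℕ) ⊕ Str) ∈ S1 := by
        intro h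
        refine ⟨fun w hw => ?_, fun s hs => by simp at hs⟩
        simp only [Sum.inl.injEq] at hw
        subst hw
        refine ⟨fun w hw => ?_, fun p hp => by simp at hp⟩
        simp only [Sum.inl.injEq] at hw
        subst hw
        refine ⟨hv.1, hv.2.1, hv.2.2.1, hv.2.2.2.1, fun h5 => ?_⟩
        rcases h with h | h
        · exact h
        · exact absurd h5 h
      split_ifs at hvv' with h4 h5
      · simp only [Sum.inl.injEq] at hvv'
        subst hvv'
        exact hinl (Or.inl h4)
      · simp only [Sum.inl.injEq] at hvv'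
        subst hvv'
        refine ⟨fun w hw => by simp at hw, fun s hs => ?_⟩
        simp only [Sum.inr.injEq] at hs
        subst hs
        have h6 := h5.choose_spec
        set x := h5.choose
        have h7 := hv.2.1
        rw [h6, code_length] at h7
        simp only [List.length_cons]
        omega
      · simp only [Sum.inl.injEq] at hvv'
        subst hvv'
        exact hinl (Or.inr h5)
    · simp only [φ, Sum.inl.injEq] at hvv'
      subst hvv'
      refine ⟨fun w hw => ?_, fun s hs => by simp at hs⟩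
      simp only [Sum.inl.injEq] at hw
      subst hw
      exact ⟨fun v hv => by simp at hv, fun p' hp' => hu.2 p' hp'⟩
  have hex : ∀ ν : Fin M, ∃ Tab : Str → DT ((Str ⊕ List ℕ) ⊕ Str) Bool,
      (∀ v, (Tab v).depth ≤ n ^ c) ∧ (∀ v, (Tab v).QIn {u | u ∈ S1 ∧ cx u = none}) ∧
      ∀ (Y : (Str ⊕ List ℕ) ⊕ Str → Bool) (Z : Lang),
        (∀ r : Str, r.length + (sg ν).length = 2 ^ (K + 1) * (sg ν).length →
          Z (false :: (sg ν ++ r)) = (Tab (sg ν ++ r)).eval Y) →
        (∀ u ∈ S1, ∀ x, cx u = some x → Z (true :: x) = Y u) →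
        J (K + 1) Z (sg ν) = Q ν (fun u => Sum.elim Y id (φ u)) := by
    intro ν
    exact univG cx S1 (n ^ c) (n ^ c) (n ^ c) (by
      rintro (v | u) hv x hx
      · simp [cx] at hx
      · simp only [cx, Sum.elim_inr, Option.some.injEq] at hx
        rw [← hx]
        exact hv.2 u rfl) K _ (hf1 ν) (sg ν) (by rw [hsg]; omega)
  choose Tab hTab1 hTab2 hTab3 using hex
  let ex : Str → Prop := fun v => ∃ t : Fin M × Str, v = sg t.1 ++ t.2 ∧
    t.2.length + (sg t.1).length = 2 ^ (K + 1) * (sg t.1).length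
  let G : Lang → (List ℕ → Bool) → Lang := fun X x v =>
    if h : ex v then (Tab h.choose.1 v).eval (Sum.elim (Sum.elim X x) (fun _ => false)) else false
  let X1 : Lang → (List ℕ → Bool) → Lang := fun X x =>
    World P q (gl P n) L' (n ^ b2) X (G X x) (fun p => x (shift (rtt P m) p))
  set R1 : ℕ := 2 ^ (n ^ b2 + 1) with hR1
  let ct : ℕ → Lang → (List ℕ → Bool) → Bool := fun r X x =>
    if r < m then cont r X x else if r < m + R1 then contH P q L' (n ^ b2) (X1 X x) (r - m)
    else cont2 (r - (m + R1)) (X1 X x) (fun p => x (shift (rtt P (m + R1)) p))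
  have hggl : gl P n * 2 ^ P.h ≤ L' + 1 := (Nat.div_mul_le_self n (2 ^ P.h)).trans hnL
  -- the tables do not depend on late trees
  have hGag : ∀ (X : Lang) (x x' : List ℕ → Bool), AgreeBelow (rtt P m) x x' →
      G X x = G X x' := by
    intro X x x' hxx
    funext v
    simp only [G]
    split_ifs with h
    · apply DT.eval_congr _ (hTab2 _ v)
      rintro ((w | p) | s) ⟨h3, h4⟩
      · rfl
      · obtain ⟨r, h5, h6⟩ := (h3.1 _ rfl).2 p rfl
        exact hxx p r h5 h6
      · simp [cx] at h4
    · rfl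
  have hctag : ∀ r X x x', AgreeBelow (rtt P r) x x' → ct r X x = ct r X x' := by
    intro r X x x' hxx
    simp only [ct]
    by_cases h3 : r < m
    · rw [if_pos h3, if_pos h3]
      exact hcont r X x x' hxx
    rw [if_neg h3, if_neg h3]
    have hG : G X x = G X x' := hGag X x x' (agree_mono hxx (rtt_mono P (by omega)))
    by_cases h4 : r < m + R1
    · rw [if_pos h4, if_pos h4]
      apply contH_congr hq (fun _ _ => rfl)
      · intro v _ _
        rw [hG]
      · apply agree_shift
        rw [← rtt_add, Nat.add_sub_cancel' (by omega)]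
        exact hxx
    · rw [if_neg h4, if_neg h4]
      have hX1 : X1 X x = X1 X x' := by
        funext v
        refine World_congr hq v.length (fun _ _ => rfl) ?_ ?_ v le_rfl
        · intro u _ _ _
          rw [hG]
        · intro u _ _ h5 hh
          obtain ⟨r', h6, h7⟩ := pos_last_lt (g := gl P n) hh
          apply hxx _ (r' + rtt P m)
          · rw [shift_getLast, h6]; rfl
          · have h8 : rtt P (2 ^ (u.length + 1)) ≤ rtt P R1 := rtt_mono P (by
              rw [hR1]; exact Nat.pow_le_pow_right (by norm_num) (by omega))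
            have h9 := rtt_add P m R1
            have h10 : rtt P (m + R1) ≤ rtt P r := rtt_mono P (by omega)
            omega
      rw [hX1]
      apply hcont2
      apply agree_shift
      rw [← rtt_add, Nat.add_sub_cancel' (by omega)]
      exact hxx
  -- substitution
  let toV : (Str ⊕ List ℕ) ⊕ Str → DT (Str ⊕ List ℕ) Bool := Sum.elim vr (fun _ => DT.leaf false)
  let sub : Str ⊕ List ℕ → DT (Str ⊕ List ℕ) Bool := fun u => match u with
    | Sum.inl v => if v.length ≤ L' then vr (Sum.inl v) else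
        if isH P q v then vr (Sum.inr (shift (rtt P m) (pos P q (gl P n) v))) else
          if h : ex v then (Tab h.choose.1 v).subst toV else DT.leaf false
    | Sum.inr p => vr (Sum.inr (shift (rtt P (m + R1)) p))
  have hTd : ∀ ν v, ((Tab ν v).subst toV).depth ≤ n ^ c := by
    intro ν v
    have h4 := DT.depth_subst toV _ 1 (by
      rintro (v | u) _
      · exact (vr_depth v).le
      · simp [toV, DT.depth]) (Tab ν v) (hTab2 ν v)
    rw [mul_one] at h4
    exact h4.trans (hTab1 ν v)
  have hsubd : ∀ u, (sub u).depth ≤ n ^ c := by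
    rintro (v | p)
    · simp only [sub]
      split_ifs
      · rw [vr_depth]; exact hnc
      · rw [vr_depth]; exact hnc
      · exact hTd _ _
      · simp [DT.depth]
    · simp only [sub]
      rw [vr_depth]; exact hnc
  set m' : ℕ := m + (R1 + m2) with hm'
  have hSS : SV P (SPL q j B n L' c) m ⊆ SV P (SPL q j B n L' c') m' := by
    apply SV_mono
    · rintro v ⟨h3, h4, h5⟩
      exact ⟨h3, h4.trans hcc', h5⟩
    · omega
  have hsubq : ∀ u ∈ SV P (SA q n b2) m2, (sub u).QIn (SV P (SPL q j B n L' c') m') := by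
    rintro (v | p) hu
    · have hv := hu.1 v rfl
      simp only [sub]
      split_ifs with h3 h4 h5
      · apply vr_qin
        refine ⟨fun w hw => ?_, fun p hp => by simp at hp⟩
        simp only [Sum.inl.injEq] at hw
        subst hw
        exact ⟨hv.1, hv.2.1.trans hb2c', hv.2.2.1, hv.2.2.2, fun _ => h3⟩
      · apply vr_qin
        refine ⟨fun w hw => by simp at hw, fun p hp => ?_⟩
        simp only [Sum.inr.injEq] at hp
        subst hp
        obtain ⟨r', h6, h7⟩ := pos_last_lt (g := gl P n) h4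
        refine ⟨r' + rtt P m, ?_, ?_⟩
        · rw [shift_getLast, h6]; rfl
        · have h8 : rtt P (2 ^ (v.length + 1)) ≤ rtt P R1 := rtt_mono P (by
            rw [hR1]
            have := hv.2.1
            exact Nat.pow_le_pow_right (by norm_num) (by omega))
          have h9 := rtt_add P m R1
          have h10 : rtt P (m + R1) ≤ rtt P m' := rtt_mono P (by omega)
          omega
      · refine DT.QIn.subst ?_ (hTab2 _ v)
        rintro (u | u) ⟨hu1, hu2⟩
        · exact vr_qin (hSS (hu1.1 u rfl))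
        · trivial
      · trivial
    · simp only [sub]
      apply vr_qin
      refine ⟨fun w hw => by simp at hw, fun p' hp' => ?_⟩
      simp only [Sum.inr.injEq] at hp'
      subst hp'
      obtain ⟨r, h3, h4⟩ := hu.2 p rfl
      refine ⟨r + rtt P (m + R1), ?_, ?_⟩
      · rw [shift_getLast, h3]; rfl
      · have h9 := rtt_add P (m + R1) m2
        have h10 : m + R1 + m2 = m' := by omega
        rw [h10] at h9
        omega
  have hsge : ∀ ν : Fin M, (sg ν).length ≤ n ^ e := fun ν => (hsg ν).le
  refine ⟨m', ?_, ct, hctag, M2, hM2.trans (Nat.pow_le_pow_right (by norm_num) hb2c'),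
    fun μ Y => Q2 μ (fun u => (sub u).eval Y), ?_,
    fun i => (T i).subst (fun ν : Fin M => T2 ⟨sg ν.1, hsge ν⟩), ?_, ?_⟩
  · have h3 : 2 ^ (n ^ c) ≤ 2 ^ (n ^ c + n ^ b2 + 1) := Nat.pow_le_pow_right (by norm_num) (by omega)
    have h4 : R1 ≤ 2 ^ (n ^ c + n ^ b2 + 1) := Nat.pow_le_pow_right (by norm_num) (by omega)
    have h5 : 2 ^ (n ^ b2) ≤ 2 ^ (n ^ c + n ^ b2 + 1) :=
      Nat.pow_le_pow_right (by norm_num) (by omega)
    have h6 : 2 ^ (n ^ c + n ^ b2 + 1 + 2) ≤ 2 ^ (n ^ c') :=
      Nat.pow_le_pow_right (by norm_num) (by omega)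
    rw [pow_add] at h6
    omega
  · intro μ
    refine (((hQ2 μ).subst (d := n ^ c) sub (fun u _ => hsubd u) hsubq)).mono (subset_refl _)
      hb2c' (by omega)
  · intro i
    have hTi := hT i
    unfold TOK at hTi ⊢
    by_cases hd : P.d = true
    · rw [if_pos hd] at hTi ⊢
      obtain ⟨ν, hν⟩ := hTi
      have h3 := hT2 ⟨sg ν.1, hsge ν⟩
      unfold TOK at h3
      rw [if_pos hd] at h3
      obtain ⟨μ, hμ⟩ := h3
      refine ⟨μ, ?_⟩
      show (T i).subst (fun ν : Fin M => T2 ⟨sg ν.1, hsge ν⟩) = vr μ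
      rw [hν]
      unfold vr
      simp only [DT.subst, hμ, vr, DT.bind]
      simp
    · rw [if_neg hd] at hTi ⊢
      have h3 := DT.depth_subst (fun ν => T2 ⟨sg ν.1, hsge ν⟩) Set.univ (n ^ b2) (by
        intro ν _
        have h4 := hT2 ⟨sg ν.1, hsge ν⟩
        unfold TOK at h4
        rw [if_neg hd] at h4
        exact h4) (T i) (qin_univ _)
      have h4 : (T i).depth * n ^ b2 ≤ n ^ c * n ^ b2 := Nat.mul_le_mul_right _ hTi
      have h5 : n ^ c * n ^ b2 = n ^ b2 * n ^ c := Nat.mul_comm _ _
      refine h3.trans ?_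
      omega
  · intro X hX x hx i0
    obtain ⟨hXm, hXY⟩ := hX
    have hXq : Mem P q X := addc_mem hj hXm
    have hwle : ∀ v : Str, v.length ≤ L' → X1 X x v = X v :=
      fun v hv => World_le hq hXq hlh hv
    -- the strings of the gates
    have hff : ∀ (ν : ℕ) (r : Str), ¬ isTab (sg ν ++ r) ∧ ¬ isP q (sg ν ++ r) ∧
        ¬ isH P q (sg ν ++ r) := by
      intro ν r
      have h3 := ff_free P q (bs (n ^ e - 2) ν ++ r)
      exact ⟨h3.1, h3.2.1, h3.2.2.1⟩
    have hXmem : Mem P q (X1 X x) := by
      apply World_mem hq hXq hlh hLN hggl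
      intro j' i' B' z' hE h3 h4
      rw [tval_shift]
      have h5 : rnk (code j' B' (nm P z')) < R1 := by
        refine lt_of_lt_of_le (rnk_lt _) ?_
        rw [hR1]
        apply Nat.pow_le_pow_right (by norm_num)
        have h6 : (code j' B' (nm P z')).length ≤ clen P j' B' z' := by
          unfold clen
          have : (code j' B' (nm P z')).length * 1 ≤ (code j' B' (nm P z')).length * 2 ^ P.h :=
            Nat.mul_le_mul_left _ Nat.one_le_two_pow
          omega
        omega
      rw [hx _ (by omega)]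
      simp only [ct]
      rw [if_neg (by omega), if_pos (by omega), Nat.add_sub_cancel_left]
      exact contH_code hE h3 h4
    have hXVA : X1 X x ∈ VA P q n Y0 := by
      refine ⟨hXmem, fun v hv => ?_⟩
      rw [hwle v (by omega), hXY v hv]
    have hrep2 := hmain2 (X1 X x) hXVA (fun p => x (shift (rtt P (m + R1)) p)) (by
      intro r hr
      rw [tval_shift, hx _ (by omega)]
      simp only [ct]
      rw [if_neg (by omega), if_neg (by omega), Nat.add_sub_cancel_left])
    -- the gates
    have hgate : ∀ ν : Fin M, mach P p' p l (X1 X x) (sg ν.1) = Q ν (Sum.elim X x) := by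
      intro ν
      rw [← hlow (X1 X x) hXmem, hK, hTab3 ν
        (Sum.elim (Sum.elim X x) (join (X1 X x) (nEval i (X1 X x)))) (ZZ i (X1 X x)) ?_ ?_]
      · apply IsC.eval_congr _ (hQ ν)
        rintro (v | p) hu
        · have hv := hu.1 v rfl
          simp only [φ]
          split_ifs with h3 h4
          · rfl
          · have h5 := h4.choose_spec
            set x' := h4.choose with hx'
            show nEval i (X1 X x) x' = X v
            have h6 : X (code j B x') = nEval i X x' := by
              apply hXm.col j i B x' addc_E_self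
              show q.N ≤ _
              rw [← h5]
              exact hnN.trans hv.1
            have h7 := hv.2.2.2.2 h4
            rw [h5] at h7 ⊢
            rw [h6]
            apply hB
            intro u hu'
            apply hwle
            apply hLL
            rw [code_length] at h7
            omega
          · rfl
        · rfl
      · intro r hr
        show X1 X x (sg ν.1 ++ r) = _
        obtain ⟨h3, h4, h5⟩ := hff ν.1 r
        have hlen : L' < (sg ν.1 ++ r).length := by
          rw [List.length_append, hsg]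
          omega
        have h6 : X1 X x (sg ν.1 ++ r) = G X x (sg ν.1 ++ r) :=
          World_free hq hLN hlen h3 h4 h5
        rw [h6]
        have h7 : ex (sg ν.1 ++ r) := ⟨(ν, r), rfl, hr⟩
        simp only [G]
        rw [dif_pos h7]
        have h8 : h7.choose.1 = ν := by
          have h9 := h7.choose_spec.1
          exact Fin.ext (hsgi _ _ h7.choose.1.2 ν.2 _ _ h9.symm)
        rw [h8]
        apply DT.eval_congr _ (hTab2 ν _)
        rintro (u | u) ⟨_, hc⟩
        · rfl
        · simp [cx] at hc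
      · rintro (v | u) hu s hs
        · simp [cx] at hs
        · simp only [cx, Sum.elim_inr, Option.some.injEq] at hs
          subst hs
          rfl
    have hsube : ∀ u ∈ SV P (SA q n b2) m2, (sub u).eval (Sum.elim X x) =
        Sum.elim (X1 X x) (fun p => x (shift (rtt P (m + R1)) p)) u := by
      rintro (v | p) hu
      · have hv := hu.1 v rfl
        simp only [sub, Sum.elim_inl]
        split_ifs with h3 h4 h5
        · rw [vr_eval, hwle v h3]; rfl
        · rw [vr_eval]
          symm
          exact World_hid hq hLN (by omega) hv.2.1 h4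
        · rw [DT.eval_subst]
          have h6 : X1 X x v = G X x v := World_free hq hLN (by omega) hv.2.2.1 hv.2.2.2 h4
          rw [h6]
          simp only [G]
          rw [dif_pos h5]
          congr 1
          funext u
          rcases u with u | u
          · simp only [toV, Sum.elim_inl]
            rw [vr_eval]
          · simp [toV, DT.eval]
        · have h6 : X1 X x v = G X x v := World_free hq hLN (by omega) hv.2.2.1 hv.2.2.2 h4
          rw [h6]
          simp only [G]
          rw [dif_neg h5]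
          rfl
      · simp only [sub, Sum.elim_inr]
        rw [vr_eval]
        rfl
    rw [DT.eval_subst]
    have hQ2e : (fun μ : Fin M2 => Q2 μ (fun u => (sub u).eval (Sum.elim X x))) =
        fun μ => Q2 μ (Sum.elim (X1 X x) (fun p => x (shift (rtt P (m + R1)) p))) := by
      funext μ
      exact IsC.eval_congr hsube (hQ2 μ)
    have h3 : (fun ν : Fin M => (T2 ⟨sg ν.1, hsge ν⟩).eval
        (fun μ : Fin M2 => Q2 μ (fun u => (sub u).eval (Sum.elim X x)))) =
        fun ν => Q ν (Sum.elim X x) := by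
      funext ν
      rw [hQ2e, hrep2 ⟨sg ν.1, hsge ν⟩]
      exact hgate ν
    rw [h3]
    apply hmain X ⟨hXm, hXY⟩ x
    intro r hr
    rw [hx r (by omega)]
    simp only [ct]
    rw [if_pos hr]

section

variable {P : Par} {q : QC} (hq : WF P q) (hg : GoodA P q) {K : ℕ} (hK : gg P = K + 1)
    {j : ℕ} {i : NIx} {B : ℕ} (hB : GoodCol i B) (hj : q.E j = none)
    {p' p : PIx} {l : List NIx} (hl : l.length = gg P) (hlow : LOWm P q i p' p l)

include hq hg hK hB hj hl hlow

theorem iter_rep : ∀ (M c : ℕ), ∃ c' n0 : ℕ, ∀ n : ℕ, n0 ≤ n → ∀ Y0 : Lang, Mem P q Y0 →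
    ∀ {ι : Type} (f : ι → Lang → Bool),
    RepF P n c (SPL q j B n (n ^ (2 ^ M)) c) (VA P (addc q j false i B) n Y0) f →
    RepF P n c' (SPL q j B n (n - 1) c') (VA P (addc q j false i B) n Y0) f
  | 0, c => by
      obtain ⟨c', n0, h⟩ := step_rep hq hg hK hB hj hl hlow (c + 1)
      refine ⟨c', max n0 2, fun n hn Y0 hY0 ι f hf => ?_⟩
      have hn2 : 2 ≤ n := le_trans (le_max_right _ _) hn
      refine h n (le_trans (le_max_left _ _) hn) (n ^ (2 ^ 0)) (n - 1) ?_ ?_ (by omega) Y0 hY0 f
        (hf.mono (by omega) (by omega) (SPL_mono (by omega) le_rfl (by omega)) (subset_refl _))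
      · intro u hu
        by_contra hcon
        have h1 : n ≤ u := by omega
        have h2 : n ^ 2 ≤ u ^ 2 := Nat.pow_le_pow_left h1 2
        simp only [pow_zero, pow_one] at hu
        nlinarith
      · have h1 : n ^ 1 ≤ n ^ (c + 1) := Nat.pow_le_pow_right (by omega) (by omega)
        rw [pow_one] at h1
        omega
  | M + 1, c => by
      obtain ⟨b1, n1, h1⟩ := step_rep hq hg hK hB hj hl hlow (c + 2 ^ M)
      obtain ⟨b2, n2, h2⟩ := iter_rep M b1
      refine ⟨b2, max (max n1 n2) 2, fun n hn Y0 hY0 ι f hf => ?_⟩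
      have hn2 : 2 ≤ n := le_trans (le_max_right _ _) hn
      have h3 := h1 n (le_trans (le_trans (le_max_left _ _) (le_max_left _ _)) hn)
        (n ^ (2 ^ (M + 1))) (n ^ (2 ^ M)) (by
          intro u hu
          have h3 : n ^ (2 ^ (M + 1)) = (n ^ (2 ^ M)) ^ 2 := by
            rw [← pow_mul]; congr 1
          rw [h3] at hu
          exact (Nat.pow_le_pow_iff_left (by norm_num)).1 hu)
        (Nat.pow_le_pow_right (by omega) (Nat.le_add_left _ _)) (by
          have h4 : n ^ 1 ≤ n ^ (2 ^ M) := Nat.pow_le_pow_right (by omega) Nat.one_le_two_pow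
          rw [pow_one] at h4
          omega) Y0 hY0 f
        (hf.mono (by omega) (Nat.le_add_right _ _)
          (SPL_mono (by omega) le_rfl (Nat.le_add_right _ _)) (subset_refl _))
      exact h2 n (le_trans (le_trans (le_max_right _ _) (le_max_left _ _)) hn) Y0 hY0 f h3

theorem goodA_addc : GoodA P (addc q j false i B) := by
  intro r' r l1 a hl1
  obtain ⟨c, n1, h1⟩ := hg r' r l1 a hl1
  obtain ⟨c', n2, h2⟩ := iter_rep hq hg hK hB hj hl hlow c c
  refine ⟨c', max (max n1 n2) 2, fun n hn Y0 hY0 => ?_⟩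
  have hn1 : n1 ≤ n := le_trans (le_trans (le_max_left _ _) (le_max_left _ _)) hn
  have hn2 : n2 ≤ n := le_trans (le_trans (le_max_right _ _) (le_max_left _ _)) hn
  have hn3 : 2 ≤ n := le_trans (le_max_right _ _) hn
  have hY0' : Mem P q Y0 := addc_mem hj hY0
  have h3 := h1 n hn1 Y0 hY0'
  have h4 := h2 n hn2 Y0 hY0' _ (h3.mono (by omega) le_rfl
    (S' := SPL q j B n (n ^ (2 ^ c)) c) (VX' := VA P (addc q j false i B) n Y0) (by
      rintro v ⟨c1, c2, c3, c4⟩
      refine ⟨c1, c2, c3, c4, fun _ => c2.trans (Nat.pow_le_pow_right (by omega) ?_)⟩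
      exact (Nat.lt_two_pow_self).le) (by
      rintro X ⟨c1, c2⟩
      exact ⟨addc_mem hj c1, c2⟩))
  refine h4.mono (by omega) le_rfl ?_ (subset_refl _)
  rintro v ⟨c1, c2, c3, c4, c5⟩
  refine ⟨c1, c2, c3, ?_⟩
  rintro ⟨j', i', B', x, hE, hv⟩
  by_cases hjj : j' = j
  · subst hjj
    rw [addc_E_self] at hE
    simp only [Option.some.injEq, Prod.mk.injEq, true_and] at hE
    have h5 := c5 ⟨x, by rw [hE.2]; exact hv⟩
    omega
  · rw [addc_E_ne hjj] at hE
    exact c4 ⟨j', i', B', x, hE, hv⟩

end

end Pool.Agent.Lib.Pa76659O
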