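import Pool.Agent.Lib.Pa76659O.Base

/-!
The members of a condition: those with canonical filling, and with free hidden strings.
-/

set_option maxHeartbeats 4000000

namespace Pool.Agent.Lib.Pa76659O

open Pool.Agent.Lib.Pa76659

/-! ### fixed points -/

/-- recursion on the length of strings -/
noncomputable def fix (F : Lang → Str → Bool) (v : Str) : Bool :=
  F (fun u => if _ : u.length < v.length then fix F u else false) v
termination_by v.length

theorem fix_eq {F : Lang → Str → Bool} (hF : ∀ (v : Str) (X X' : Lang),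
    (∀ u : Str, u.length < v.length → X u = X' u) → F X v = F X' v) (v : Str) :
    fix F v = F (fix F) v := by
  rw [fix]
  apply hF
  intro u hu
  simp [hu]

theorem fix_unique {F F' : Lang → Str → Bool} (hF : ∀ (v : Str) (X X' : Lang),
    (∀ u : Str, u.length < v.length → X u = X' u) → F X v = F X' v) {X X' : Lang} (m : ℕ)
    (h : ∀ v, X v = F X v) (h' : ∀ v, X' v = F' X' v)
    (hFF : ∀ v : Str, v.length ≤ m → F X' v = F' X' v) :
    ∀ v : Str, v.length ≤ m → X v = X' v := by
  intro v
  induction hn : v.length using Nat.strong_induction_on generalizing v with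
  | _ n ih =>
    intro hm
    subst hn
    rw [h, h' v, ← hFF v hm]
    apply hF
    intro u hu
    exact ih u.length hu u rfl (by omega)

/-! ### the rule -/

open Classical in
/-- The value at `v` which is forced by the condition, where hidden strings of length at least `c`
are filled canonically. -/
noncomputable def rule (P : Par) (q : QC) (c : ℕ) (X : Lang) (v : Str) : Option Bool :=
  if v.length < q.N then some (q.σ v)
  else if isTab v then some (q.τ v)
  else if h : ∃ t : ℕ × NIx × ℕ × Str, q.E t.1 = some (false, t.2.1, t.2.2.1) ∧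
      v = code t.1 t.2.2.1 t.2.2.2 then
    some (nEval h.choose.2.1 X h.choose.2.2.2)
  else if h : c ≤ v.length ∧ ∃ t : ℕ × NIx × ℕ × Str × Str,
      q.E t.1 = some (true, t.2.1, t.2.2.1) ∧ v = code t.1 t.2.2.1 t.2.2.2.1 ++ t.2.2.2.2 ∧
      v.length = (code t.1 t.2.2.1 t.2.2.2.1).length * 2 ^ P.h then
    some (lf P h.2.choose.2.1 X h.2.choose.2.2.2.1
      (code h.2.choose.1 h.2.choose.2.2.1 h.2.choose.2.2.2.1).length h.2.choose.2.2.2.2)
  else none

section

variable {P : Par} {q : QC} {c : ℕ}

theorem rule_low {X : Lang} {v : Str} (h : v.length < q.N) : rule P q c X v = some (q.σ v) := by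
  rw [rule, if_pos h]

theorem rule_tab {X : Lang} {v : Str} (h : q.N ≤ v.length) (ht : isTab v) :
    rule P q c X v = some (q.τ v) := by
  rw [rule, if_neg (by omega), if_pos ht]

theorem code_append_not_tab {j B : ℕ} {x r : Str} (hj : j % 2 = 1) : ¬ isTab (code j B x ++ r) := by
  rintro ⟨e, u, h⟩
  rw [code_eq, List.append_assoc, List.cons_append] at h
  obtain ⟨h1, _⟩ := rep_inj true _ _ _ _ h
  omega

theorem rule_col (hq : WF P q) {X : Lang} {j : ℕ} {i : NIx} {B : ℕ} {x : Str}
    (hE : q.E j = some (false, i, B)) (h : q.N ≤ (code j B x).length) :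
    rule P q c X (code j B x) = some (nEval i X x) := by
  have hnt : ¬ isTab (code j B x) := code_not_tab (hq.odd j _ hE)
  have h1 : ∃ t : ℕ × NIx × ℕ × Str, q.E t.1 = some (false, t.2.1, t.2.2.1) ∧
      code j B x = code t.1 t.2.2.1 t.2.2.2 := ⟨(j, i, B, x), hE, rfl⟩
  rw [rule, if_neg (by omega), if_neg hnt, dif_pos h1]
  obtain ⟨h2, h3⟩ := h1.choose_spec
  obtain ⟨e1, e2⟩ := code_inj h3
  rw [← e1, hE] at h2
  simp only [Option.some.injEq, Prod.mk.injEq, true_and] at h2
  rw [← h2.1, ← e2]

theorem code_append_j {j B : ℕ} {x r : Str} {j' B' : ℕ} {x' r' : Str}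
    (h : code j B x ++ r = code j' B' x' ++ r') : j = j' := by
  rw [code_eq, code_eq, List.append_assoc, List.append_assoc, List.cons_append,
    List.cons_append] at h
  obtain ⟨h1, _⟩ := rep_inj true _ _ _ _ h
  omega

theorem not_isP_of_isH {v : Str} (h : isH P q v) : ¬ isP q v := by
  rintro ⟨j, i, B, x, h1, h2⟩
  obtain ⟨j', i', B', z, r, h3, h4, _⟩ := h
  have h5 : code j B x ++ [] = code j' B' z ++ r := by rw [List.append_nil, ← h2, h4]
  obtain rfl := code_append_j h5
  rw [h1] at h3
  simp at h3

theorem not_isTab_of_isH (hq : WF P q) {v : Str} (h : isH P q v) : ¬ isTab v := by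
  obtain ⟨j', i', B', z, r, h3, h4, _⟩ := h
  rw [h4]
  exact code_append_not_tab (hq.odd _ _ h3)

theorem not_isTab_of_isP (hq : WF P q) {v : Str} (h : isP q v) : ¬ isTab v := by
  obtain ⟨j', i', B', z, h3, h4⟩ := h
  rw [h4]
  exact code_not_tab (hq.odd _ _ h3)

theorem append_right_cancel_len {a b a' b' : Str} (h : a ++ b = a' ++ b') (ha : a = a') :
    b = b' := by
  subst ha
  exact List.append_cancel_left h

theorem rule_leaf (hq : WF P q) {X : Lang} {j : ℕ} {i : NIx} {B : ℕ} {z r : Str}
    (hE : q.E j = some (true, i, B)) (hN : q.N ≤ (code j B z ++ r).length)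
    (hc : c ≤ (code j B z ++ r).length)
    (hl : (code j B z ++ r).length = (code j B z).length * 2 ^ P.h) :
    rule P q c X (code j B z ++ r) = some (lf P i X z (code j B z).length r) := by
  have hH : isH P q (code j B z ++ r) := ⟨j, i, B, z, r, hE, rfl, hl⟩
  have hnt := not_isTab_of_isH hq hH
  have hnp : ¬ ∃ t : ℕ × NIx × ℕ × Str, q.E t.1 = some (false, t.2.1, t.2.2.1) ∧
      code j B z ++ r = code t.1 t.2.2.1 t.2.2.2 := by
    rintro ⟨t, h1, h2⟩
    exact not_isP_of_isH hH ⟨t.1, t.2.1, t.2.2.1, t.2.2.2, h1, h2⟩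
  have h1 : c ≤ (code j B z ++ r).length ∧ ∃ t : ℕ × NIx × ℕ × Str × Str,
      q.E t.1 = some (true, t.2.1, t.2.2.1) ∧
      code j B z ++ r = code t.1 t.2.2.1 t.2.2.2.1 ++ t.2.2.2.2 ∧
      (code j B z ++ r).length = (code t.1 t.2.2.1 t.2.2.2.1).length * 2 ^ P.h :=
    ⟨hc, (j, i, B, z, r), hE, rfl, hl⟩
  rw [rule, if_neg (by omega), if_neg hnt, dif_neg hnp, dif_pos h1]
  obtain ⟨h2, h3, _⟩ := h1.2.choose_spec
  have e1 := code_append_j h3
  rw [← e1, hE] at h2
  simp only [Option.some.injEq, Prod.mk.injEq, true_and] at h2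
  rw [← e1, ← h2.2] at h3
  have e2 := (code_append_inj h3).2
  have h4 : code j B z = code h1.2.choose.1 h1.2.choose.2.2.1 h1.2.choose.2.2.2.1 := by
    rw [← e1, ← h2.2, ← e2]
  have h5 := append_right_cancel_len h3 (by rw [← e2])
  rw [← h4, ← h5, ← h2.1, ← e2]

theorem rule_none {X : Lang} {v : Str} (hN : q.N ≤ v.length) (ht : ¬ isTab v) (hp : ¬ isP q v)
    (hh : isH P q v → v.length < c) : rule P q c X v = none := by
  have hnp : ¬ ∃ t : ℕ × NIx × ℕ × Str, q.E t.1 = some (false, t.2.1, t.2.2.1) ∧
      v = code t.1 t.2.2.1 t.2.2.2 := by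
    rintro ⟨t, h1, h2⟩
    exact hp ⟨t.1, t.2.1, t.2.2.1, t.2.2.2, h1, h2⟩
  have hnh : ¬ (c ≤ v.length ∧ ∃ t : ℕ × NIx × ℕ × Str × Str,
      q.E t.1 = some (true, t.2.1, t.2.2.1) ∧ v = code t.1 t.2.2.1 t.2.2.2.1 ++ t.2.2.2.2 ∧
      v.length = (code t.1 t.2.2.1 t.2.2.2.1).length * 2 ^ P.h) := by
    rintro ⟨h0, t, h1, h2, h3⟩
    have := hh ⟨t.1, t.2.1, t.2.2.1, t.2.2.2.1, t.2.2.2.2, h1, h2, h3⟩
    omega
  rw [rule, if_neg (by omega), if_neg ht, dif_neg hnp, dif_neg hnh]

theorem nEval_col_congr {i : NIx} {B : ℕ} (hB : GoodCol i B) {j : ℕ} {x : Str} {X X' : Lang}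
    (h : ∀ u : Str, u.length < (code j B x).length → X u = X' u) : nEval i X x = nEval i X' x :=
  hB.congr j x X X' h

theorem rule_congr (hq : WF P q) {v : Str} {X X' : Lang}
    (h : ∀ u : Str, u.length < v.length → X u = X' u) :
    rule P q c X v = rule P q c X' v := by
  by_cases hN : v.length < q.N
  · rw [rule_low hN, rule_low hN]
  have hN : q.N ≤ v.length := by omega
  by_cases ht : isTab v
  · rw [rule_tab hN ht, rule_tab hN ht]
  by_cases hp : isP q v
  · obtain ⟨j, i, B, x, hE, rfl⟩ := hp
    rw [rule_col hq hE hN, rule_col hq hE hN, nEval_col_congr (hq.goodP j i B hE) h]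
  by_cases hh : isH P q v ∧ c ≤ v.length
  · obtain ⟨⟨j, i, B, z, r, hE, rfl, hl⟩, hc⟩ := hh
    rw [rule_leaf hq hE hN hc hl, rule_leaf hq hE hN hc hl,
      lf_congr (hq.goodH j i B hE) hl (X := X) (X' := X')]
    intro u hu
    apply h
    rw [List.length_append]; omega
  · have h1 : isH P q v → v.length < c := by
      intro h2
      by_contra h3
      exact hh ⟨h2, by omega⟩
    rw [rule_none hN ht hp h1, rule_none hN ht hp h1]

/-! ### the canonical members -/

/-- The oracle with free values `Y`; hidden strings of length at least `c` are filled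
canonically. -/
noncomputable def Phi (P : Par) (q : QC) (c : ℕ) (Y : Lang) : Lang :=
  fix (fun X v => (rule P q c X v).getD (Y v))

theorem Phi_eq (hq : WF P q) (Y : Lang) (v : Str) :
    Phi P q c Y v = (rule P q c (Phi P q c Y) v).getD (Y v) := by
  apply fix_eq (F := fun X v => (rule P q c X v).getD (Y v))
  intro u X X' h
  rw [rule_congr hq h]

theorem Phi_unique (hq : WF P q) {X Y Y' : Lang} (m : ℕ)
    (hX : ∀ v, X v = (rule P q c X v).getD (Y' v))
    (hYY : ∀ v : Str, v.length ≤ m → rule P q c X v = none → Y v = Y' v) :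
    ∀ v : Str, v.length ≤ m → Phi P q c Y v = X v := by
  refine fix_unique (F := fun X v => (rule P q c X v).getD (Y v))
    (F' := fun X v => (rule P q c X v).getD (Y' v)) ?_ m (Phi_eq hq Y) hX ?_
  · intro u X X' h
    rw [rule_congr hq h]
  · intro v hv
    cases hr : rule P q c X v with
    | none => simp [hYY v hv hr]
    | some b => simp

theorem Phi_low (hq : WF P q) (Y : Lang) {v : Str} (h : v.length < q.N) :
    Phi P q c Y v = q.σ v := by
  rw [Phi_eq hq, rule_low h]; rfl

theorem Phi_none (hq : WF P q) (Y : Lang) {v : Str} (hN : q.N ≤ v.length) (ht : ¬ isTab v)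
    (hp : ¬ isP q v) (hh : isH P q v → v.length < c) : Phi P q c Y v = Y v := by
  rw [Phi_eq hq, rule_none hN ht hp hh]; rfl

/-- An oracle which follows the rule, and whose codes with leaves shorter than `c` are right, obeys
the condition. -/
theorem mem_of_rule (hq : WF P q) {X Y : Lang} (hX : ∀ v, X v = (rule P q c X v).getD (Y v))
    (hval : ∀ j i B z, q.E j = some (true, i, B) → q.N ≤ clen P j B z → clen P j B z < c →
      val P j B X z = cnt P i X z) : Mem P q X := by
  refine ⟨?_, ?_, ?_, ?_⟩
  · intro v hv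
    rw [hX, rule_low hv]; rfl
  · intro v hv ht
    rw [hX, rule_tab hv ht]; rfl
  · intro j i B x hE hN
    rw [hX, rule_col hq hE hN]; rfl
  · intro j i B z hE hN
    by_cases hc : clen P j B z < c
    · exact hval j i B z hE hN hc
    · apply val_of_cd
      intro z' _ hz'
      have hl : (code j B z').length * 2 ^ P.h = clen P j B z := by
        rw [clen, code_length, code_length, hz']
      apply cd_canonical
      intro r hr
      rw [hX, rule_leaf hq hE (by omega) (by omega) hr]; rfl

theorem Phi_mem (hq : WF P q) {Y : Lang}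
    (hval : ∀ j i B z, q.E j = some (true, i, B) → q.N ≤ clen P j B z → clen P j B z < c →
      val P j B (Phi P q c Y) z = cnt P i (Phi P q c Y) z) : Mem P q (Phi P q c Y) :=
  mem_of_rule hq (Phi_eq hq Y) hval

theorem clen_eq {j B : ℕ} {z z' : Str} (h : z'.length = (nm P z).length) :
    (code j B z').length * 2 ^ P.h = clen P j B z := by
  rw [clen, code_length, code_length, h]

theorem length_nm (z : Str) : z.length ≤ (nm P z).length := by
  unfold nm; split_ifs <;> simp

theorem code_le_clen (j B : ℕ) (z : Str) : (code j B z).length ≤ clen P j B z := by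
  have h1 : (code j B z).length ≤ (code j B (nm P z)).length := by
    rw [code_length, code_length]
    have := length_nm (P := P) z
    have h2 : (z.length + 2) ^ (2 ^ B) ≤ ((nm P z).length + 2) ^ (2 ^ B) :=
      Nat.pow_le_pow_left (by omega) _
    omega
  have h3 : (code j B (nm P z)).length * 1 ≤ (code j B (nm P z)).length * 2 ^ P.h :=
    Nat.mul_le_mul_left _ Nat.one_le_two_pow
  unfold clen
  omega

/-- the value of a code depends on strings of length `clen` -/
theorem val_congr {j B : ℕ} {z : Str} {X X' : Lang}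
    (h : ∀ v : Str, v.length = clen P j B z → X v = X' v) : val P j B X z = val P j B X' z := by
  have key : ∀ z' : Str, z'.length = (nm P z).length → cd P j B X z' = cd P j B X' z' := by
    intro z' hz'
    unfold cd QQ
    have e : ∀ (k : ℕ) (s : Str), (∀ v : Str, v.length = s.length * 2 ^ k → X v = X' v) →
        EE^[k] X s = EE^[k] X' s := by
      intro k
      induction k with
      | zero =>
          intro s hs
          exact hs s (by simp)
      | succ k ih =>
          intro s hs
          rw [Function.iterate_succ_apply', Function.iterate_succ_apply', Bool.eq_iff_iff,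
            EE_true, EE_true]
          have h1 : ∀ y : Str, y.length = s.length → EE^[k] X (s ++ y) = EE^[k] X' (s ++ y) := by
            intro y hy
            apply ih
            intro v hv
            apply hs
            rw [hv, List.length_append, hy, pow_succ]; ring
          constructor
          · rintro ⟨y, hy, hy2⟩; exact ⟨y, hy, by rw [← h1 y hy]; exact hy2⟩
          · rintro ⟨y, hy, hy2⟩; exact ⟨y, hy, by rw [h1 y hy]; exact hy2⟩
    apply e
    intro v hv
    apply h
    rw [hv, clen_eq hz']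
  unfold val
  split_ifs with hd
  · rw [key (false :: z) (by simp [nm, hd]), key (true :: z) (by simp [nm, hd])]
  · rw [key z (by simp [nm, hd])]

theorem cnt_congr' {i : NIx} {B : ℕ} (hB : GoodHid P i B) {j : ℕ} {z : Str} {X X' : Lang}
    (h : ∀ v : Str, v.length < clen P j B z → X v = X' v) :
    cnt P i X z = cnt P i X' z := by
  apply cnt_congr hB
  intro v hv
  apply h
  exact lt_of_lt_of_le (pow_code_le hv) (code_le_clen j B z)

/-- `Y0` below `n`, `Y` above -/
theorem mix_lt {n : ℕ} {Y0 Y : Lang} {v : Str} (h : v.length < n) : mix n Y0 Y v = Y0 v := by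
  unfold mix; rw [if_pos h]

theorem mix_ge {n : ℕ} {Y0 Y : Lang} {v : Str} (h : n ≤ v.length) : mix n Y0 Y v = Y v := by
  unfold mix; rw [if_neg (by omega)]

/-- below `n` the oracle `Phi` of a mixture agrees with the given member -/
theorem Phi_mix_lt (hq : WF P q) {X0 : Lang} (hX0 : Mem P q X0) {n : ℕ} (hc : n ≤ c)
    (Y : Lang) : ∀ v : Str, v.length < n → Phi P q c (mix n X0 Y) v = X0 v := by
  intro v
  induction hn : v.length using Nat.strong_induction_on generalizing v with
  | _ k ih =>
    intro hv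
    subst hn
    by_cases hN : v.length < q.N
    · rw [Phi_low hq _ hN, hX0.low v hN]
    have hN : q.N ≤ v.length := by omega
    by_cases ht : isTab v
    · rw [Phi_eq hq, rule_tab hN ht, hX0.tab v hN ht]; rfl
    by_cases hp : isP q v
    · obtain ⟨j, i, B, x, hE, rfl⟩ := hp
      rw [Phi_eq hq, rule_col hq hE hN, hX0.col j i B x hE hN]
      show nEval i _ x = _
      apply nEval_col_congr (hq.goodP j i B hE) (j := j)
      intro u hu
      exact ih u.length hu u rfl (by omega)
    · rw [Phi_none hq _ hN ht hp (fun _ => by omega), mix_lt hv]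

/-- a member below `n`, the canonical filling from `n` on -/
theorem Phi_mix_mem (hq : WF P q) {X0 : Lang} (hX0 : Mem P q X0) (n : ℕ) (Y : Lang) :
    Mem P q (Phi P q n (mix n X0 Y)) := by
  apply Phi_mem hq
  intro j i B z hE hN hc
  have h1 : ∀ v : Str, v.length ≤ clen P j B z → Phi P q n (mix n X0 Y) v = X0 v :=
    fun v hv => Phi_mix_lt hq hX0 le_rfl Y v (by omega)
  rw [val_congr (X' := X0) (fun v hv => h1 v (by omega)), hX0.hid j i B z hE hN,
    cnt_congr' (hq.goodH j i B hE) (j := j) (X := X0) (X' := Phi P q n (mix n X0 Y))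
      (fun v hv => (h1 v (by omega)).symm)]

theorem exists_mem (hq : WF P q) : ∃ X, Mem P q X :=
  ⟨Phi P q q.N (fun _ => false), Phi_mem hq (fun j i B z hE hN hc => by omega)⟩

/-! ### freezing -/

/-- freeze the oracle up to `M` -/
def freeze (q : QC) (X : Lang) (M : ℕ) : QC := ⟨M, X, q.τ, q.E⟩

theorem freeze_wf (hq : WF P q) (X : Lang) {M : ℕ} (hM : q.N ≤ M) : WF P (freeze q X M) :=
  ⟨hq.goodP, hq.goodH, fun j hj => hq.fin j (by
    have : M + 2 ≤ j := hj
    omega), hq.odd⟩

theorem freeze_mem (hq : WF P q) {X : Lang} (hX : Mem P q X) {M : ℕ} (hM : q.N ≤ M)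
    {X' : Lang} (h : Mem P (freeze q X M) X') : Mem P q X' := by
  have h1 : ∀ v : Str, v.length < M → X' v = X v := fun v hv => h.low v hv
  refine ⟨?_, ?_, ?_, ?_⟩
  · intro v hv
    rw [h1 v (by omega), hX.low v hv]
  · intro v hN ht
    by_cases hvM : v.length < M
    · rw [h1 v hvM, hX.tab v hN ht]
    · exact h.tab v (by simpa [freeze] using hvM) ht
  · intro j i B x hE hN
    by_cases hvM : (code j B x).length < M
    · rw [h1 _ hvM, hX.col j i B x hE hN]
      apply nEval_col_congr (hq.goodP j i B hE) (j := j)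
      intro u hu
      exact (h1 u (by omega)).symm
    · exact h.col j i B x hE (by simpa [freeze] using hvM)
  · intro j i B z hE hN
    by_cases hvM : clen P j B z < M
    · rw [val_congr (X' := X) (fun v hv => h1 v (by omega)), hX.hid j i B z hE hN]
      apply cnt_congr' (hq.goodH j i B hE) (j := j)
      intro u hu
      exact (h1 u (by omega)).symm
    · exact h.hid j i B z hE (by simpa [freeze] using hvM)

/-! ### adding a column -/

/-- add a column -/
def addc (q : QC) (j : ℕ) (b : Bool) (i : NIx) (B : ℕ) : QC :=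
  ⟨q.N, q.σ, q.τ, Function.update q.E j (some (b, i, B))⟩

theorem addc_E_ne {j j' : ℕ} {b : Bool} {i : NIx} {B : ℕ} (h : j' ≠ j) :
    (addc q j b i B).E j' = q.E j' := by
  simp only [addc, Function.update_of_ne h]

theorem addc_E_self {j : ℕ} {b : Bool} {i : NIx} {B : ℕ} :
    (addc q j b i B).E j = some (b, i, B) := by
  simp only [addc, Function.update_self]

theorem addc_E_of {j j' : ℕ} {b : Bool} {i : NIx} {B : ℕ} {t : Bool × NIx × ℕ}
    (hj : q.E j = none) (h : q.E j' = some t) : (addc q j b i B).E j' = some t := by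
  rw [addc_E_ne]
  · exact h
  · rintro rfl
    rw [hj] at h
    simp at h

theorem addc_mem {j : ℕ} {b : Bool} {i : NIx} {B : ℕ} (hj : q.E j = none)
    {X : Lang} (h : Mem P (addc q j b i B) X) : Mem P q X :=
  ⟨h.low, h.tab, fun j' i' B' x hE hN => h.col j' i' B' x (addc_E_of hj hE) hN,
    fun j' i' B' z hE hN => h.hid j' i' B' z (addc_E_of hj hE) hN⟩

theorem addc_col {j : ℕ} {i : NIx} {B : ℕ} (hN : q.N ≤ j + 3)
    {X : Lang} (h : Mem P (addc q j false i B) X) (x : Str) : X (code j B x) = nEval i X x := by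
  apply h.col j i B x addc_E_self
  rw [code_length]; simp only [addc]; omega

theorem addc_hid {j : ℕ} {i : NIx} {B : ℕ} (hN : q.N ≤ j + 3)
    {X : Lang} (h : Mem P (addc q j true i B) X) (z : Str) :
    val P j B X z = cnt P i X z := by
  apply h.hid j i B z addc_E_self
  have h1 := code_le_clen (P := P) j B z
  have h2 : j + 3 ≤ (code j B z).length := by rw [code_length]; omega
  show q.N ≤ _
  omega

theorem addc_wf (hq : WF P q) {j : ℕ} {b : Bool} {i : NIx} {B : ℕ}
    (hg : b = false → GoodCol i B) (hg' : b = true → GoodHid P i B)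
    (hj : j < q.N + 2) (hodd : j % 2 = 1) : WF P (addc q j b i B) := by
  refine ⟨?_, ?_, ?_, ?_⟩
  · intro j' i' B' h
    by_cases h1 : j' = j
    · subst h1
      rw [addc_E_self] at h
      simp only [Option.some.injEq, Prod.mk.injEq] at h
      rw [← h.2.1, ← h.2.2]; exact hg h.1
    · rw [addc_E_ne h1] at h
      exact hq.goodP j' i' B' h
  · intro j' i' B' h
    by_cases h1 : j' = j
    · subst h1
      rw [addc_E_self] at h
      simp only [Option.some.injEq, Prod.mk.injEq] at h
      rw [← h.2.1, ← h.2.2]; exact hg' h.1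
    · rw [addc_E_ne h1] at h
      exact hq.goodH j' i' B' h
  · intro j' hj'
    have h0 : q.N + 2 ≤ j' := hj'
    have h1 : j' ≠ j := by omega
    rw [addc_E_ne h1]
    exact hq.fin j' h0
  · intro j' c h
    by_cases h1 : j' = j
    · subst h1; exact hodd
    · rw [addc_E_ne h1] at h
      exact hq.odd j' c h

end

end Pool.Agent.Lib.Pa76659O
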