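import Pool.Agent.Lib.Pa76659O.Rule
import Pool.Agent.Lib.Pa76659O.Univ

/-!
The witness, the machines, and lowness on the members of a condition.
-/

set_option maxHeartbeats 4000000

namespace Pool.Agent.Lib.Pa76659O

open Pool.Agent.Lib.Pa76659

/-! ### the witness -/

/-- the region of the witness, as an oracle -/
def regW (X : Lang) : Lang := fun v => X (false :: true :: v)

def progW : Prog := Prog.seq (Prog.push 0 true) (Prog.seq (Prog.push 0 false) progEE)

/-- the machine of the witness -/
noncomputable def iW : NIx := (progW, 10 * Polynomial.X + 40, Polynomial.X)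

theorem nEval_iW (X : Lang) : nEval iW X = EE (regW X) := by
  funext x
  unfold nEval EE iW
  apply decide_eq_decide.2
  simp only [Polynomial.eval_add, Polynomial.eval_mul, Polynomial.eval_ofNat,
    Polynomial.eval_X]
  have key : ∀ y : Str, accepts X progW (inp2 x y) (10 * x.length + 40) =
      !(regW X (x ++ y)) := by
    intro y
    have h1 := exec_push (O := X) 0 true (inp2 x y)
    have e1 : Function.update (inp2 x y) 0 (true :: inp2 x y 0) = inp2 (true :: x) y := by
      funext r
      unfold inp2
      by_cases hr : r = 0
      · subst hr; simp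
      · simp [hr]
    rw [e1] at h1
    have h2 := exec_push (O := X) 0 false (inp2 (true :: x) y)
    have e2 : Function.update (inp2 (true :: x) y) 0 (false :: inp2 (true :: x) y 0) =
        inp2 (false :: true :: x) y := by
      funext r
      unfold inp2
      by_cases hr : r = 0
      · subst hr; simp
      · simp [hr]
    rw [e2] at h2
    obtain ⟨s', h3, h4⟩ := exec_progEE X (false :: true :: x) y
    have h5 := h1.seq (h2.seq h3)
    obtain ⟨_, h6⟩ := h5.halts (N := 10 * x.length + 40) (by
      simp only [List.length_cons]; omega)
    show accepts X progW _ _ = _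
    unfold progW
    rw [h6, h4]
    show _ = !(X (false :: true :: (x ++ y)))
    have e3 : false :: true :: x ++ y = false :: true :: (x ++ y) := rfl
    rw [e3]
    cases X (false :: true :: (x ++ y)) <;> rfl
  constructor
  · rintro ⟨y, hy, hy2⟩
    rw [key] at hy2
    exact ⟨y, hy, by simpa using hy2⟩
  · rintro ⟨y, hy, hy2⟩
    exact ⟨y, hy, by rw [key, hy2]; rfl⟩

/-! ### decision trees for `J0` -/

def interpT : Str → Str → DT Str Bool
  | true :: false :: b :: r, u => interpT r (b :: u)
  | true :: true :: b :: r, u => DT.node u (if b = true then DT.leaf false else interpT r [])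
      (if b = true then interpT r [] else DT.leaf false)
  | _, _ => DT.leaf true

theorem interpT_eval (Z : Lang) : ∀ r u : Str,
    (interpT r u).eval (fun v => Z (true :: v)) = interp Z r u
  | true :: false :: b :: r, u => by
      rw [interpT, interp, interpT_eval Z r (b :: u)]
  | true :: true :: b :: r, u => by
      rw [interpT, interp, DT.eval]
      have ih := interpT_eval Z r []
      cases b <;> cases hz : Z (true :: u) <;> simp [ih, DT.eval]
  | [], u => by simp [interp, interpT, DT.eval]
  | false :: _, u => by simp [interp, interpT, DT.eval]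
  | [true], u => by simp [interp, interpT, DT.eval]
  | [true, true], u => by simp [interp, interpT, DT.eval]
  | [true, false], u => by simp [interp, interpT, DT.eval]

theorem interpT_depth : ∀ r u : Str, (interpT r u).depth ≤ r.length
  | true :: false :: b :: r, u => by
      rw [interpT]
      have := interpT_depth r (b :: u)
      simp only [List.length_cons]; omega
  | true :: true :: b :: r, u => by
      rw [interpT]
      have ih := interpT_depth r []
      cases b <;> simp [DT.depth] <;> omega
  | [], u => by simp [interpT, DT.depth]
  | false :: _, u => by simp [interpT, DT.depth]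
  | [true], u => by simp [interpT, DT.depth]
  | [true, true], u => by simp [interpT, DT.depth]
  | [true, false], u => by simp [interpT, DT.depth]

theorem interpT_qin : ∀ (r u : Str) (m : ℕ), r.length + u.length ≤ m →
    (interpT r u).QIn {v | v.length ≤ m}
  | true :: false :: b :: r, u, m, h => by
      rw [interpT]
      apply interpT_qin r (b :: u) m
      simp only [List.length_cons] at h ⊢; omega
  | true :: true :: b :: r, u, m, h => by
      rw [interpT]
      simp only [List.length_cons] at h
      have ih := interpT_qin r [] m (by simp; omega)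
      have h1 : u ∈ {v : Str | v.length ≤ m} := by
        show u.length ≤ m
        omega
      cases b
      · exact ⟨h1, ih, trivial⟩
      · exact ⟨h1, trivial, ih⟩
  | [], u, _, _ => by simp [interpT, DT.QIn]
  | false :: _, u, _, _ => by simp [interpT, DT.QIn]
  | [true], u, _, _ => by simp [interpT, DT.QIn]
  | [true, true], u, _, _ => by simp [interpT, DT.QIn]
  | [true, false], u, _, _ => by simp [interpT, DT.QIn]

/-- decision tree of `J0 (ZZ i X) w` over the literals of `join X (nEval i X)` -/
def J0T (w : Str) : DT Str Bool :=
  DT.node (false :: w) (DT.leaf true) ((interpT w.reverse []).map (fun b => !b))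

theorem J0T_eval (i : NIx) (X : Lang) (w : Str) :
    (J0T w).eval (join X (nEval i X)) = J0 (ZZ i X) w := by
  have h := interpT_eval (ZZ i X) w.reverse []
  have e : (fun v => ZZ i X (true :: v)) = join X (nEval i X) := rfl
  rw [e] at h
  unfold J0T J0
  rw [DT.eval, DT.eval_map, h]
  show (if X w = true then _ else _) = !(X w && _)
  cases X w <;> simp [DT.eval]

theorem J0T_depth (w : Str) : (J0T w).depth ≤ w.length + 1 := by
  have := interpT_depth w.reverse []
  rw [List.length_reverse] at this
  simp only [J0T, DT.depth, DT.depth_map]
  omega

theorem J0T_qin (w : Str) : (J0T w).QIn {v | v.length ≤ w.length + 1} := by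
  refine ⟨?_, trivial, ?_⟩
  · show (false :: w).length ≤ w.length + 1
    simp
  · apply DT.QIn.map
    apply interpT_qin
    simp

/-! ### machines -/

/-- number of quantifiers of the machines -/
def gg (P : Par) : ℕ := if P.d = true then P.h else P.h - 1

/-- the machines of the class of the trivial low sets -/
noncomputable def mach (P : Par) (p' p : PIx) (l : List NIx) (X : Lang) : Lang :=
  if P.d = true then sEval p l X else pEval p' (sEval p l X)

/-- lowness at level `K` -/
def LOW (P : Par) (K : ℕ) (q : QC) (i : NIx) (p0 : PIx) (l0 : List NIx) : Prop :=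
  ∀ X, Mem P q X → ∀ s : Str, J K (ZZ i X) s = sEval p0 l0 X s

/-- lowness for the class of the machines -/
def LOWm (P : Par) (q : QC) (i : NIx) (p' p : PIx) (l : List NIx) : Prop :=
  ∀ X, Mem P q X → ∀ s : Str, J (gg P) (ZZ i X) s = mach P p' p l X s

theorem LOW_succ {P : Par} {K : ℕ} {q : QC} {i : NIx} {p0 : PIx} {l0 : List NIx}
    (h : LOW P K q i p0 l0) : LOW P (K + 1) q i p0 (iEE :: l0) := by
  intro X hX s
  have : J K (ZZ i X) = sEval p0 l0 X := funext fun s => h X hX s
  rw [J_succ, this, sEval, nEval_iEE]

theorem LOW_add {P : Par} {K : ℕ} {q : QC} {i : NIx} {p0 : PIx} {l0 : List NIx}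
    (h : LOW P K q i p0 l0) (hl : l0.length = K) : ∀ d, ∃ l1 : List NIx, l1.length = K + d ∧
    LOW P (K + d) q i p0 l1
  | 0 => ⟨l0, hl, h⟩
  | d + 1 => by
      obtain ⟨l1, h1, h2⟩ := LOW_add h hl d
      exact ⟨iEE :: l1, by rw [List.length_cons, h1]; ring, LOW_succ h2⟩

end Pool.Agent.Lib.Pa76659O
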